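import Mathlib

set_option autoImplicit false

namespace Pool.Agent.Lib.MP_fdd6ec_al.U

universe u

section Acyl

variable {G : Type} {X : Type u} [Group G] [MetricSpace X]

/-- Gromov four point condition, in the form of the problem statement. -/
def Hyp (X : Type u) [MetricSpace X] (δ : ℝ) : Prop :=
  ∀ x y z w : X,
    min ((dist x w + dist z w - dist x z) / 2) ((dist y w + dist z w - dist y z) / 2) - δ
      ≤ (dist x w + dist y w - dist x y) / 2

def Geo (X : Type u) [MetricSpace X] : Prop :=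
  ∀ x y : X, ∃ c : ℝ → X, c 0 = x ∧ c (dist x y) = y ∧
    ∀ s t : ℝ, 0 ≤ s → s ≤ dist x y → 0 ≤ t → t ≤ dist x y → dist (c s) (c t) = |s - t|

def Acyl (ρ : G →* (X ≃ᵢ X)) : Prop :=
  ∀ ε : ℝ, 0 < ε → ∃ R : ℝ, ∃ N : ℕ, ∀ x y : X, R ≤ dist x y →
    {g : G | dist x (ρ g x) ≤ ε ∧ dist y (ρ g y) ≤ ε}.encard ≤ (N : ℕ∞)

theorem Hyp.nonneg {δ : ℝ} (h : Hyp X δ) (x : X) : 0 ≤ δ := by
  have := h x x x x
  simp at this
  exact this

theorem Hyp.side {δ : ℝ} (h : Hyp X δ) {x x' y w : X} {D η : ℝ}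
    (h1 : dist x' w + dist y w ≤ dist x' y + η) (h2 : dist x x' ≤ D)
    (h3 : D + δ + η / 2 < dist x' w) : dist x w + dist y w ≤ dist x y + η + 2 * δ := by
  have := h x' y x w
  have t1 := dist_triangle x' x w
  have e1 := dist_comm x x'
  have e2 := dist_comm x y
  rcases min_cases ((dist x' w + dist x w - dist x' x) / 2)
    ((dist y w + dist x w - dist y x) / 2) with h4 | h4
  · rw [h4.1] at this; linarith
  · rw [h4.1] at this; linarith

theorem Hyp.close {δ : ℝ} (h : Hyp X δ) {x y p p' : X} {η θ : ℝ}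
    (h1 : dist x p + dist y p ≤ dist x y + η) (h2 : dist x p' + dist y p' ≤ dist x y + η)
    (h3 : |dist x p - dist x p'| ≤ θ) : dist p p' ≤ η + θ + 2 * δ := by
  have := h p p' y x
  have e1 := dist_comm x p
  have e2 := dist_comm x p'
  have e3 := dist_comm x y
  have e4 := dist_comm y p
  have e5 := dist_comm y p'
  rw [abs_le] at h3
  rcases min_cases ((dist p x + dist y x - dist p y) / 2)
    ((dist p' x + dist y x - dist p' y) / 2) with h4 | h4
  · rw [h4.1] at this; linarith [h3.1, h3.2]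
  · rw [h4.1] at this; linarith [h3.1, h3.2]

theorem dist_mul_le (ρ : G →* (X ≃ᵢ X)) (x : X) (g h : G) :
    dist x (ρ (g * h) x) ≤ dist x (ρ g x) + dist x (ρ h x) := by
  have : dist (ρ g x) (ρ (g * h) x) = dist x (ρ h x) := by
    rw [map_mul, IsometryEquiv.mul_apply, IsometryEquiv.dist_eq]
  linarith [dist_triangle x (ρ g x) (ρ (g * h) x)]

theorem dist_pow_le (ρ : G →* (X ≃ᵢ X)) (x : X) (g : G) (n : ℕ) :
    dist x (ρ (g ^ n) x) ≤ n * dist x (ρ g x) := by
  induction n with
  | zero => simp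
  | succ n ih =>
    rw [pow_succ]
    have := dist_mul_le ρ x (g ^ n) g
    push_cast
    linarith

theorem dist_inv_mul (ρ : G →* (X ≃ᵢ X)) (x : X) (g h : G) :
    dist x (ρ (g⁻¹ * h) x) = dist (ρ g x) (ρ h x) := by
  rw [← (ρ g).dist_eq x, ← IsometryEquiv.mul_apply, ← map_mul, mul_inv_cancel_left]

/-- An abelian subgroup containing a copy of the free abelian group of rank two has bounded
orbits in an acylindrical action on a geodesic hyperbolic space. -/
theorem bounded_of_abelian (ρ : G →* (X ≃ᵢ X)) {δ : ℝ} (hgeo : Geo X) (hhyp : Hyp X δ)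
    (hac : Acyl ρ) (A : Subgroup G) (hcomm : ∀ a ∈ A, ∀ b ∈ A, a * b = b * a)
    {u v : G} (hu : u ∈ A) (hv : v ∈ A)
    (hinj : Function.Injective (fun s : ℕ × ℕ => u ^ s.1 * v ^ s.2)) (x : X) :
    ∃ D : ℝ, ∀ a ∈ A, dist x (ρ a x) ≤ D := by
  classical
  by_contra hcon
  push Not at hcon
  have hδ := hhyp.nonneg x
  obtain ⟨R, N, hRN⟩ := hac (8 * δ + 1) (by linarith)
  obtain ⟨D0, hD0⟩ := exists_nat_ge (max (dist x (ρ u x)) (dist x (ρ v x)))
  have hu0 : dist x (ρ u x) ≤ D0 := le_trans (le_max_left _ _) hD0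
  have hv0 : dist x (ρ v x) ≤ D0 := le_trans (le_max_right _ _) hD0
  set n : ℕ := N * (4 * D0 + 1) + 1 with hn
  set g : ℕ × ℕ → G := fun s => u ^ s.1 * v ^ s.2 with hg
  set D : ℝ := 2 * n * D0 with hD
  have hD0' : (0 : ℝ) ≤ D := by positivity
  set S : Finset (ℕ × ℕ) := Finset.range n ×ˢ Finset.range n with hS
  have hgA : ∀ s, g s ∈ A := fun s => A.mul_mem (A.pow_mem hu _) (A.pow_mem hv _)
  have hgD : ∀ s ∈ S, dist x (ρ (g s) x) ≤ D := by
    intro s hs
    rw [hS, Finset.mem_product, Finset.mem_range, Finset.mem_range] at hs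
    have h1 := dist_mul_le ρ x (u ^ s.1) (v ^ s.2)
    have h2 := dist_pow_le ρ x u s.1
    have h3 := dist_pow_le ρ x v s.2
    have h4 : (s.1 : ℝ) ≤ n := by exact_mod_cast hs.1.le
    have h5 : (s.2 : ℝ) ≤ n := by exact_mod_cast hs.2.le
    have h6 : (s.1 : ℝ) * dist x (ρ u x) ≤ n * D0 :=
      mul_le_mul h4 hu0 dist_nonneg (by positivity)
    have h7 : (s.2 : ℝ) * dist x (ρ v x) ≤ n * D0 :=
      mul_le_mul h5 hv0 dist_nonneg (by positivity)
    simp only [hg]
    linarith
  set l1 : ℝ := D + 3 * δ + 1 with hl1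
  set R' : ℝ := max R 0 with hR'
  have hR0 : 0 ≤ R' := le_max_right _ _
  obtain ⟨b, hbA, hb⟩ := hcon (2 * l1 + R')
  set y := ρ b x with hy
  obtain ⟨c, hc0, hc1, hc⟩ := hgeo x y
  set p := c l1 with hp
  set q := c (l1 + R') with hq
  have hxp : dist x p = l1 := by
    rw [← hc0, hp, hc 0 l1 le_rfl dist_nonneg (by linarith) (by linarith)]
    rw [abs_of_nonpos (by linarith)]; ring
  have hxq : dist x q = l1 + R' := by
    rw [← hc0, hq, hc 0 (l1 + R') le_rfl dist_nonneg (by linarith) (by linarith)]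
    rw [abs_of_nonpos (by linarith)]; ring
  have hpq : dist p q = R' := by
    rw [hp, hq, hc l1 (l1 + R') (by linarith) (by linarith) (by linarith) (by linarith)]
    rw [abs_of_nonpos (by linarith)]; ring
  have hyp : dist y p = dist x y - l1 := by
    have := hc (dist x y) l1 dist_nonneg le_rfl (by linarith) (by linarith)
    rw [hc1] at this
    rw [hp, this, abs_of_nonneg (by linarith)]
  have hyq : dist y q = dist x y - (l1 + R') := by
    have := hc (dist x y) (l1 + R') dist_nonneg le_rfl (by linarith) (by linarith)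
    rw [hc1] at this
    rw [hq, this, abs_of_nonneg (by linarith)]
  have hgy : ∀ s ∈ S, dist y (ρ (g s) y) ≤ D := by
    intro s hs
    have : ρ (g s) y = ρ b (ρ (g s) x) := by
      rw [hy, ← IsometryEquiv.mul_apply, ← IsometryEquiv.mul_apply, ← map_mul, ← map_mul,
        hcomm _ (hgA s) _ hbA]
    rw [this, hy, IsometryEquiv.dist_eq]
    exact hgD s hs
  -- image points lie near the geodesic
  have near : ∀ s ∈ S, ∀ w : X, dist x w + dist y w = dist x y → l1 ≤ dist x w → l1 ≤ dist y w →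
      dist x (ρ (g s) w) + dist y (ρ (g s) w) ≤ dist x y + 4 * δ := by
    intro s hs w hw h1 h2
    have e1 : dist (ρ (g s) x) (ρ (g s) w) = dist x w := IsometryEquiv.dist_eq _ _ _
    have e2 : dist (ρ (g s) y) (ρ (g s) w) = dist y w := IsometryEquiv.dist_eq _ _ _
    have e3 : dist (ρ (g s) x) (ρ (g s) y) = dist x y := IsometryEquiv.dist_eq _ _ _
    have a1 := hhyp.side (x := x) (x' := ρ (g s) x) (y := ρ (g s) y) (w := ρ (g s) w) (D := D)
      (η := 0) (by linarith) (hgD s hs) (by linarith)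
    have a2 := hhyp.side (x := y) (x' := ρ (g s) y) (y := x) (w := ρ (g s) w) (D := D)
      (η := 2 * δ) (by rw [dist_comm (ρ (g s) y) x]; linarith) (hgy s hs) (by linarith)
    rw [dist_comm y x] at a2
    linarith
  have hqp : ∀ s ∈ S, dist x (ρ (g s) p) + R' - 2 * δ ≤ dist x (ρ (g s) q) ∧
      dist x (ρ (g s) q) ≤ dist x (ρ (g s) p) + R' := by
    intro s hs
    have e1 : dist (ρ (g s) x) (ρ (g s) p) = dist x p := IsometryEquiv.dist_eq _ _ _
    have e2 : dist (ρ (g s) q) (ρ (g s) p) = dist q p := IsometryEquiv.dist_eq _ _ _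
    have e3 : dist (ρ (g s) x) (ρ (g s) q) = dist x q := IsometryEquiv.dist_eq _ _ _
    have e4 := dist_comm p q
    have a1 := hhyp.side (x := x) (x' := ρ (g s) x) (y := ρ (g s) q) (w := ρ (g s) p) (D := D)
      (η := 0) (by linarith) (hgD s hs) (by linarith)
    have t := dist_triangle x (ρ (g s) p) (ρ (g s) q)
    rw [dist_comm (ρ (g s) p) (ρ (g s) q)] at t
    constructor <;> linarith
  set f : ℕ × ℕ → ℝ := fun s => dist x (ρ (g s) p) - (l1 - D) with hf
  have hf0 : ∀ s ∈ S, 0 ≤ f s ∧ f s ≤ 2 * D := by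
    intro s hs
    have e1 : dist (ρ (g s) x) (ρ (g s) p) = dist x p := IsometryEquiv.dist_eq _ _ _
    have t1 := dist_triangle x (ρ (g s) x) (ρ (g s) p)
    have t2 := dist_triangle (ρ (g s) x) x (ρ (g s) p)
    rw [dist_comm (ρ (g s) x) x] at t2
    have := hgD s hs
    simp only [hf]
    constructor <;> linarith
  have hmaps : ∀ s ∈ S, ⌊f s⌋₊ ∈ Finset.range (4 * n * D0 + 1) := by
    intro s hs
    rw [Finset.mem_range, Nat.lt_succ_iff]
    apply Nat.floor_le_of_le
    have := (hf0 s hs).2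
    push_cast
    linarith
  have hcard : (Finset.range (4 * n * D0 + 1)).card * N < S.card := by
    rw [hS, Finset.card_product, Finset.card_range, Finset.card_range]
    have h1 : 1 ≤ n := by omega
    have : (4 * n * D0 + 1) * N ≤ n * (N * (4 * D0 + 1)) := by nlinarith
    have h2 : n * (N * (4 * D0 + 1)) < n * n := by
      apply Nat.mul_lt_mul_of_pos_left _ (by omega)
      omega
    omega
  obtain ⟨j, -, hj⟩ := Finset.exists_lt_card_fiber_of_mul_lt_card_of_maps_to hmaps hcard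
  set T := S.filter (fun s => ⌊f s⌋₊ = j) with hT
  obtain ⟨s0, hs0⟩ : T.Nonempty := Finset.card_pos.mp (by omega)
  have hsub : ((T.image (fun s => (g s0)⁻¹ * g s) : Finset G) : Set G) ⊆
      {g : G | dist p (ρ g p) ≤ 8 * δ + 1 ∧ dist q (ρ g q) ≤ 8 * δ + 1} := by
    intro z hz
    rw [Finset.coe_image] at hz
    obtain ⟨s, hs, rfl⟩ := hz
    rw [Finset.mem_coe, hT, Finset.mem_filter] at hs
    rw [hT, Finset.mem_filter] at hs0
    have b1 := Nat.floor_le (hf0 s hs.1).1
    have b2 := Nat.lt_floor_add_one (f s)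
    have b3 := Nat.floor_le (hf0 s0 hs0.1).1
    have b4 := Nat.lt_floor_add_one (f s0)
    rw [hs.2] at b1 b2
    rw [hs0.2] at b3 b4
    simp only [hf] at b1 b2 b3 b4
    have n1 := near s hs.1 p (by linarith) (by linarith) (by linarith)
    have n2 := near s0 hs0.1 p (by linarith) (by linarith) (by linarith)
    have n3 := near s hs.1 q (by linarith) (by linarith) (by linarith)
    have n4 := near s0 hs0.1 q (by linarith) (by linarith) (by linarith)
    have q1 := hqp s hs.1
    have q2 := hqp s0 hs0.1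
    refine ⟨?_, ?_⟩
    · rw [dist_inv_mul]
      have := hhyp.close (θ := 1) n2 n1 (by rw [abs_le]; constructor <;> linarith)
      linarith
    · rw [dist_inv_mul]
      have := hhyp.close (θ := 1 + 2 * δ) n4 n3
        (by rw [abs_le]; constructor <;> linarith [q1.1, q1.2, q2.1, q2.2])
      linarith
  have hle := (Set.encard_le_encard hsub).trans
    (hRN p q (by rw [hpq]; exact le_max_left _ _))
  rw [Set.encard_coe_eq_coe_finsetCard, Finset.card_image_of_injective] at hle
  · have : T.card ≤ N := by exact_mod_cast hle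
    omega
  · intro s s' h
    exact hinj (mul_left_cancel h)

/-- If such an abelian subgroup is moreover s-normal, all orbits are bounded. -/
theorem bounded_of_snormal (ρ : G →* (X ≃ᵢ X)) {δ : ℝ} (hgeo : Geo X) (hhyp : Hyp X δ)
    (hac : Acyl ρ) (A : Subgroup G) (hcomm : ∀ a ∈ A, ∀ b ∈ A, a * b = b * a)
    {u v : G} (hu : u ∈ A) (hv : v ∈ A)
    (hinj : Function.Injective (fun s : ℕ × ℕ => u ^ s.1 * v ^ s.2))
    (hs : ∀ g : G, {a : G | a ∈ A ∧ g⁻¹ * a * g ∈ A}.Infinite) (x : X) :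
    ∃ B : ℝ, ∀ g : G, dist x (ρ g x) ≤ B := by
  obtain ⟨D, hD⟩ := bounded_of_abelian ρ hgeo hhyp hac A hcomm hu hv hinj x
  obtain ⟨R, N, hRN⟩ := hac (max D 1) (lt_of_lt_of_le one_pos (le_max_right _ _))
  refine ⟨R, fun g => ?_⟩
  by_contra h
  push Not at h
  have h1 := hRN x (ρ g x) h.le
  have hsub : {a : G | a ∈ A ∧ g⁻¹ * a * g ∈ A} ⊆
      {a : G | dist x (ρ a x) ≤ max D 1 ∧ dist (ρ g x) (ρ a (ρ g x)) ≤ max D 1} := by
    intro a ha
    refine ⟨(hD a ha.1).trans (le_max_left _ _), ?_⟩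
    have := hD _ ha.2
    rw [mul_assoc, dist_inv_mul, map_mul, IsometryEquiv.mul_apply] at this
    exact this.trans (le_max_left _ _)
  have h2 := (Set.encard_le_encard hsub).trans h1
  rw [(hs g).encard_eq] at h2
  exact absurd h2 (by simp)

end Acyl

end Pool.Agent.Lib.MP_fdd6ec_al.U
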