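import Pool.Agent.Lib.MP_fdd6ec_al.BDefs
import Pool.Agent.Lib.MP_fdd6ec_al.BAcyl

set_option autoImplicit false

open scoped NNReal
open Filter

namespace Pool.Agent.Lib.MP_fdd6ec_al.B

universe u

section AH

variable {X : Type u} [MetricSpace X]

theorem IsSegment.between {x y : X} {I : Set X} (h : IsSegment x y I) {p : X} (hp : p ∈ I) :
    dist x p + dist p y = dist x y := by
  obtain ⟨c, h0, h1, hc, rfl⟩ := h
  obtain ⟨s, hs, rfl⟩ := hp
  have a := hc 0 ⟨le_rfl, dist_nonneg⟩ s hs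
  have b := hc s hs (dist x y) ⟨dist_nonneg, le_rfl⟩
  rw [h0] at a
  rw [h1] at b
  rw [a, b, abs_of_nonpos (by linarith [hs.1]), abs_of_nonpos (by linarith [hs.2])]
  ring

theorem IsSegment.point {x y : X} {I : Set X} (h : IsSegment x y I) {r : ℝ} (h0 : 0 ≤ r)
    (h1 : r ≤ dist x y) : ∃ p ∈ I, dist x p = r := by
  obtain ⟨c, e0, e1, hc, rfl⟩ := h
  refine ⟨c r, ⟨r, ⟨h0, h1⟩, rfl⟩, ?_⟩
  have a := hc 0 ⟨le_rfl, dist_nonneg⟩ r ⟨h0, h1⟩
  rw [e0] at a
  rw [a, abs_of_nonpos (by linarith)]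
  ring

theorem four_point (h : GeodesicHyperbolic X) : ∃ δ : ℝ, U.Hyp X δ := by
  obtain ⟨hg, δ, hs | h4⟩ := h
  swap
  · exact ⟨δ, fun x y z w => h4 w x y z⟩
  have slim : ∀ (x y z : X) (I J K : Set X), IsSegment x y I → IsSegment y z J →
      IsSegment z x K → ∀ p ∈ I, ∃ q ∈ J ∪ K, dist p q < δ + 1 := by
    intro x y z I J K hI hJ hK p hp
    obtain ⟨q, hq, -⟩ := hJ.point le_rfl dist_nonneg
    exact (Metric.infDist_lt_iff ⟨q, Or.inl hq⟩).mp (by linarith [hs x y z I J K hI hJ hK p hp])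
  refine ⟨4 * δ + 4, fun x y z w => ?_⟩
  obtain ⟨I, hI⟩ := hg w x
  obtain ⟨J, hJ⟩ := hg x y
  obtain ⟨K, hK⟩ := hg y w
  obtain ⟨L, hL⟩ := hg y z
  obtain ⟨N, hN⟩ := hg z x
  have hδ : 0 < δ + 1 := by
    obtain ⟨p, hp, -⟩ := hI.point le_rfl dist_nonneg
    obtain ⟨q, -, hq⟩ := slim _ _ _ _ _ _ hI hJ hK p hp
    exact lt_of_le_of_lt dist_nonneg hq
  have exw := dist_comm x w
  have eyw := dist_comm y w
  have txy := dist_triangle x y w
  have hm : ∃ m ∈ J, dist w m ≤ (dist x w + dist y w - dist x y) / 2 + 3 * δ + 3 := by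
    have tr := dist_triangle x w y
    by_cases hr : (dist x w + dist y w - dist x y) / 2 + 2 * δ + 2 ≤ dist w x
    · obtain ⟨p, hp, hd⟩ := hI.point (by linarith) hr
      obtain ⟨q, hq | hq, hpq⟩ := slim _ _ _ _ _ _ hI hJ hK p hp
      · exact ⟨q, hq, by linarith [dist_triangle w p q]⟩
      · exfalso
        have b1 := hI.between hp
        have b2 := hK.between hq
        have t1 := dist_triangle4 x p q y
        have t2 := dist_triangle w q p
        linarith [dist_comm x p, dist_comm q y, dist_comm q w, dist_comm p q]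
    · obtain ⟨m, hm, hd⟩ := hJ.point le_rfl dist_nonneg
      rw [dist_eq_zero] at hd
      exact ⟨m, hm, by rw [← hd]; linarith⟩
  obtain ⟨m, hm, hwm⟩ := hm
  obtain ⟨q, hq | hq, hmq⟩ := slim _ _ _ _ _ _ hJ hL hN m hm
  · have b := hL.between hq
    have := min_le_right ((dist x w + dist z w - dist x z) / 2)
      ((dist y w + dist z w - dist y z) / 2)
    linarith [dist_triangle y q w, dist_triangle z q w, dist_triangle w m q, dist_comm q w,
      dist_comm q z]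
  · have b := hN.between hq
    have := min_le_left ((dist x w + dist z w - dist x z) / 2)
      ((dist y w + dist z w - dist y z) / 2)
    linarith [dist_triangle x q w, dist_triangle z q w, dist_triangle w m q, dist_comm q w,
      dist_comm q x, dist_comm x z]

theorem geo_of (h : GeodesicHyperbolic X) : U.Geo X := by
  intro x y
  obtain ⟨I, c, h0, h1, hc, -⟩ := h.1 x y
  exact ⟨c, h0, h1, fun s t a b d e => hc s ⟨a, b⟩ t ⟨d, e⟩⟩

theorem limitSet_empty {G : Type} [Group G] (ρ : G →* (X ≃ᵢ X)) (o : X) {B : ℝ}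
    (hB : ∀ g : G, dist o (ρ g o) ≤ B) : limitSet ρ o = ∅ := by
  rw [Set.eq_empty_iff_forall_notMem]
  rintro _ ⟨x, -, hx⟩
  obtain ⟨p, hp⟩ := (x.2.eventually (eventually_gt_atTop B)).exists
  obtain ⟨g, hg⟩ := hx p.1
  obtain ⟨k, hk⟩ := hx p.2
  rw [hg, hk, gp] at hp
  linarith [hB g, hB k, dist_comm o (ρ g o), dist_comm o (ρ k o),
    dist_nonneg (x := ρ g o) (y := ρ k o)]

end AH

/-- A discrete geodesic ray whose steps are joined by paths extends to a geodesic ray. -/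
theorem exists_ray {Y : Type} [MetricSpace Y] (V : ℕ → Y)
    (hV : ∀ j k : ℕ, dist (V j) (V k) = |(j : ℝ) - k|) (E : ℕ → ℝ → Y)
    (h0 : ∀ k, E k 0 = V k) (h1 : ∀ k, E k 1 = V (k + 1))
    (hE : ∀ k σ τ, dist (E k σ) (E k τ) ≤ |σ - τ|) :
    ∃ γ : ℝ≥0 → Y, Isometry γ ∧ (∀ k : ℕ, γ k = V k) ∧ ∀ t, ∃ k, dist (γ t) (V k) ≤ 1 := by
  set γ : ℝ≥0 → Y := fun t => E ⌊(t : ℝ)⌋₊ (t - ⌊(t : ℝ)⌋₊) with hγ
  have f1 : ∀ t : ℝ≥0, (⌊(t : ℝ)⌋₊ : ℝ) ≤ t := fun t => Nat.floor_le t.2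
  have f2 : ∀ t : ℝ≥0, (t : ℝ) < ⌊(t : ℝ)⌋₊ + 1 := fun t => Nat.lt_floor_add_one _
  have a0 : ∀ t : ℝ≥0, dist (γ t) (V ⌊(t : ℝ)⌋₊) ≤ t - ⌊(t : ℝ)⌋₊ := by
    intro t
    have := hE ⌊(t : ℝ)⌋₊ (t - ⌊(t : ℝ)⌋₊) 0
    rwa [h0, sub_zero, abs_of_nonneg (by linarith [f1 t])] at this
  have a1 : ∀ t : ℝ≥0, dist (γ t) (V (⌊(t : ℝ)⌋₊ + 1)) ≤ ⌊(t : ℝ)⌋₊ + 1 - t := by
    intro t
    have := hE ⌊(t : ℝ)⌋₊ (t - ⌊(t : ℝ)⌋₊) 1
    rw [h1, abs_of_nonpos (by linarith [f2 t])] at this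
    simp only [hγ]
    linarith
  have key : ∀ s t : ℝ≥0, s ≤ t → dist (γ s) (γ t) = (t : ℝ) - s := by
    intro s t hst
    have hst' : (s : ℝ) ≤ t := hst
    have hf : ⌊(s : ℝ)⌋₊ ≤ ⌊(t : ℝ)⌋₊ := Nat.floor_le_floor hst'
    apply le_antisymm
    · rcases hf.eq_or_lt with e | l
      · have := hE ⌊(t : ℝ)⌋₊ (s - ⌊(t : ℝ)⌋₊) (t - ⌊(t : ℝ)⌋₊)
        rw [abs_of_nonpos (by linarith)] at this
        simp only [hγ]
        rw [e]
        linarith
      · have l' : ((⌊(s : ℝ)⌋₊ + 1 : ℕ) : ℝ) ≤ ⌊(t : ℝ)⌋₊ := by exact_mod_cast l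
        have e := hV (⌊(s : ℝ)⌋₊ + 1) ⌊(t : ℝ)⌋₊
        rw [abs_of_nonpos (by linarith)] at e
        push_cast at e
        linarith [dist_triangle4 (γ s) (V (⌊(s : ℝ)⌋₊ + 1)) (V ⌊(t : ℝ)⌋₊) (γ t), a1 s, a0 t,
          dist_comm (γ t) (V ⌊(t : ℝ)⌋₊)]
    · have l' : ((⌊(s : ℝ)⌋₊ : ℕ) : ℝ) ≤ (⌊(t : ℝ)⌋₊ + 1 : ℕ) := by
        exact_mod_cast Nat.le_succ_of_le hf
      have e := hV ⌊(s : ℝ)⌋₊ (⌊(t : ℝ)⌋₊ + 1)
      rw [abs_of_nonpos (by linarith)] at e
      push_cast at e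
      linarith [dist_triangle4 (V ⌊(s : ℝ)⌋₊) (γ s) (γ t) (V (⌊(t : ℝ)⌋₊ + 1)), a0 s, a1 t,
        dist_comm (γ s) (V ⌊(s : ℝ)⌋₊)]
  refine ⟨γ, Isometry.of_dist_eq fun s t => ?_, fun k => by simp [hγ, h0], fun t =>
    ⟨_, (a0 t).trans (by linarith [f2 t])⟩⟩
  rw [NNReal.dist_eq]
  rcases le_total s t with h | h
  · have h' : (s : ℝ) ≤ t := h
    rw [key s t h, abs_of_nonpos (by linarith)]; ring
  · have h' : (t : ℝ) ≤ s := h
    rw [dist_comm, key t s h, abs_of_nonneg (by linarith)]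

section Cayley

variable {G : Type} [Group G] {S : Set G} (hS : Subgroup.closure S = ⊤)

noncomputable def pt (p : G ⊕ (G × S × unitInterval)) : Cay S hS :=
  SeparationQuotient.mk (X := Pt S hS) p

theorem dist_pt (p q : G ⊕ (G × S × unitInterval)) :
    dist (pt hS p) (pt hS q) = sInf {l : ℝ | Path S p q l} := rfl

theorem dist_le {p q : G ⊕ (G × S × unitInterval)} {l : ℝ} (h : Path S p q l) :
    dist (pt hS p) (pt hS q) ≤ l :=
  csInf_le ⟨0, fun _ h => Path.nonneg h⟩ h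

theorem vtx_eq (g : G) : vtx S hS g = pt hS (Sum.inl g) := rfl

theorem near_vtx (y : Cay S hS) : ∃ g, dist y (vtx S hS g) ≤ 1 := by
  obtain ⟨p, rfl⟩ := SeparationQuotient.surjective_mk (X := Pt S hS) y
  rcases p with g | ⟨g, s, τ⟩
  · exact ⟨g, (dist_le hS (Path.refl _)).trans zero_le_one⟩
  · refine ⟨g, (dist_le hS ((Path.edge g s τ 0).trans (Path.start g s).symm)).trans ?_⟩
    have := τ.2
    simp only [Set.Icc.coe_zero, sub_zero, add_zero]
    rw [abs_of_nonneg this.1]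
    exact this.2

theorem lip (f : G → ℝ) {c : ℝ} (hc : 0 < c) (hf : ∀ g, ∀ s ∈ S, |f (g * s) - f g| ≤ c)
    (g h : G) : |f g - f h| ≤ c * dist (vtx S hS g) (vtx S hS h) := by
  let F : G ⊕ (G × S × unitInterval) → ℝ :=
    Sum.elim f fun p => f p.1 + (p.2.2 : ℝ) * (f (p.1 * p.2.1) - f p.1)
  have key : ∀ p q l, Path S p q l → |F p - F q| ≤ c * l := by
    intro p q l h
    induction h with
    | refl => simp
    | edge g s σ τ =>
      have e : F (Sum.inr (g, s, σ)) - F (Sum.inr (g, s, τ)) =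
          (f (g * s) - f g) * ((σ : ℝ) - τ) := by
        simp only [F, Sum.elim_inr]; ring
      rw [e, abs_mul]
      exact mul_le_mul_of_nonneg_right (hf g s s.2) (abs_nonneg _)
    | start g s => simp [F]
    | stop g s => simp [F]
    | symm _ ih => rwa [abs_sub_comm]
    | trans _ _ ih ih' => exact (abs_sub_le _ _ _).trans (by linarith)
  rw [vtx_eq, vtx_eq, dist_pt, ← div_le_iff₀' hc]
  refine le_csInf (path_exists hS _ _) fun l hl => ?_
  rw [div_le_iff₀' hc]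
  exact key _ _ _ hl

def ev (x : S × Bool) : G := cond x.2 (x.1 : G) (x.1 : G)⁻¹

theorem exists_edge (g : G) (x : S × Bool) : ∃ E : ℝ → Cay S hS, E 0 = vtx S hS g ∧
    E 1 = vtx S hS (g * ev x) ∧ ∀ σ τ, dist (E σ) (E τ) ≤ |σ - τ| := by
  have key : ∀ (g : G) (s : S), ∃ E : ℝ → Cay S hS, E 0 = vtx S hS g ∧
      E 1 = vtx S hS (g * s) ∧ ∀ σ τ, dist (E σ) (E τ) ≤ |σ - τ| := by
    intro g s
    refine ⟨fun t => pt hS (Sum.inr (g, s, Set.projIcc 0 1 zero_le_one t)), ?_, ?_, fun σ τ =>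
      (dist_le hS (Path.edge g s _ _)).trans (Set.abs_projIcc_sub_projIcc _)⟩
    · rw [← dist_le_zero, vtx_eq]
      simpa using dist_le hS (Path.start g s).symm
    · rw [← dist_le_zero, vtx_eq]
      simpa using dist_le hS (Path.stop g s).symm
  rcases x with ⟨s, _ | _⟩
  · obtain ⟨E, h0, h1, h⟩ := key (g * (s : G)⁻¹) s
    refine ⟨fun t => E (1 - t), by simpa using h1, by simpa [ev] using h0, fun σ τ => ?_⟩
    have := h (1 - σ) (1 - τ)
    rwa [show 1 - σ - (1 - τ) = τ - σ by ring, abs_sub_comm] at this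
  · exact key g s

theorem dist_step (g : G) (x : S × Bool) : dist (vtx S hS g) (vtx S hS (g * ev x)) ≤ 1 := by
  obtain ⟨E, h0, h1, h⟩ := exists_edge hS g x
  simpa [h0, h1] using h 0 1

/-- The product of the first `k` letters of an infinite word. -/
def wd (ω : ℕ → S × Bool) : ℕ → G
  | 0 => 1
  | k + 1 => wd ω k * ev (ω k)

theorem wd_congr {ω ω' : ℕ → S × Bool} {k : ℕ} (h : ∀ r < k, ω r = ω' r) : wd ω k = wd ω' k := by
  induction k with
  | zero => rfl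
  | succ k ih => rw [wd, wd, ih fun r hr => h r (by omega), h k (by omega)]

theorem dist_wd (g : G) (ω : ℕ → S × Bool) {j k : ℕ} (h : j ≤ k) :
    dist (vtx S hS (g * wd ω j)) (vtx S hS (g * wd ω k)) ≤ (k : ℝ) - j := by
  induction k, h using Nat.le_induction with
  | base => simp
  | succ m _ ih =>
    have := dist_step hS (g * wd ω m) (ω m)
    rw [wd, ← mul_assoc]
    push_cast
    linarith [dist_triangle (vtx S hS (g * wd ω j)) (vtx S hS (g * wd ω m))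
      (vtx S hS (g * wd ω m * ev (ω m)))]

theorem wd_step {g : G} {k : ℕ} (h : ∃ ω : ℕ → S × Bool, wd ω k = g) (x : S × Bool) :
    ∃ ω : ℕ → S × Bool, wd ω (k + 1) = g * ev x := by
  obtain ⟨ω, rfl⟩ := h
  refine ⟨Function.update ω k x, ?_⟩
  rw [wd, Function.update_self, wd_congr (ω' := ω)]
  intro r hr
  exact Function.update_of_ne hr.ne _ _

include hS in
/-- Every element is the end of a geodesic word. -/
theorem exists_geodesic [Nonempty S] (g : G) : ∃ (ω : ℕ → S × Bool) (m : ℕ), wd ω m = g ∧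
    ∀ j k, j ≤ m → k ≤ m → dist (vtx S hS (wd ω j)) (vtx S hS (wd ω k)) = |(j : ℝ) - k| := by
  have ex : ∀ g : G, {k | ∃ ω : ℕ → S × Bool, wd ω k = g}.Nonempty := by
    intro g
    have hg : g ∈ Subgroup.closure S := by rw [hS]; trivial
    induction hg using Subgroup.closure_induction_right with
    | one => exact ⟨0, fun _ => Classical.arbitrary _, rfl⟩
    | mul_right x _ y hy ih => exact ⟨_, wd_step ih.choose_spec (⟨y, hy⟩, true)⟩
    | mul_inv_cancel x _ y hy ih => exact ⟨_, wd_step ih.choose_spec (⟨y, hy⟩, false)⟩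
  let wl : G → ℕ := fun g => sInf {k | ∃ ω : ℕ → S × Bool, wd ω k = g}
  have st : ∀ g x, wl (g * ev x) ≤ wl g + 1 := fun g x =>
    Nat.sInf_le (wd_step (Nat.sInf_mem (ex g)) x)
  have hl := lip hS (fun g => (wl g : ℝ)) one_pos (fun g s hs => by
    have a : (wl (g * s) : ℝ) ≤ wl g + 1 := by exact_mod_cast st g (⟨s, hs⟩, true)
    have b : (wl g : ℝ) ≤ wl (g * s) + 1 := by
      have := st (g * s) (⟨s, hs⟩, false)
      rw [show g * s * ev ((⟨s, hs⟩, false) : S × Bool) = g by simp [ev]] at this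
      exact_mod_cast this
    rw [abs_le]; constructor <;> linarith) g 1
  have w1 : wl 1 = 0 := Nat.sInf_eq_zero.mpr (Or.inl ⟨fun _ => Classical.arbitrary _, rfl⟩)
  obtain ⟨ω, hω⟩ := Nat.sInf_mem (ex g)
  refine ⟨ω, wl g, hω, ?_⟩
  have key : ∀ j k, j ≤ k → k ≤ wl g →
      dist (vtx S hS (wd ω j)) (vtx S hS (wd ω k)) = (k : ℝ) - j := by
    intro j k hjk hk
    have a := dist_wd hS 1 ω hjk
    have b := dist_wd hS 1 ω (Nat.zero_le j)
    have c := dist_wd hS 1 ω hk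
    simp only [one_mul] at a b c hl
    rw [show wd ω (wl g) = g from hω] at c
    rw [w1, dist_comm] at hl
    simp only [wd, Nat.cast_zero, sub_zero, Nat.abs_cast] at b hl
    linarith [dist_triangle4 (vtx S hS 1) (vtx S hS (wd ω j)) (vtx S hS (wd ω k)) (vtx S hS g)]
  intro j k hj hk
  rcases le_total j k with h | h
  · have h' : (j : ℝ) ≤ k := by exact_mod_cast h
    rw [key j k h hk, abs_of_nonpos (by linarith)]; ring
  · have h' : (k : ℝ) ≤ j := by exact_mod_cast h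
    rw [dist_comm, key k j h hj, abs_of_nonneg (by linarith)]

end Cayley

end Pool.Agent.Lib.MP_fdd6ec_al.B
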