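import Mathlib

set_option autoImplicit false

open scoped NNReal
open Filter

namespace Pool.Agent.Lib.MP_fdd6ec_al.B

universe u

/-! ### The metric Cayley graph -/

section Cayley

variable {G : Type} [Group G]

/-- `Path S p q l`: there is a piecewise linear path of length `l` from `p` to `q` in the graph with
vertex set `G` and, for every `g : G` and `s : S`, one edge `{g} × {s} × [0,1]` whose end `0` is
glued to the vertex `g` and whose end `1` is glued to the vertex `g * s`. -/
inductive Path (S : Set G) :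
    G ⊕ (G × S × unitInterval) → G ⊕ (G × S × unitInterval) → ℝ → Prop
  | refl (p : G ⊕ (G × S × unitInterval)) : Path S p p 0
  | edge (g : G) (s : S) (σ τ : unitInterval) :
      Path S (Sum.inr (g, s, σ)) (Sum.inr (g, s, τ)) |(σ : ℝ) - τ|
  | start (g : G) (s : S) : Path S (Sum.inl g) (Sum.inr (g, s, 0)) 0
  | stop (g : G) (s : S) : Path S (Sum.inl (g * s)) (Sum.inr (g, s, 1)) 0
  | symm {p q : G ⊕ (G × S × unitInterval)} {l : ℝ} : Path S p q l → Path S q p l
  | trans {p q r : G ⊕ (G × S × unitInterval)} {l l' : ℝ} :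
      Path S p q l → Path S q r l' → Path S p r (l + l')

theorem Path.nonneg {S : Set G} {p q : G ⊕ (G × S × unitInterval)} {l : ℝ}
    (h : Path S p q l) : 0 ≤ l := by
  induction h with
  | refl => exact le_rfl
  | edge => exact abs_nonneg _
  | start => exact le_rfl
  | stop => exact le_rfl
  | symm _ ih => exact ih
  | trans _ _ ih ih' => exact add_nonneg ih ih'

theorem path_exists {S : Set G} (hS : Subgroup.closure S = ⊤)
    (p q : G ⊕ (G × S × unitInterval)) : ∃ l, Path S p q l := by
  have step : ∀ (x : G) (s : S), ∃ l, Path S (Sum.inl x) (Sum.inl (x * s)) l := fun x s =>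
    ⟨_, ((Path.start x s).trans (Path.edge x s 0 1)).trans (Path.stop x s).symm⟩
  have vv : ∀ g : G, ∃ l, Path S (Sum.inl 1) (Sum.inl g) l := by
    intro g
    have hg : g ∈ Subgroup.closure S := by rw [hS]; trivial
    induction hg using Subgroup.closure_induction_right with
    | one => exact ⟨_, Path.refl _⟩
    | mul_right x _ y hy ih =>
      obtain ⟨l, h⟩ := ih
      obtain ⟨l', h'⟩ := step x ⟨y, hy⟩
      exact ⟨_, h.trans h'⟩
    | mul_inv_cancel x _ y hy ih =>
      obtain ⟨l, h⟩ := ih
      obtain ⟨l', h'⟩ := step (x * y⁻¹) ⟨y, hy⟩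
      rw [show x * y⁻¹ * ((⟨y, hy⟩ : S) : G) = x by simp] at h'
      exact ⟨_, h.trans h'.symm⟩
  have v1 : ∀ p : G ⊕ (G × S × unitInterval), ∃ l, Path S (Sum.inl 1) p l := by
    rintro (g | ⟨g, s, τ⟩)
    · exact vv g
    · obtain ⟨l, h⟩ := vv g
      exact ⟨_, (h.trans (Path.start g s)).trans (Path.edge g s 0 τ)⟩
  obtain ⟨l, h⟩ := v1 p
  obtain ⟨l', h'⟩ := v1 q
  exact ⟨_, h.symm.trans h'⟩

/-- Vertices and points of edges, before the gluing. -/
def Pt (S : Set G) (_hS : Subgroup.closure S = ⊤) : Type := G ⊕ (G × S × unitInterval)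

/-- The distance of two points is the infimum of the lengths of the paths joining them. -/
noncomputable instance instPt (S : Set G) (hS : Subgroup.closure S = ⊤) :
    PseudoMetricSpace (Pt S hS) where
  dist p q := sInf {l : ℝ | Path S p q l}
  dist_self p := le_antisymm (csInf_le ⟨0, fun _ h => Path.nonneg h⟩ (Path.refl _))
    (le_csInf (path_exists hS p p) fun _ h => Path.nonneg h)
  dist_comm p q := by
    congr 1
    ext l
    exact ⟨fun h => Path.symm h, fun h => Path.symm h⟩
  dist_triangle p q r := by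
    refine le_of_forall_pos_le_add fun ε hε => ?_
    obtain ⟨l, h, hl⟩ := exists_lt_of_csInf_lt (path_exists hS p q)
      (lt_add_of_pos_right (sInf {l : ℝ | Path S p q l}) (half_pos hε))
    obtain ⟨l', h', hl'⟩ := exists_lt_of_csInf_lt (path_exists hS q r)
      (lt_add_of_pos_right (sInf {l : ℝ | Path S q r l}) (half_pos hε))
    have : sInf {l : ℝ | Path S p r l} ≤ l + l' :=
      csInf_le ⟨0, fun _ h => Path.nonneg h⟩ (Path.trans h h')
    linarith

/-- The metric Cayley graph of `G` with respect to the generating set `S`: points at distance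
zero (an end of an edge and the vertex it is glued to) are identified. -/
def Cay (S : Set G) (hS : Subgroup.closure S = ⊤) : Type := SeparationQuotient (Pt S hS)

noncomputable instance instCay (S : Set G) (hS : Subgroup.closure S = ⊤) :
    MetricSpace (Cay S hS) :=
  inferInstanceAs (MetricSpace (SeparationQuotient (Pt S hS)))

/-- The vertex `g` of the Cayley graph. -/
noncomputable def vtx (S : Set G) (hS : Subgroup.closure S = ⊤) (g : G) : Cay S hS :=
  SeparationQuotient.mk (Sum.inl g : Pt S hS)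

end Cayley

/-! ### The Morse boundary, as a set -/

section Morse

variable {Y : Type} [MetricSpace Y]

/-- `q` restricted to `[a,b]` is a `(K,C)`-quasi-geodesic (no continuity is required). -/
def QuasiGeodesic (K C a b : ℝ) (q : ℝ → Y) : Prop :=
  ∀ s ∈ Set.Icc a b, ∀ t ∈ Set.Icc a b,
    |s - t| / K - C ≤ dist (q s) (q t) ∧ dist (q s) (q t) ≤ K * |s - t| + C

/-- `γ` is `N`-Morse for some gauge `N`. -/
def IsMorse (γ : ℝ≥0 → Y) : Prop :=
  ∃ N : ℝ → ℝ → ℝ, ∀ K C : ℝ, 1 ≤ K → 0 ≤ C → ∀ (a b : ℝ) (q : ℝ → Y), a ≤ b →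
    QuasiGeodesic K C a b q → q a ∈ Set.range γ → q b ∈ Set.range γ →
    ∀ s ∈ Set.Icc a b, Metric.infDist (q s) (Set.range γ) ≤ N K C

/-- Morse geodesic rays from the base point `e`. -/
def MorseRay (e : Y) : Type := {γ : ℝ≥0 → Y // Isometry γ ∧ γ 0 = e ∧ IsMorse γ}

/-- Two rays are equivalent if their images are at finite Hausdorff distance. -/
def asymptotic (e : Y) : Setoid (MorseRay e) where
  r γ γ' := Metric.hausdorffEDist (Set.range γ.1) (Set.range γ'.1) ≠ ⊤
  iseqv := ⟨fun γ => by simp, fun h => by rwa [Metric.hausdorffEDist_comm],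
    fun h h' => ne_top_of_le_ne_top (ENNReal.add_ne_top.mpr ⟨h, h'⟩)
      Metric.hausdorffEDist_triangle⟩

/-- The Morse boundary with base point `e`. -/
def MorseBoundary (e : Y) : Type := Quotient (asymptotic e)

end Morse

/-! ### Acylindrical hyperbolicity -/

section AH

variable {X : Type u} [MetricSpace X]

/-- `I` is a geodesic segment from `x` to `y`. -/
def IsSegment (x y : X) (I : Set X) : Prop :=
  ∃ c : ℝ → X, c 0 = x ∧ c (dist x y) = y ∧
    (∀ s ∈ Set.Icc 0 (dist x y), ∀ t ∈ Set.Icc 0 (dist x y), dist (c s) (c t) = |s - t|) ∧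
    I = c '' Set.Icc 0 (dist x y)

/-- The Gromov product of `x` and `y` at `w`. -/
noncomputable def gp (w x y : X) : ℝ := (dist x w + dist y w - dist x y) / 2

/-- A geodesic space that is Gromov-hyperbolic in either of the two standard senses: slim
triangles or the four-point condition. -/
def GeodesicHyperbolic (X : Type u) [MetricSpace X] : Prop :=
  (∀ x y : X, ∃ I, IsSegment x y I) ∧ ∃ δ : ℝ,
    (∀ (x y z : X) (I J K : Set X), IsSegment x y I → IsSegment y z J → IsSegment z x K →
      ∀ p ∈ I, Metric.infDist p (J ∪ K) ≤ δ) ∨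
    (∀ w x y z : X, min (gp w x z) (gp w y z) - δ ≤ gp w x y)

/-- The Gromov boundary: sequences with `(x n | x m)_o → ∞`, modulo `(x n | y n)_o → ∞`. -/
def GromovBoundary (o : X) : Type u :=
  Quot fun x y : {x : ℕ → X // Tendsto (fun p : ℕ × ℕ => gp o (x p.1) (x p.2)) atTop atTop} =>
    Tendsto (fun n => gp o (x.1 n) (y.1 n)) atTop atTop

variable {G : Type} [Group G]

/-- The limit set of the orbit of `o`: boundary points represented by sequences in the orbit. -/
def limitSet (ρ : G →* (X ≃ᵢ X)) (o : X) : Set (GromovBoundary o) :=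
  {ξ | ∃ x, ξ = Quot.mk _ x ∧ ∀ n, ∃ g : G, x.1 n = ρ g o}

def Acylindrical (ρ : G →* (X ≃ᵢ X)) : Prop :=
  ∀ ε : ℝ, 0 < ε → ∃ (R : ℝ) (M : ℕ), ∀ x y : X, R ≤ dist x y →
    {g : G | dist x (ρ g x) ≤ ε ∧ dist y (ρ g y) ≤ ε}.encard ≤ M

/-- `G` has an acylindrical isometric action on a geodesic hyperbolic space whose limit set has
more than two points. -/
def AcylindricallyHyperbolic (G : Type) [Group G] : Prop :=
  ∃ (X : Type u) (_ : MetricSpace X) (ρ : G →* (X ≃ᵢ X)),
    GeodesicHyperbolic X ∧ Acylindrical ρ ∧ ∃ o : X, 2 < (limitSet ρ o).encard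

end AH

end Pool.Agent.Lib.MP_fdd6ec_al.B
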