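import Pool.Agent.Lib.MP_fdd6ec_al.Window

-- part Pool.Agent.Lib.MP_fdd6ec_al.HNN
section

set_option autoImplicit false

namespace Pool.Agent.Lib.MP_fdd6ec_al

open HNNExtension

noncomputable def th : io1.range ≃* io2.range :=
  (MonoidHom.ofInjective io1_inj).symm.trans (MonoidHom.ofInjective io2_inj)

abbrev GG : Type := HNNExtension G0 io1.range io2.range th

theorem th_apply (w : Wr) : (th ⟨io1 w, w, rfl⟩ : G0) = io2 w := by
  have : (MonoidHom.ofInjective io1_inj).symm ⟨io1 w, w, rfl⟩ = w := by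
    rw [MulEquiv.symm_apply_eq]; rfl
  simp only [th, MulEquiv.trans_apply, this]
  rfl

theorem y_mul (w : Wr) : (t : GG) * of (io1 w) = of (io2 w) * t := by
  rw [← th_apply]
  exact t_mul_of (φ := th) ⟨io1 w, w, rfl⟩

noncomputable def gen : Fin 5 → GG := ![of ga, of gb, of gs, of gt, t]

noncomputable def phi : FreeGroup (Fin 5) →* GG := FreeGroup.lift gen

def rels : Finset (FreeGroup (Fin 5)) :=
  (rel1 (FreeGroup.of 0) (FreeGroup.of 1) (FreeGroup.of 2) (FreeGroup.of 3)
    (FreeGroup.of 4)).toFinset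

theorem GG_gen (S : Subgroup GG) (h : ∀ i, gen i ∈ S) (x : GG) : x ∈ S := by
  induction x using HNNExtension.induction_on with
  | of g => exact G0_gen (S.comap of) (h 0) (h 1) (h 2) (h 3) g
  | t => exact h 4
  | mul x y hx hy => exact S.mul_mem hx hy
  | inv x hx => exact S.inv_mem hx

theorem phi_of (i : Fin 5) : phi (FreeGroup.of i) = gen i := FreeGroup.lift_apply_of

theorem phi_surj : Function.Surjective phi := fun x =>
  GG_gen phi.range (fun i => ⟨FreeGroup.of i, phi_of i⟩) x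

theorem r1_iff {Γ : Type} [Group Γ] {a b s u y : Γ} : (∀ r ∈ rel1 a b s u y, r = 1) ↔
    R0 a b s u ∧ y * s = u * y ∧ (y * kz a b (pp * 1) = u⁻¹ * kz a b (pb * 1) * u * y) ∧
      (y * kz a b (pp * ii) = u⁻¹ * kz a b (pb * ii) * u * y) := by
  simp only [rel1, List.mem_append, or_imp, forall_and, r0_iff, List.mem_cons, List.not_mem_nil,
    forall_eq, mul_inv_eq_iff_eq_mul]
  simp

theorem io1_zero (k : K) : io1 ⟨Finsupp.single 0 k, 0⟩ = kz ga gb (pp * k) := by
  simp [io1_single, kap]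

theorem io2_zero (k : K) : io2 ⟨Finsupp.single 0 k, 0⟩ = gt⁻¹ * kz ga gb (pb * k) * gt := by
  simp [io2_single, kap]

theorem r1_GG : ∀ r ∈ rel1 (gen 0) (gen 1) (gen 2) (gen 3) (gen 4), r = 1 := by
  rw [r1_iff]
  have h : ∀ k, (t : GG) * kz (of ga) (of gb) (pp * k) =
      (of gt)⁻¹ * kz (of ga) (of gb) (pb * k) * of gt * t := by
    intro k
    have := y_mul ⟨Finsupp.single 0 k, 0⟩
    rwa [io1_zero, io2_zero, map_mul, map_mul, map_inv, map_kz, map_kz] at this
  refine ⟨?_, ?_, h 1, h ii⟩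
  · rw [← r0_iff]
    intro r hr
    have e := map_rel0 (of : G0 →* GG) ga gb gs gt
    have hr' : r ∈ (rel0 ga gb gs gt).map (of : G0 →* GG) := by rw [e]; exact hr
    obtain ⟨x, hx, rfl⟩ := List.mem_map.mp hr'
    rw [r0_iff.mpr r0_G0 x hx, map_one]
  · have := y_mul ⟨0, 1⟩
    rwa [io1_T, io2_T, zpow_one, zpow_one] at this

theorem phi_ker : phi.ker = Subgroup.normalClosure (rels : Set (FreeGroup (Fin 5))) := by
  apply le_antisymm
  · let mk := PresentedGroup.mk (rels : Set (FreeGroup (Fin 5)))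
    have h1 : ∀ r ∈ rel1 (mk (FreeGroup.of 0)) (mk (FreeGroup.of 1)) (mk (FreeGroup.of 2))
        (mk (FreeGroup.of 3)) (mk (FreeGroup.of 4)), r = 1 := by
      intro r hr
      rw [← map_rel1] at hr
      obtain ⟨x, hx, rfl⟩ := List.mem_map.mp hr
      exact PresentedGroup.one_of_mem (by simpa [rels] using hx)
    obtain ⟨h2, h3, h4, h5⟩ := r1_iff.mp h1
    obtain ⟨F, Fa, Fb, Fs, Ft⟩ := exists_lift0 h2
    have hx : ∀ a : io1.range, mk (FreeGroup.of 4) * F a = F (th a : G0) * mk (FreeGroup.of 4) := by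
      rintro ⟨_, w, rfl⟩
      rw [th_apply, ← mul_inv_eq_iff_eq_mul]
      refine Wr.hom_ext (f := (MulAut.conj (mk (FreeGroup.of 4))).toMonoidHom.comp (F.comp io1))
        (g := F.comp io2) ?_ ?_ ?_ w
      all_goals
        simp only [MonoidHom.comp_apply, MulEquiv.coe_toMonoidHom, MulAut.conj_apply, io1_zero,
          io2_zero, io1_T, io2_T, zpow_one, map_mul, map_inv, map_kz F, Fa, Fb, Fs, Ft]
        rw [mul_inv_eq_iff_eq_mul]
        assumption
    have h6 : (HNNExtension.lift F _ hx).comp phi = mk := by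
      apply FreeGroup.ext_hom
      intro i
      rw [MonoidHom.comp_apply, phi_of]
      fin_cases i
      · exact (lift_of F _ hx ga).trans Fa
      · exact (lift_of F _ hx gb).trans Fb
      · exact (lift_of F _ hx gs).trans Fs
      · exact (lift_of F _ hx gt).trans Ft
      · exact lift_t F _ hx
    intro x hx'
    rw [MonoidHom.mem_ker] at hx'
    rw [← PresentedGroup.mk_eq_one_iff]
    change mk x = 1
    rw [← h6, MonoidHom.comp_apply, hx', map_one]
  · apply Subgroup.normalClosure_le_normal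
    intro r hr
    have hr' : r ∈ rel1 (FreeGroup.of (0 : Fin 5)) (FreeGroup.of 1) (FreeGroup.of 2)
      (FreeGroup.of 3) (FreeGroup.of 4) := by simpa [rels] using hr
    apply r1_GG
    simp only [← phi_of]
    rw [← map_rel1]
    exact List.mem_map.mpr ⟨r, hr', rfl⟩

/-! The abelian lamp subgroup is s-normal -/

noncomputable def lp (n : ℤ) (z : K) : GG := of (kap ga gb gs n z)

noncomputable def AA : Subgroup GG := Subgroup.closure {g | ∃ n z, g = lp n z}

theorem lp_mem (n : ℤ) (z : K) : lp n z ∈ AA := Subgroup.subset_closure ⟨n, z, rfl⟩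

theorem AA_comm : ∀ a ∈ AA, ∀ b ∈ AA, a * b = b * a := by
  have : IsMulCommutative AA := Subgroup.isMulCommutative_closure (k := {g | ∃ n z, g = lp n z}) (by
    rintro _ ⟨n, z, rfl⟩ _ ⟨m, z', rfl⟩
    exact ((r0_G0.kap_comm n m z z').map of).eq)
  intro a ha b hb
  exact setLike_mul_comm ha hb

theorem lp_inj (n : ℤ) : Function.Injective (lp n) := by
  intro z z' h
  have h1 := congrArg pi0 (of_injective th h)
  simp only [kap, map_mul, map_inv, pi0_kz, conj_lampM] at h1
  have := congrArg (fun x => Md.m x ((pi0 (gs ^ n)).σ (0, false))) h1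
  simpa [lampM] using this

theorem pow_pow_eq (i j : ℕ) : (lp 0 1) ^ i * (lp 0 ii) ^ j = lp 0 ⟨i, j⟩ := by
  simp [lp, kap, kz, ii]

theorem uv_inj : Function.Injective (fun s : ℕ × ℕ => (lp 0 1) ^ s.1 * (lp 0 ii) ^ s.2) := by
  intro s s' h
  simp only [pow_pow_eq] at h
  have := lp_inj 0 h
  simp only [Zsqrtd.mk.injEq, Nat.cast_inj] at this
  exact Prod.ext this.1 this.2

def Tl (g : GG) : Prop := ∃ (n : ℕ) (J c : ℤ), ∀ (m : ℕ) (j : ℤ) (z : K), J ≤ j →
  5 ^ (n + m) ∣ z → ∃ z', 5 ^ m ∣ z' ∧ g⁻¹ * lp j z * g = lp (j + c) z'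

theorem Tl.mul {g h : GG} (hg : Tl g) (hh : Tl h) : Tl (g * h) := by
  obtain ⟨n, J, c, hg⟩ := hg
  obtain ⟨n', J', c', hh⟩ := hh
  refine ⟨n + n', max J (J' - c), c + c', fun m j z hj hz => ?_⟩
  obtain ⟨z1, h1, h2⟩ := hg (n' + m) j z (by omega) (by rwa [← add_assoc])
  obtain ⟨z2, h3, h4⟩ := hh m (j + c) z1 (by omega) h1
  refine ⟨z2, h3, ?_⟩
  rw [← add_assoc, ← h4, ← h2]; group

theorem Tl.of_shift {g : G0} (J c : ℤ) (h : ∀ j z, J ≤ j →
    g⁻¹ * kap ga gb gs j z * g = kap ga gb gs (j + c) z) : Tl (of g) :=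
  ⟨0, J, c, fun m j z hj hz => ⟨z, by simpa using hz, by
    rw [lp, lp, ← h j z hj, map_mul, map_mul, map_inv]⟩⟩

theorem tl_all (g : GG) : Tl g := by
  let S : Subgroup GG :=
    { carrier := {g | Tl g ∧ Tl g⁻¹}
      mul_mem' := fun ha hb => ⟨ha.1.mul hb.1, by rw [mul_inv_rev]; exact hb.2.mul ha.2⟩
      one_mem' := by
        have : Tl 1 := ⟨0, 0, 0, fun m j z _ hz => ⟨z, by simpa using hz, by simp⟩⟩
        exact ⟨this, by rwa [inv_one]⟩
      inv_mem' := fun ha => ⟨ha.2, by rw [inv_inv]; exact ha.1⟩ }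
  have hk : ∀ z, Tl (of (kz ga gb z)) := by
    intro z0
    apply Tl.of_shift 0 0
    intro j z _
    have := (r0_G0.kap_comm j 0 z z0).eq
    simp only [kap, zpow_zero, one_mul, inv_one, mul_one] at this
    rw [add_zero, mul_assoc, kap, this]; group
  have hdiv : ∀ (m : ℕ) (z : K), 5 ^ (1 + m) ∣ z → ∃ k, z = pp * (pb * (5 ^ m * k)) := by
    rintro m _ ⟨k, rfl⟩
    exact ⟨k, by rw [← mul_assoc, pp_mul_pb]; ring⟩
  refine (GG_gen S (fun i => ?_) g).1
  fin_cases i
  · exact ⟨by simpa [kz, gen] using hk 1, by simpa [kz, gen] using hk (-1)⟩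
  · exact ⟨by simpa [kz, ii, gen] using hk ii, by simpa [kz, ii, gen] using hk (-ii)⟩
  · refine ⟨Tl.of_shift 0 (-1) fun j z _ => ?_, ?_⟩
    · simpa using kap_shift ga gb gs (-1) j z
    · change Tl (of gs)⁻¹
      rw [← map_inv]
      refine Tl.of_shift 0 1 fun j z _ => ?_
      simpa using kap_shift ga gb gs 1 j z
  · refine ⟨Tl.of_shift 1 (-1) fun j z _ => ?_, ?_⟩
    · rw [← r0_G0.kap_eq (by omega), ← r0_G0.kap_eq (n := j + -1) (by omega)]
      simpa using kap_shift ga gb gt (-1) j z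
    · change Tl (of gt)⁻¹
      rw [← map_inv]
      refine Tl.of_shift 0 1 fun j z _ => ?_
      rw [← r0_G0.kap_eq (by omega), ← r0_G0.kap_eq (n := j + 1) (by omega)]
      simpa using kap_shift ga gb gt 1 j z
  · refine ⟨⟨1, 0, 1, fun m j z hj hz => ?_⟩, ⟨1, 1, -1, fun m j z hj hz => ?_⟩⟩
    · obtain ⟨k, rfl⟩ := hdiv m z hz
      refine ⟨pp * (pp * (5 ^ m * k)), ⟨pp * pp * k, by ring⟩, ?_⟩
      have := y_mul ⟨Finsupp.single (j + 1) (pp * (5 ^ m * k)), 0⟩
      rw [io1_single, io2_single, add_sub_cancel_right, r0_G0.kap_eq hj] at this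
      change (t : GG)⁻¹ * _ * t = _
      rw [mul_left_comm pp pb, mul_assoc, lp, ← this, lp]; group
    · obtain ⟨k, rfl⟩ := hdiv m z hz
      refine ⟨pb * (pb * (5 ^ m * k)), ⟨pb * pb * k, by ring⟩, ?_⟩
      have := y_mul ⟨Finsupp.single j (pb * (5 ^ m * k)), 0⟩
      rw [io1_single, io2_single, r0_G0.kap_eq (n := j - 1) (by omega)] at this
      change (t : GG)⁻¹⁻¹ * _ * t⁻¹ = _
      rw [inv_inv, lp, this, lp, ← sub_eq_add_neg]; group

theorem AA_snormal (g : GG) : {a : GG | a ∈ AA ∧ g⁻¹ * a * g ∈ AA}.Infinite := by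
  obtain ⟨n, J, c, h⟩ := tl_all g
  apply Set.infinite_of_injective_forall_mem (f := fun i : ℕ => lp J (5 ^ n * i))
  · intro i j hij
    have h1 := lp_inj J hij
    have h2 : (5 : K) ^ n ≠ 0 := pow_ne_zero _ (by decide)
    exact_mod_cast mul_left_cancel₀ h2 h1
  · intro i
    obtain ⟨z, -, hz⟩ := h 0 J (5 ^ n * i) le_rfl (by simp)
    exact ⟨lp_mem _ _, by rw [hz]; exact lp_mem _ _⟩

/-! Decomposition of paths -/

inductive Dec (P : ℕ → GG) (N : ℕ) : ℕ → G0 → List (ℤˣ × G0) → Prop
  | nil (k : ℕ) (h : G0) : k ≤ N → P N = P k * of h → Bd (pi0 h) ((N : ℝ) - k) → Dec P N k h []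
  | cons (k k' : ℕ) (h : G0) (u : ℤˣ) (g : G0) (l : List (ℤˣ × G0)) : k ≤ k' → k' < N →
      P k' = P k * of h → Bd (pi0 h) ((k' : ℝ) - k) → P (k' + 1) = P k' * t ^ (u : ℤ) →
      Dec P N (k' + 1) g l → Dec P N k h ((u, g) :: l)

def Ch (l : List (ℤˣ × G0)) : Prop :=
  l.IsChain (fun a b => a.2 ∈ toSubgroup io1.range io2.range a.1 → a.1 = b.1)

def St (g g' : GG) : Prop :=
  (∃ x : G0, Bd (pi0 x) 1 ∧ g' = g * of x) ∨ ∃ u : ℤˣ, g' = g * t ^ (u : ℤ)

noncomputable def pr (h : G0) (l : List (ℤˣ × G0)) : GG :=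
  of h * (l.map (fun x => t ^ (x.1 : ℤ) * of x.2)).prod

variable {P : ℕ → GG} {N : ℕ}

theorem Dec.ext_head {k k1 : ℕ} {e g : G0} {l : List (ℤˣ × G0)} (h : Dec P N k1 g l)
    (hk : k ≤ k1) (he : P k1 = P k * of e) (hb : Bd (pi0 e) ((k1 : ℝ) - k)) :
    Dec P N k (e * g) l := by
  cases h with
  | nil _ _ h1 h2 h3 =>
    refine Dec.nil _ _ (hk.trans h1) (by rw [h2, he, map_mul, mul_assoc]) ?_
    rw [map_mul]; exact (hb.mul h3).mono (by linarith)
  | cons _ k' _ u g' l' h1 h2 h3 h4 h5 h6 =>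
    refine Dec.cons _ k' _ u g' l' (hk.trans h1) h2 (by rw [h3, he, map_mul, mul_assoc]) ?_ h5 h6
    rw [map_mul]; exact (hb.mul h4).mono (by linarith)

theorem Dec.prod {k : ℕ} {g : G0} {l : List (ℤˣ × G0)} (h : Dec P N k g l) :
    P N = P k * pr g l := by
  induction h with
  | nil k h h1 h2 h3 => simp [pr, h2]
  | cons k k' h u g l h1 h2 h3 h4 h5 h6 ih => rw [ih, h5, h3]; simp [pr, mul_assoc]

theorem Dec.length {k : ℕ} {g : G0} {l : List (ℤˣ × G0)} (h : Dec P N k g l) :
    k + l.length ≤ N := by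
  induction h with
  | nil k h h1 h2 h3 => simpa using h1
  | cons k k' h u g l h1 h2 h3 h4 h5 h6 ih => simp only [List.length_cons]; omega

theorem exists_dec (hP : ∀ k < N, St (P k) (P (k + 1))) (k : ℕ) (hk : k ≤ N) :
    ∃ h l, Dec P N k h l ∧ Ch l := by
  induction hk using Nat.decreasingInduction with
  | self => exact ⟨1, [], Dec.nil _ _ le_rfl (by simp) (by simpa using Bd.one), List.isChain_nil⟩
  | of_succ k hk ih =>
    obtain ⟨h, l, hd, hc⟩ := ih
    rcases hP k hk with ⟨x, hx, he⟩ | ⟨u, hu⟩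
    · exact ⟨x * h, l, hd.ext_head (Nat.le_succ k) he (by simpa using hx), hc⟩
    · have base : Dec P N k 1 ((u, h) :: l) :=
        Dec.cons k k 1 u h l le_rfl hk (by simp) (by simpa using Bd.one) hu hd
      by_cases hch : Ch ((u, h) :: l)
      · exact ⟨1, _, base, hch⟩
      · cases hd with
        | nil => exact absurd (List.isChain_singleton _) hch
        | cons _ k' _ u' g l' h1 h2 h3 h4 h5 h6 =>
          rw [Ch, List.isChain_cons_cons] at hch
          have hc' : Ch l' := List.IsChain.tail hc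
          have hpin : h ∈ toSubgroup io1.range io2.range u ∧ u ≠ u' := by
            by_contra h0
            apply hch
            refine ⟨fun h7 => ?_, hc⟩
            by_contra h8
            exact h0 ⟨h7, h8⟩
          obtain ⟨hmem, hne⟩ := hpin
          rcases Int.units_eq_one_or u with rfl | rfl
          · obtain ⟨w, rfl⟩ := hmem
            have : u' = -1 := (Int.units_eq_one_or u').resolve_left hne.symm
            subst this
            refine ⟨io2 w * g, l', h6.ext_head (by omega) ?_ ?_, hc'⟩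
            · rw [h5, h3, hu]
              simp only [Units.val_one, zpow_one, Units.val_neg, zpow_neg]
              rw [mul_assoc (P k), y_mul]; group
            · rw [pi0_io1] at h4
              rw [pi0_io2]
              exact (bd_mu12 h4).mono (by push_cast; linarith)
          · obtain ⟨w, rfl⟩ := hmem
            have : u' = 1 := (Int.units_eq_one_or u').resolve_right hne.symm
            subst this
            refine ⟨io1 w * g, l', h6.ext_head (by omega) ?_ ?_, hc'⟩
            · rw [h5, h3, hu]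
              simp only [Units.val_one, zpow_one, Units.val_neg, zpow_neg]
              rw [mul_assoc (P k * t⁻¹), ← y_mul]; group
            · rw [pi0_io2] at h4
              rw [pi0_io1]
              exact (bd_mu21 h4).mono (by push_cast; linarith)

theorem britton {h h' : G0} {l l' : List (ℤˣ × G0)} (hc : Ch l) (hc' : Ch l')
    (e : pr h l = pr h' l') : l.map Prod.fst = l'.map Prod.fst ∧
      ∀ u ∈ l.head?.map Prod.fst, h⁻¹ * h' ∈ toSubgroup io1.range io2.range (-u) :=
  HNNExtension.ReducedWord.map_fst_eq_and_of_prod_eq th (w₁ := ⟨h, l, hc⟩) (w₂ := ⟨h', l', hc'⟩) e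

theorem ch_rep (u : ℤˣ) (n : ℕ) : Ch (List.replicate n (u, 1)) := by
  induction n with
  | zero => exact List.isChain_nil
  | succ n ih =>
    cases n with
    | zero => exact List.isChain_singleton _
    | succ n => exact List.isChain_cons_cons.mpr ⟨fun _ => rfl, ih⟩

theorem pr_rep (n : ℕ) : pr 1 (List.replicate n (1, 1)) = t ^ n := by
  simp [pr]

theorem crossing (n : ℕ) : ∀ (k : ℕ) (h : G0) (l : List (ℤˣ × G0)) (v : Wr) (g0 : GG),
    Dec P N k h l → Ch l → P k = g0 * of (io1 v) → P N = g0 * t ^ n →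
    ∃ (w : ℕ → Wr) (e : ℕ → ℕ), w 0 = v ∧ e 0 = k ∧ w (n + 1) = 1 ∧ e (n + 1) = N + 1 ∧
      ∀ i ≤ n, e i < e (i + 1) ∧ P (e i) = g0 * t ^ i * of (io1 (w i)) ∧
        Stp (w i) (w (i + 1)) ((e (i + 1) : ℝ) - 1 - e i) := by
  induction n with
  | zero =>
    intro k h l v g0 hd hc hk hN
    have e1 : pr (io1 v * h) l = pr 1 (List.replicate 0 (1, 1)) := by
      have := hd.prod
      rw [hN, hk, mul_assoc] at this
      rw [pr_rep, mul_left_cancel this]
      simp [pr, mul_assoc]
    have e2 := (britton hc (ch_rep 1 0) e1).1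
    have e3 : l = [] := by simpa using e2
    subst e3
    cases hd with
    | nil _ _ h1 h2 h3 =>
      have e4 : h = (io1 v)⁻¹ * io2 1 := by
        rw [map_one, mul_one]
        apply eq_inv_of_mul_eq_one_right
        apply of_injective th
        simpa [pr] using e1
      refine ⟨fun i => if i = 0 then v else 1, fun i => if i = 0 then k else N + 1, by simp,
        by simp, by simp, by simp, fun i hi => ?_⟩
      obtain rfl : i = 0 := by omega
      refine ⟨by simp; omega, by simpa using hk, ?_⟩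
      rw [e4, map_mul, map_inv, pi0_io1, pi0_io2] at h3
      simpa using stp_of_bd h3
  | succ n ih =>
    intro k h l v g0 hd hc hk hN
    have e1 : pr (io1 v * h) l = pr 1 (List.replicate (n + 1) (1, 1)) := by
      have := hd.prod
      rw [hN, hk, mul_assoc] at this
      rw [pr_rep, mul_left_cancel this]
      simp [pr, mul_assoc]
    obtain ⟨e2, e3⟩ := britton hc (ch_rep 1 (n + 1)) e1
    cases hd with
    | nil => simp at e2
    | cons _ k' _ u g l' h1 h2 h3 h4 h5 h6 =>
      have hu : u = 1 := by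
        simp only [List.map_cons, List.replicate_succ, List.cons.injEq] at e2
        exact e2.1
      subst hu
      have e4 := e3 1 (by simp)
      rw [mul_one, toSubgroup_neg_one, Subgroup.inv_mem_iff] at e4
      obtain ⟨w', hw'⟩ := e4
      have e5 : h = (io1 v)⁻¹ * io2 w' := by rw [hw']; group
      obtain ⟨w, e, a1, a2, a3, a4, a5⟩ := ih (k' + 1) g l' w' (g0 * t) h6 (List.IsChain.tail hc)
        (by
          rw [h5, h3, hk, mul_assoc g0, ← map_mul, ← hw']
          simp only [Units.val_one, zpow_one]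
          rw [mul_assoc, ← y_mul, mul_assoc])
        (by rw [hN, pow_succ', mul_assoc])
      refine ⟨fun i => Nat.casesOn i v w, fun i => Nat.casesOn i k e, rfl, rfl, a3, a4,
        fun i hi => ?_⟩
      cases i with
      | zero =>
        refine ⟨by simp [a2]; omega, by simpa using hk, ?_⟩
        rw [e5, map_mul, map_inv, pi0_io1, pi0_io2] at h4
        simpa [a1, a2] using stp_of_bd h4
      | succ i =>
        obtain ⟨b1, b2, b3⟩ := a5 i (by omega)
        exact ⟨b1, by rw [pow_succ', ← mul_assoc]; exact b2, b3⟩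

end Pool.Agent.Lib.MP_fdd6ec_al
end

-- part Pool.Agent.Lib.MP_fdd6ec_al.Len
section

set_option autoImplicit false

namespace Pool.Agent.Lib.MP_fdd6ec_al

open HNNExtension

noncomputable def len (g : GG) : ℕ :=
  sInf {k : ℕ | ∃ w : FreeGroup (Fin 5), phi w = g ∧ w.toWord.length = k}

noncomputable def dd (g h : GG) : ℕ := len (g⁻¹ * h)

theorem len_spec (g : GG) : ∃ w : FreeGroup (Fin 5), phi w = g ∧ w.toWord.length = len g := by
  obtain ⟨w, hw⟩ := phi_surj g
  exact Nat.sInf_mem (s := {k : ℕ | ∃ w : FreeGroup (Fin 5), phi w = g ∧ w.toWord.length = k})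
    ⟨_, w, hw, rfl⟩

theorem len_le (w : FreeGroup (Fin 5)) : len (phi w) ≤ w.norm := Nat.sInf_le ⟨w, rfl, rfl⟩

theorem len_mul (g h : GG) : len (g * h) ≤ len g + len h := by
  obtain ⟨v, rfl, hv⟩ := len_spec g
  obtain ⟨w, rfl, hw⟩ := len_spec h
  rw [← map_mul, ← hv, ← hw]
  exact (len_le _).trans (FreeGroup.norm_mul_le v w)

theorem len_inv_le (g : GG) : len g⁻¹ ≤ len g := by
  obtain ⟨v, rfl, hv⟩ := len_spec g
  rw [← map_inv, ← hv]
  exact (len_le _).trans (FreeGroup.norm_inv_eq (x := v)).le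

theorem len_inv (g : GG) : len g⁻¹ = len g :=
  le_antisymm (len_inv_le g) (by simpa using len_inv_le g⁻¹)

theorem len_one : len 1 = 0 := by
  have := len_le 1
  rw [map_one] at this
  simpa using this

theorem len_gen (i : Fin 5) : len (gen i) ≤ 1 := by
  rw [← phi_of]; exact len_le _

theorem len_pow (g : GG) (hg : len g ≤ 1) (n : ℕ) : len (g ^ n) ≤ n := by
  induction n with
  | zero => simp [len_one]
  | succ n ih => rw [pow_succ]; have := len_mul (g ^ n) g; omega

theorem len_zpow (g : GG) (hg : len g ≤ 1) (n : ℤ) : len (g ^ n) ≤ n.natAbs := by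
  obtain ⟨m, rfl | rfl⟩ := Int.eq_nat_or_neg n
  · simpa using len_pow g hg m
  · rw [zpow_neg, len_inv]; simpa using len_pow g hg m

theorem dd_self (g : GG) : dd g g = 0 := by simp [dd, len_one]
theorem dd_comm (g h : GG) : dd g h = dd h g := by rw [dd, dd, ← len_inv]; simp
theorem dd_tri (g h k : GG) : dd g k ≤ dd g h + dd h k := by
  have := len_mul (g⁻¹ * h) (h⁻¹ * k)
  simpa [dd, mul_assoc] using this
theorem dd_mul_left (x g h : GG) : dd (x * g) (x * h) = dd g h := by simp [dd, mul_assoc]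
theorem dd_mul_right (g x : GG) : dd g (g * x) = len x := by simp [dd]

noncomputable def ltr (x : Fin 5 × Bool) : GG := cond x.2 (gen x.1) (gen x.1)⁻¹

theorem len_ltr (x : Fin 5 × Bool) : len (ltr x) ≤ 1 := by
  rcases x with ⟨i, _ | _⟩
  · exact (len_inv_le _).trans (len_gen i)
  · exact len_gen i

def St' (g g' : GG) : Prop := g' = g ∨ ∃ x, g' = g * ltr x

theorem St'.dd {g g' : GG} (h : St' g g') : dd g g' ≤ 1 := by
  rcases h with rfl | ⟨x, rfl⟩
  · simp [dd_self]
  · rw [dd_mul_right]; exact len_ltr x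

theorem St'.st {g g' : GG} (h : St' g g') : St g g' := by
  rcases h with rfl | ⟨⟨i, b⟩, rfl⟩
  · exact Or.inl ⟨1, by simpa using Bd.one.mono zero_le_one, by simp⟩
  · have key : ∀ x : G0, (x = ga ∨ x = gb ∨ x = gs ∨ x = gt) → gen i = of x →
        St g (g * ltr (i, b)) := by
      intro x hx hi
      cases b
      · exact Or.inl ⟨x⁻¹, (bd_gen x hx).2, by simp [ltr, hi]⟩
      · exact Or.inl ⟨x, (bd_gen x hx).1, by simp [ltr, hi]⟩
    fin_cases i
    · exact key ga (by simp) rfl
    · exact key gb (by simp) rfl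
    · exact key gs (by simp) rfl
    · exact key gt (by simp) rfl
    · cases b
      · exact Or.inr ⟨-1, by simp [ltr, gen]⟩
      · exact Or.inr ⟨1, by simp [ltr, gen]⟩

noncomputable def pre (W : List (Fin 5 × Bool)) (r : ℕ) : GG := ((W.take r).map ltr).prod

theorem pre_zero (W : List (Fin 5 × Bool)) : pre W 0 = 1 := by simp [pre]

theorem pre_step (g : GG) (W : List (Fin 5 × Bool)) (r : ℕ) :
    St' (g * pre W r) (g * pre W (r + 1)) := by
  by_cases h : r < W.length
  · refine Or.inr ⟨W[r], ?_⟩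
    rw [pre, List.take_succ_eq_append_getElem h, List.map_append, List.prod_append]
    simp [pre, mul_assoc]
  · left
    rw [pre, pre, List.take_of_length_le (by omega), List.take_of_length_le (by omega)]

theorem exists_word (g : GG) : ∃ W : List (Fin 5 × Bool), W.length = len g ∧
    ∀ r, len g ≤ r → pre W r = g := by
  obtain ⟨w, hw, hl⟩ := len_spec g
  refine ⟨w.toWord, hl, fun r hr => ?_⟩
  rw [pre, List.take_of_length_le (by omega), ← hw]
  conv_rhs => rw [← FreeGroup.mk_toWord (x := w), phi, FreeGroup.lift_mk]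
  rfl

theorem dd_path {P : ℕ → GG} {N : ℕ} (hP : ∀ k < N, St' (P k) (P (k + 1))) {k k' : ℕ}
    (hk : k ≤ k') (hN : k' ≤ N) : dd (P k) (P k') ≤ k' - k := by
  induction k', hk using Nat.le_induction with
  | base => simp [dd_self]
  | succ m hm ih =>
    have h1 := dd_tri (P k) (P m) (P (m + 1))
    have h2 := (hP m (by omega)).dd
    have h3 := ih (by omega)
    omega

theorem length_le_len (h : G0) (l : List (ℤˣ × G0)) (hc : Ch l) : l.length ≤ len (pr h l) := by
  obtain ⟨W, hW, hp⟩ := exists_word (pr h l)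
  obtain ⟨h', l', hd, hc'⟩ := exists_dec (P := fun r => 1 * pre W r) (N := len (pr h l))
    (fun k _ => (pre_step 1 W k).st) 0 (Nat.zero_le _)
  have e := hd.prod
  simp only [one_mul, pre_zero, hp _ le_rfl] at e
  have e2 := congrArg List.length (britton hc hc' e).1
  have e3 := hd.length
  simp only [List.length_map] at e2
  omega

noncomputable def chi0 : G0 →* Multiplicative ℤ :=
  MonoidHom.mk' (fun g => Multiplicative.ofAdd ((pi0 g).c1 + (pi0 g).c2)) (fun a b => by
    rw [← ofAdd_add, map_mul]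
    congr 1
    simp only [Md.mul_c1, Md.mul_c2]; ring)

noncomputable def chi1 : GG →* Multiplicative ℤ :=
  HNNExtension.lift chi0 (Multiplicative.ofAdd 1) (by
    rintro ⟨_, w, rfl⟩
    rw [th_apply, mul_comm]
    congr 1
    simp [chi0, pi0_io1, pi0_io2, mu1, mu2, Line.mu_c1, Line.mu_c2])

noncomputable def chi (g : GG) : ℤ := Multiplicative.toAdd (chi1 g)

theorem chi_mul (g h : GG) : chi (g * h) = chi g + chi h := by simp [chi]
theorem chi_inv (g : GG) : chi g⁻¹ = - chi g := by simp [chi]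
theorem chi_one : chi 1 = 0 := by simp [chi]
theorem chi_t : chi t = 1 := by simp [chi, chi1]
theorem chi_of (g : G0) : chi (of g) = (pi0 g).c1 + (pi0 g).c2 := by simp [chi, chi1, chi0]
theorem chi_pow (g : GG) (n : ℕ) : chi (g ^ n) = n * chi g := by simp [chi]

theorem chi_gen (i : Fin 5) : (chi (gen i)).natAbs ≤ 1 := by
  fin_cases i <;> simp [gen, chi_of, chi_t, pi0_a, pi0_b, pi0_s, pi0_t, lampM, mS, mT]

theorem chi_le_len (g : GG) : (chi g).natAbs ≤ len g := by
  obtain ⟨W, hW, hp⟩ := exists_word g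
  have : ∀ r, (chi (1 * pre W r)).natAbs ≤ r := by
    intro r
    induction r with
    | zero => simp [pre_zero, chi_one]
    | succ r ih =>
      rcases pre_step 1 W r with h | ⟨⟨i, b⟩, h⟩
      · rw [h]; omega
      · rw [h, chi_mul]
        have h1 := chi_gen i
        cases b
        · simp only [ltr, cond_false, chi_inv]; omega
        · simp only [ltr, cond_true]; omega
  simpa [hp _ le_rfl] using this (len g)

theorem len_io1 (w : Wr) : (len (of (io1 w)) : ℝ) ≤ 6 * sz w + 2 := by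
  refine len_iota (fun g => (len g : ℝ)) (fun g h => by exact_mod_cast len_mul g h)
    (by simp [len_one]) ((of : G0 →* GG).comp io1) ?_ ?_ (by norm_num) (fun k => ?_) w
  · rw [MonoidHom.comp_apply, io1_T, zpow_one]; exact_mod_cast len_gen 2
  · rw [len_inv, MonoidHom.comp_apply, io1_T, zpow_one]; exact_mod_cast len_gen 2
  · rw [MonoidHom.comp_apply, io1_zero, map_kz, kz]
    have h1 := len_mul ((of ga : GG) ^ (pp * k).re) ((of gb : GG) ^ (pp * k).im)
    have h2 := len_zpow (of ga) (len_gen 0) (pp * k).re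
    have h3 := len_zpow (of gb) (len_gen 1) (pp * k).im
    have h4 : ((len ((of ga : GG) ^ (pp * k).re * (of gb : GG) ^ (pp * k).im) : ℕ) : ℝ) ≤
        (((pp * k).re.natAbs + (pp * k).im.natAbs : ℕ) : ℝ) := by exact_mod_cast (by omega)
    rw [Nat.cast_add, Nat.cast_natAbs, Nat.cast_natAbs, Int.cast_abs, Int.cast_abs] at h4
    have h5 := abs_re_le (pp * k)
    have h6 := abs_im_le (pp * k)
    rw [nm_mul] at h5 h6
    nlinarith [nm_pp_le, nm_nonneg k]

end Pool.Agent.Lib.MP_fdd6ec_al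
end

-- part Pool.Agent.Lib.MP_fdd6ec_al.Morse
section

set_option autoImplicit false

namespace Pool.Agent.Lib.MP_fdd6ec_al

open HNNExtension

theorem morse_path (A B : ℝ) (hA : 1 ≤ A) (hB : 0 ≤ B) : ∃ M : ℝ, ∀ (n N : ℕ) (P : ℕ → GG)
    (g0 : GG), P 0 = g0 → P N = g0 * t ^ n → (∀ k < N, St' (P k) (P (k + 1))) →
    (∀ k k' : ℕ, k ≤ k' → k' ≤ N → (k' : ℝ) - k ≤ A * dd (P k) (P k') + B) →
    ∀ k ≤ N, ∃ i ≤ n, (dd (P k) (g0 * t ^ i) : ℝ) ≤ M := by
  classical
  obtain ⟨M0, hM0, hM⟩ := bounded_sizes (6 * A + B) (by linarith)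
  refine ⟨(6 * A + B) * (2 * M0 + 2) + (6 * M0 + 2), fun n N P g0 h0 hN hP hq k hk => ?_⟩
  obtain ⟨h, l, hd, hc⟩ := exists_dec (fun k hk => (hP k hk).st) 0 (Nat.zero_le N)
  obtain ⟨w, e, a1, a2, a3, a4, a5⟩ := crossing n 0 h l 1 g0 hd hc (by simpa using h0) hN
  have emono : ∀ i j, i ≤ j → j ≤ n + 1 → e i ≤ e j := by
    intro i j hij hj
    induction j, hij using Nat.le_induction with
    | base => exact le_rfl
    | succ m hm ih => have := (a5 m (by omega)).1; have := ih (by omega); omega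
  have ele : ∀ i ≤ n, e i ≤ N := by
    intro i hi
    have h1 := (a5 i hi).1
    have h2 := emono (i + 1) (n + 1) (by omega) le_rfl
    omega
  let wz : ℤ → Wr := fun i => w (min i.toNat (n + 1))
  let τ : ℤ → ℕ := fun i => min (e (min i.toNat (n + 1))) N
  let cz : ℤ → ℝ := fun i => if 0 ≤ i ∧ i ≤ n then (e (i.toNat + 1) : ℝ) - 1 - e i.toNat else 0
  have hst : ∀ i, Stp (wz i) (wz (i + 1)) (cz i) := by
    intro i
    by_cases hi : 0 ≤ i ∧ i ≤ n
    · have e1 : min i.toNat (n + 1) = i.toNat := by omega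
      have e2 : min (i + 1).toNat (n + 1) = i.toNat + 1 := by omega
      simp only [wz, cz, if_pos hi, e1, e2]
      exact (a5 _ (by omega)).2.2
    · simp only [wz, cz, if_neg hi]
      by_cases h1 : i < 0
      · rw [show min i.toNat (n + 1) = 0 by omega, show min (i + 1).toNat (n + 1) = 0 by omega, a1]
        exact stp_one
      · rw [show min i.toNat (n + 1) = n + 1 by omega,
          show min (i + 1).toNat (n + 1) = n + 1 by omega, a3]
        exact stp_one
  have hτ : ∀ i, P (τ i) = g0 * t ^ (min i.toNat n) * of (io1 (wz i)) := by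
    intro i
    by_cases hi : i ≤ n
    · have e1 : min i.toNat (n + 1) = i.toNat := by omega
      have e2 : min i.toNat n = i.toNat := by omega
      simp only [τ, wz, e1, e2]
      rw [min_eq_left (ele _ (by omega))]
      exact (a5 _ (by omega)).2.1
    · have e1 : min i.toNat (n + 1) = n + 1 := by omega
      have e2 : min i.toNat n = n := by omega
      simp only [τ, wz, e1, e2, a3, a4]
      rw [min_eq_right (by omega), hN]; simp
  have hcτ : ∀ i, cz i ≤ (τ (i + 1) : ℝ) - τ i := by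
    intro i
    by_cases hi : 0 ≤ i ∧ i ≤ n
    · have e1 : min i.toNat (n + 1) = i.toNat := by omega
      have e2 : min (i + 1).toNat (n + 1) = i.toNat + 1 := by omega
      simp only [τ, cz, if_pos hi, e1, e2]
      have h1 := emono (i.toNat + 1) (n + 1) (by omega) le_rfl
      have h2 : e (i.toNat + 1) + min (e i.toNat) N ≤ min (e (i.toNat + 1)) N + 1 + e i.toNat := by
        omega
      have h3 : ((e (i.toNat + 1) + min (e i.toNat) N : ℕ) : ℝ) ≤
        ((min (e (i.toNat + 1)) N + 1 + e i.toNat : ℕ) : ℝ) := by exact_mod_cast h2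
      rw [Nat.cast_add, Nat.cast_add, Nat.cast_add, Nat.cast_one] at h3
      linarith
    · simp only [τ, cz, if_neg hi]
      have : min (i + 1).toNat (n + 1) = min i.toNat (n + 1) := by omega
      rw [this, sub_self]
  have hq' : ∀ (i : ℤ) (T : ℕ), ∑ s ∈ Finset.range T, cz (i + s) ≤
      (6 * A + B) * (sz (wz i) + sz (wz (i + T)) + T + 1) := by
    intro i T
    have b1 : ∑ s ∈ Finset.range T, cz (i + s) ≤ (τ (i + T) : ℝ) - τ i := by
      induction T with
      | zero => simp
      | succ T ih =>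
        rw [Finset.sum_range_succ]
        have := hcτ (i + T)
        push_cast
        rw [← add_assoc]
        linarith
    have b2 : τ i ≤ τ (i + T) := by
      have := emono (min i.toNat (n + 1)) (min (i + T).toNat (n + 1)) (by omega) (by omega)
      simp only [τ]; omega
    have b3 := hq (τ i) (τ (i + T)) b2 (min_le_right _ _)
    have b4 : dd (P (τ i)) (P (τ (i + T))) ≤
        len (of (io1 (wz i))) + T + len (of (io1 (wz (i + T)))) := by
      rw [hτ, hτ]
      have c1 := dd_tri (g0 * t ^ (min i.toNat n) * of (io1 (wz i))) (g0 * t ^ (min i.toNat n))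
        (g0 * t ^ (min (i + T).toNat n) * of (io1 (wz (i + T))))
      have c2 := dd_tri (g0 * t ^ (min i.toNat n)) (g0 * t ^ (min (i + T).toNat n))
        (g0 * t ^ (min (i + T).toNat n) * of (io1 (wz (i + T))))
      rw [dd_comm _ (g0 * t ^ (min i.toNat n)), dd_mul_right] at c1
      rw [dd_mul_right] at c2
      obtain ⟨d, hd1, hd2⟩ : ∃ d, min (i + T).toNat n = min i.toNat n + d ∧ d ≤ T :=
        ⟨min (i + T).toNat n - min i.toNat n, by omega, by omega⟩
      have c3 : dd (g0 * t ^ (min i.toNat n)) (g0 * t ^ (min (i + T).toNat n)) ≤ T := by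
        rw [hd1, pow_add, ← mul_assoc, dd_mul_right]
        exact (len_pow _ (len_gen 4) d).trans hd2
      omega
    have b5 : (dd (P (τ i)) (P (τ (i + T))) : ℝ) ≤
        len (of (io1 (wz i))) + T + len (of (io1 (wz (i + T)))) := by exact_mod_cast b4
    have b6 := len_io1 (wz i)
    have b7 := len_io1 (wz (i + T))
    have b8 := sz_nonneg (wz i)
    have b9 := sz_nonneg (wz (i + T))
    have b10 : (0 : ℝ) ≤ T := by positivity
    have b11 : A * (dd (P (τ i)) (P (τ (i + T))) : ℝ) ≤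
        A * (6 * sz (wz i) + 6 * sz (wz (i + T)) + T + 4) :=
      mul_le_mul_of_nonneg_left (by linarith) (by linarith)
    nlinarith
  have hmax : ∃ i0, ∀ i, sz (wz i) ≤ sz (wz i0) := by
    obtain ⟨j, hj, hj'⟩ := Finset.exists_max_image (Finset.range (n + 2)) (fun j => sz (w j))
      ⟨0, by simp⟩
    rw [Finset.mem_range] at hj
    refine ⟨j, fun i => ?_⟩
    simp only [wz]
    rw [show min (j : ℤ).toNat (n + 1) = j by omega]
    exact hj' _ (Finset.mem_range.mpr (by omega))
  have hbd := hM wz cz hst hmax hq'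
  have hex : ∃ i, k < e (i + 1) := ⟨n, by omega⟩
  have hi1 := Nat.find_spec hex
  have hi2 : Nat.find hex ≤ n := Nat.find_min' hex (by omega)
  set i := Nat.find hex with hi
  have hi3 : e i ≤ k := by
    rcases Nat.eq_zero_or_pos i with h | h
    · rw [h, a2]; exact Nat.zero_le _
    · have := Nat.find_min hex (m := i - 1) (by omega)
      rw [show i - 1 + 1 = i by omega] at this
      omega
  refine ⟨i, hi2, ?_⟩
  have c1 := dd_tri (P k) (P (e i)) (g0 * t ^ i)
  have c2 := dd_path hP hi3 hk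
  rw [dd_comm] at c2
  have c3 : dd (P (e i)) (g0 * t ^ i) = len (of (io1 (w i))) := by
    rw [(a5 i hi2).2.1, dd_comm, dd_mul_right]
  have c4 := hq' i 1
  have c5 := hbd i
  have c6 := hbd (i + (1 : ℕ))
  have c7 : wz i = w i := by simp only [wz]; rw [show min (i : ℤ).toNat (n + 1) = i by omega]
  have c8 : cz i = (e (i + 1) : ℝ) - 1 - e i := by
    simp only [cz]; rw [if_pos (by omega)]; simp
  simp only [Finset.range_one, Finset.sum_singleton, Nat.cast_zero, add_zero, c8] at c4
  have c9 := len_io1 (w i)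
  have c10 : ((dd (P k) (g0 * t ^ i) + e i + 1 : ℕ) : ℝ) ≤
      ((e (i + 1) + len (of (io1 (w i))) : ℕ) : ℝ) := by exact_mod_cast (by omega)
  push_cast at c10 c4 c6
  rw [c7] at c5 c4
  have c11 : (6 * A + B) * (sz (w i) + sz (wz (i + 1)) + 1 + 1) ≤ (6 * A + B) * (2 * M0 + 2) :=
    mul_le_mul_of_nonneg_left (by linarith) (by linarith)
  linarith

def QG (L C : ℝ) (m : ℕ) (q : ℕ → GG) : Prop :=
  ∀ s t : ℕ, s ≤ m → t ≤ m → |(s : ℝ) - (t : ℝ)| / L - C ≤ ((dd (q s) (q t) : ℕ) : ℝ) ∧
    ((dd (q s) (q t) : ℕ) : ℝ) ≤ L * |(s : ℝ) - (t : ℝ)| + C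

theorem morse_seg (L C : ℝ) (hL : 1 ≤ L) (hC : 0 ≤ C) : ∃ M : ℝ, ∀ (n m : ℕ) (q : ℕ → GG)
    (g0 : GG), q 0 = g0 → q m = g0 * t ^ n → QG L C m q →
    ∀ s ≤ m, ∃ i ≤ n, (dd (q s) (g0 * t ^ i) : ℝ) ≤ M := by
  obtain ⟨J, hJ⟩ := exists_nat_ge (L + C)
  have hJ1 : (1 : ℝ) ≤ J := by linarith
  have hJ0 : 0 < J := by exact_mod_cast (by linarith : (0 : ℝ) < J)
  obtain ⟨M, hM⟩ := morse_path (J * L) (J * L * (2 * J + C) + J) (by nlinarith) (by positivity)
  refine ⟨M, fun n m q g0 h0 hm hq s hs => ?_⟩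
  choose W hW hp using exists_word
  let P : ℕ → GG := fun k => q (k / J) * pre (W ((q (k / J))⁻¹ * q (k / J + 1))) (k % J)
  have hPs : ∀ s, P (s * J) = q s := by
    intro s
    simp only [P, Nat.mul_mod_left, pre_zero, mul_one, Nat.mul_div_cancel _ hJ0]
  have hstep : ∀ k < m * J, St' (P k) (P (k + 1)) := by
    intro k hk
    have hkm : k / J < m := Nat.div_lt_of_lt_mul (by rwa [mul_comm] at hk)
    have e1 := Nat.div_add_mod k J
    have e2 := Nat.mod_lt k hJ0
    have : P (k + 1) = q (k / J) * pre (W ((q (k / J))⁻¹ * q (k / J + 1))) (k % J + 1) := by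
      by_cases h : k % J + 1 < J
      · have d1 : (k + 1) / J = k / J ∧ (k + 1) % J = k % J + 1 := by
          rw [Nat.div_mod_unique hJ0]; exact ⟨by omega, h⟩
        simp only [P, d1.1, d1.2]
      · have d1 : k + 1 = (k / J + 1) * J := by rw [add_mul, mul_comm]; omega
        rw [d1, hPs, hp]
        · simp
        · have h1 := (hq (k / J) (k / J + 1) hkm.le hkm).2
          have h2 : ((len ((q (k / J))⁻¹ * q (k / J + 1)) : ℕ) : ℝ) ≤ J := by
            push_cast at h1
            rw [sub_add_cancel_left, abs_neg, abs_one] at h1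
            unfold dd at h1
            linarith
          have h3 : len ((q (k / J))⁻¹ * q (k / J + 1)) ≤ J := by exact_mod_cast h2
          omega
    rw [this]
    exact pre_step _ _ _
  have hnear : ∀ k ≤ m * J, dd (q (k / J)) (P k) ≤ J := by
    intro k hk
    have e1 := Nat.div_add_mod k J
    have e2 := Nat.mod_lt k hJ0
    have := dd_path hstep (k := k / J * J) (k' := k) (Nat.div_mul_le_self k J) hk
    rw [hPs, mul_comm] at this
    omega
  obtain ⟨i, hi, h⟩ := hM n (m * J) P g0 (by rw [← h0, ← hPs 0, zero_mul]) (by rw [hPs, hm]) hstep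
    (fun k k' hk hk' => by
      have a1 : k' / J ≤ m := Nat.div_le_of_le_mul (by rwa [mul_comm] at hk')
      have a2 : k / J ≤ k' / J := Nat.div_le_div_right hk
      have a3 := (hq (k' / J) (k / J) a1 (a2.trans a1)).1
      have a4 : ((k / J : ℕ) : ℝ) ≤ ((k' / J : ℕ) : ℝ) := by exact_mod_cast a2
      rw [abs_of_nonneg (by linarith), sub_le_iff_le_add, div_le_iff₀ (by linarith)] at a3
      have a5 : dd (q (k' / J)) (q (k / J)) ≤ dd (P k) (P k') + 2 * J := by
        have b1 := dd_tri (q (k' / J)) (P k') (q (k / J))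
        have b2 := dd_tri (P k') (P k) (q (k / J))
        have b3 := hnear k' hk'
        have b4 := hnear k (hk.trans hk')
        rw [dd_comm] at b4
        rw [dd_comm (P k') (P k)] at b2
        omega
      have a6 : (dd (q (k' / J)) (q (k / J)) : ℝ) ≤ dd (P k) (P k') + 2 * J := by
        exact_mod_cast a5
      have a7 : k' + J * (k / J) ≤ J * (k' / J) + J + k := by
        have e1 := Nat.div_add_mod k J
        have e2 := Nat.div_add_mod k' J
        have e3 := Nat.mod_lt k' hJ0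
        omega
      have a8 : (k' : ℝ) + J * ((k / J : ℕ) : ℝ) ≤ J * ((k' / J : ℕ) : ℝ) + J + k := by
        exact_mod_cast a7
      have a9 : ((k' / J : ℕ) : ℝ) - ((k / J : ℕ) : ℝ) ≤ (dd (P k) (P k') + 2 * J + C) * L :=
        a3.trans (mul_le_mul_of_nonneg_right (by linarith) (by linarith))
      have a10 := mul_le_mul_of_nonneg_left a9 (by linarith : (0 : ℝ) ≤ J)
      nlinarith)
    (s * J) (Nat.mul_le_mul_right _ hs)
  exact ⟨i, hi, by rwa [hPs] at h⟩

theorem QG.rev {L C : ℝ} {m : ℕ} {q : ℕ → GG} (h : QG L C m q) : QG L C m (fun s => q (m - s)) := by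
  intro s t hs ht
  have := h (m - s) (m - t) (by omega) (by omega)
  rw [Nat.cast_sub hs, Nat.cast_sub ht, show (m : ℝ) - s - (m - t) = -(s - t) by ring,
    abs_neg] at this
  exact this

/-- Morse property with integer exponents and endpoints moved by at most one. -/
theorem morse_line (L C : ℝ) (hL : 1 ≤ L) (hC : 0 ≤ C) : ∃ M : ℝ, ∀ (a b : ℤ) (m : ℕ) (q : ℕ → GG)
    (g0 : GG), dd (q 0) (g0 * t ^ a) ≤ 1 → dd (q m) (g0 * t ^ b) ≤ 1 → QG L C m q →
    ∀ s ≤ m, ∃ i : ℤ, min a b ≤ i ∧ i ≤ max a b ∧ (dd (q s) (g0 * t ^ i) : ℝ) ≤ M := by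
  obtain ⟨M, hM⟩ := morse_seg L (C + 2) hL (by linarith)
  have key : ∀ (a b : ℤ) (m : ℕ) (q : ℕ → GG) (g0 : GG), a ≤ b → dd (q 0) (g0 * t ^ a) ≤ 1 →
      dd (q m) (g0 * t ^ b) ≤ 1 → QG L C m q →
      ∀ s ≤ m, ∃ i : ℤ, a ≤ i ∧ i ≤ b ∧ (dd (q s) (g0 * t ^ i) : ℝ) ≤ max M 0 + 1 := by
    intro a b m q g0 hab h0 hm hq s hs
    rcases Nat.eq_zero_or_pos m with rfl | hm0
    · obtain rfl : s = 0 := by omega
      refine ⟨a, le_rfl, hab, ?_⟩
      have : (dd (q 0) (g0 * t ^ a) : ℝ) ≤ 1 := by exact_mod_cast h0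
      linarith [le_max_right M 0]
    let q' : ℕ → GG := fun s => if s = 0 then g0 * t ^ a else if s = m then g0 * t ^ b else q s
    have hqq : ∀ s, dd (q s) (q' s) ≤ 1 := by
      intro s
      simp only [q']
      split_ifs with h1 h2
      · rw [h1]; exact h0
      · rw [h2]; exact hm
      · simp [dd_self]
    obtain ⟨n, rfl⟩ := Int.le.dest hab
    obtain ⟨i, hi, h⟩ := hM n m q' (g0 * t ^ a) (by simp [q'])
      (by simp [q', hm0.ne', zpow_add, mul_assoc])
      (fun s u hs hu => by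
        have a1 := hq s u hs hu
        have b1 := dd_tri (q s) (q' s) (q u)
        have b2 := dd_tri (q' s) (q' u) (q u)
        have b3 := dd_tri (q' s) (q s) (q' u)
        have b4 := dd_tri (q s) (q u) (q' u)
        have b5 := hqq s
        have b6 := hqq u
        have b7 := dd_comm (q s) (q' s)
        have b8 := dd_comm (q u) (q' u)
        have c1 : (dd (q s) (q u) : ℝ) ≤ dd (q' s) (q' u) + 2 := by exact_mod_cast (by omega)
        have c2 : (dd (q' s) (q' u) : ℝ) ≤ dd (q s) (q u) + 2 := by exact_mod_cast (by omega)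
        constructor <;> linarith [a1.1, a1.2]) s hs
    refine ⟨a + i, by omega, by omega, ?_⟩
    have b1 := dd_tri (q s) (q' s) (g0 * t ^ a * t ^ i)
    have b2 := hqq s
    have c1 : (dd (q s) (g0 * t ^ a * t ^ i) : ℝ) ≤ dd (q' s) (g0 * t ^ a * t ^ i) + 1 := by
      exact_mod_cast (by omega)
    rw [zpow_add, zpow_natCast, ← mul_assoc]
    linarith [le_max_left M 0]
  refine ⟨max M 0 + 1, fun a b m q g0 h0 hm hq s hs => ?_⟩
  rcases le_total a b with hab | hab
  · rw [min_eq_left hab, max_eq_right hab]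
    exact key a b m q g0 hab h0 hm hq s hs
  · rw [min_eq_right hab, max_eq_left hab]
    have := key b a m (fun s => q (m - s)) g0 hab (by simpa using hm) (by simpa using h0) hq.rev
      (m - s) (by omega)
    simpa [Nat.sub_sub_self hs] using this

end Pool.Agent.Lib.MP_fdd6ec_al
end

-- part Pool.Agent.Lib.MP_fdd6ec_al.Rays
section

set_option autoImplicit false

namespace Pool.Agent.Lib.MP_fdd6ec_al

open HNNExtension

noncomputable def ray : Fin 3 → ℕ → GG :=
  ![fun n => t ^ (n : ℤ), fun n => t ^ (-(n : ℤ)),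
    fun n => if n = 0 then 1 else of gs * t ^ ((n : ℤ) - 1)]

theorem chi_zpow (n : ℤ) : chi (t ^ n) = n := by
  obtain ⟨m, rfl | rfl⟩ := Int.eq_nat_or_neg n
  · simp [chi_pow, chi_t]
  · simp [chi_inv, chi_pow, chi_t]

theorem chi_gs : chi (of gs) = 1 := by simp [chi_of, pi0_s, mS]

theorem chi_ray0 (n : ℕ) : chi (ray 0 n) = n := chi_zpow n
theorem chi_ray1 (n : ℕ) : chi (ray 1 n) = -n := chi_zpow (-n)
theorem chi_ray2 (n : ℕ) : chi (ray 2 n) = n := by
  change chi (if n = 0 then 1 else of gs * t ^ ((n : ℤ) - 1)) = n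
  split_ifs with h
  · simp [h, chi_one]
  · rw [chi_mul, chi_gs, chi_zpow]; ring

theorem chi_le_dd (g h : GG) : (chi h - chi g).natAbs ≤ dd g h := by
  have := chi_le_len (g⁻¹ * h)
  rwa [chi_mul, chi_inv, neg_add_eq_sub] at this

theorem ray_zero (i : Fin 3) : ray i 0 = 1 := by
  fin_cases i <;> simp [ray]

theorem ray_step (i : Fin 3) (n : ℕ) : St' (ray i n) (ray i (n + 1)) := by
  fin_cases i
  · refine Or.inr ⟨(4, true), ?_⟩
    simp [ray, ltr, gen, pow_succ]
  · refine Or.inr ⟨(4, false), ?_⟩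
    simp only [ray, ltr, gen]
    simp
    group
  · rcases Nat.eq_zero_or_pos n with rfl | h
    · exact Or.inr ⟨(2, true), by simp [ray, ltr, gen]⟩
    · refine Or.inr ⟨(4, true), ?_⟩
      simp [ray, ltr, gen, h.ne', mul_assoc, ← zpow_add_one]

theorem ray_geo (i : Fin 3) (s u : ℕ) :
    ((dd (ray i s) (ray i u) : ℕ) : ℝ) = |(s : ℝ) - (u : ℝ)| := by
  wlog h : s ≤ u generalizing s u
  · rw [dd_comm, abs_sub_comm]; exact this u s (by omega)
  have h1 := dd_path (P := ray i) (N := u) (fun k _ => ray_step i k) h le_rfl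
  have h2 := chi_le_dd (ray i s) (ray i u)
  have h3 : dd (ray i s) (ray i u) = u - s := by
    have : (chi (ray i u) - chi (ray i s)).natAbs = u - s := by
      fin_cases i
      · simp only [Fin.zero_eta, chi_ray0]; omega
      · simp only [Fin.mk_one, chi_ray1]; omega
      · simp only [Fin.reduceFinMk, chi_ray2]; omega
    omega
  have h4 : (s : ℝ) ≤ u := by exact_mod_cast h
  rw [h3, Nat.cast_sub h, abs_of_nonpos (by linarith)]; ring

theorem ray_morse (i : Fin 3) (L C : ℝ) (hL : 1 ≤ L) (hC : 0 ≤ C) : ∃ M : ℝ,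
    ∀ (a b m : ℕ) (q : ℕ → GG), q 0 = ray i a → q m = ray i b → QG L C m q →
      ∀ s : ℕ, s ≤ m → ∃ u : ℕ, ((dd (q s) (ray i u) : ℕ) : ℝ) ≤ M := by
  obtain ⟨M, hM⟩ := morse_line L C hL hC
  refine ⟨M, fun a b m q ha hb hq s hs => ?_⟩
  fin_cases i
  · obtain ⟨j, h1, h2, h3⟩ := hM a b m q 1 (by simp [ha, ray, dd_self]) (by simp [hb, ray, dd_self])
      hq s hs
    refine ⟨j.toNat, ?_⟩
    have : ray 0 j.toNat = 1 * t ^ j := by
      change t ^ ((j.toNat : ℕ) : ℤ) = _
      rw [one_mul]; congr 1; omega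
    simp only [Fin.zero_eta]
    rwa [this]
  · obtain ⟨j, h1, h2, h3⟩ := hM (-a) (-b) m q 1 (by simp [ha, ray, dd_self])
      (by simp [hb, ray, dd_self]) hq s hs
    refine ⟨(-j).toNat, ?_⟩
    have : ray 1 (-j).toNat = 1 * t ^ j := by
      change t ^ (-(((-j).toNat : ℕ) : ℤ)) = _
      rw [one_mul]; congr 1; omega
    simp only [Fin.mk_one]
    rwa [this]
  · have e : ∀ n : ℕ, dd (ray 2 n) (of gs * t ^ (((n - 1 : ℕ) : ℤ))) ≤ 1 := by
      intro n
      change dd (if n = 0 then 1 else of gs * t ^ ((n : ℤ) - 1)) _ ≤ 1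
      split_ifs with h
      · simpa [h, dd, gen] using len_gen 2
      · rw [show ((n - 1 : ℕ) : ℤ) = (n : ℤ) - 1 by omega, dd_self]; omega
    obtain ⟨j, h1, h2, h3⟩ := hM ((a - 1 : ℕ) : ℤ) ((b - 1 : ℕ) : ℤ) m q (of gs)
      (by rw [ha]; exact e a) (by rw [hb]; exact e b) hq s hs
    refine ⟨j.toNat + 1, ?_⟩
    have : ray 2 (j.toNat + 1) = of gs * t ^ j := by
      change (if j.toNat + 1 = 0 then 1 else of gs * t ^ (((j.toNat + 1 : ℕ) : ℤ) - 1)) = _
      rw [if_neg (by omega)]; congr 2; omega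
    simp only [Fin.reduceFinMk]
    rwa [this]

theorem far02 (n : ℕ) : n ≤ dd (ray 0 (n + 1)) (ray 2 (n + 1)) := by
  have key : ∀ m : ℕ, ∃ g l, Ch ((-1, g) :: l) ∧ m ≤ l.length ∧
      pr 1 ((-1, g) :: l) = (t ^ (m + 1))⁻¹ * (of gs * t ^ n) := by
    intro m
    induction m with
    | zero =>
      refine ⟨gs, List.replicate n (1, 1), ?_, Nat.zero_le _, by simp [pr, mul_assoc]⟩
      cases n with
      | zero => exact List.isChain_singleton _
      | succ n =>
        refine List.isChain_cons_cons.mpr ⟨fun h => ?_, ch_rep 1 (n + 1)⟩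
        obtain ⟨w, hw⟩ := h
        exact absurd hw (gs_not_mem w)
    | succ m ih =>
      obtain ⟨g, l, h1, h2, h3⟩ := ih
      refine ⟨1, (-1, g) :: l, List.isChain_cons_cons.mpr ⟨fun _ => rfl, h1⟩, by simpa using h2, ?_⟩
      rw [pow_succ t (m + 1), mul_inv_rev, mul_assoc, ← h3]
      simp [pr]
  obtain ⟨g, l, h1, h2, h3⟩ := key n
  have h4 := length_le_len 1 _ h1
  rw [h3] at h4
  have : dd (ray 0 (n + 1)) (ray 2 (n + 1)) = len ((t ^ (n + 1))⁻¹ * (of gs * t ^ n)) := by
    simp only [dd, ray]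
    simp [← zpow_natCast]
  simp only [List.length_cons] at h4
  omega

theorem ray_far (i j : Fin 3) (hij : i ≠ j) (B : ℝ) :
    ∃ u : ℕ, B < ((dd (ray i u) (ray j u) : ℕ) : ℝ) := by
  obtain ⟨n, hn⟩ := exists_nat_gt B
  refine ⟨n + 1, lt_of_lt_of_le hn ?_⟩
  have h01 := chi_le_dd (ray 0 (n + 1)) (ray 1 (n + 1))
  have h12 := chi_le_dd (ray 1 (n + 1)) (ray 2 (n + 1))
  have h02 := far02 n
  rw [chi_ray0, chi_ray1] at h01
  rw [chi_ray1, chi_ray2] at h12
  have e01 := dd_comm (ray 0 (n + 1)) (ray 1 (n + 1))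
  have e12 := dd_comm (ray 1 (n + 1)) (ray 2 (n + 1))
  have e02 := dd_comm (ray 0 (n + 1)) (ray 2 (n + 1))
  have : n ≤ dd (ray i (n + 1)) (ray j (n + 1)) := by
    fin_cases i <;> fin_cases j <;> simp only [Fin.zero_eta, Fin.mk_one, Fin.reduceFinMk] at hij ⊢
    all_goals first | exact absurd rfl hij | omega
  exact_mod_cast this

end Pool.Agent.Lib.MP_fdd6ec_al
end
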