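import Pool.Agent.Lib.MP_fdd6ec_al.BCay
import Pool.Agent.Lib.MP_fdd6ec_al.Rays

set_option autoImplicit false

open scoped NNReal
open Filter

namespace Pool.Agent.Lib.MP_fdd6ec_al.B

theorem tri (g h k : GG) : (dd g k : ℝ) ≤ dd g h + dd h k := by exact_mod_cast dd_tri g h k
theorem cmm (g h : GG) : (dd g h : ℝ) = dd h g := by rw [dd_comm]

theorem morse_near (i : Fin 3) (L C D : ℝ) (hL : 1 ≤ L) (hC : 0 ≤ C) (hD : 0 ≤ D) : ∃ M : ℝ,
    ∀ (a b m : ℕ) (q : ℕ → GG), (dd (q 0) (ray i a) : ℝ) ≤ D → (dd (q m) (ray i b) : ℝ) ≤ D →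
      QG L C m q → ∀ s : ℕ, s ≤ m → ∃ u : ℕ, (dd (q s) (ray i u) : ℝ) ≤ M := by
  obtain ⟨M, hM⟩ := ray_morse i L (C + 2 * D) hL (by linarith)
  refine ⟨max M 0 + D, fun a b m q ha hb hq s hs => ?_⟩
  rcases Nat.eq_zero_or_pos m with rfl | hm
  · obtain rfl : s = 0 := by omega
    exact ⟨a, by linarith [le_max_right M 0]⟩
  let Q : ℕ → GG := fun k => if k = 0 then ray i a else if k = m then ray i b else q k
  have hQ : ∀ k, (dd (q k) (Q k) : ℝ) ≤ D := by
    intro k
    simp only [Q]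
    split_ifs with h1 h2
    · rwa [h1]
    · rwa [h2]
    · simpa [dd_self] using hD
  obtain ⟨u, hu⟩ := hM a b m Q (by simp [Q]) (by simp [Q, hm.ne']) (fun s t hs ht => by
    have := hq s t hs ht
    constructor
    · linarith [this.1, hQ s, hQ t, tri (q s) (Q s) (q t), tri (Q s) (Q t) (q t), cmm (Q t) (q t)]
    · linarith [this.2, hQ s, hQ t, tri (Q s) (q s) (Q t), tri (q s) (q t) (Q t), cmm (Q s) (q s)])
    s hs
  exact ⟨u, by linarith [tri (q s) (Q s) (ray i u), hQ s, le_max_left M 0]⟩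

variable {S : Set GG} (hS : Subgroup.closure S = ⊤)

include hS in
theorem nonempty_S : Nonempty S := by
  by_contra h
  rw [not_nonempty_iff, Set.isEmpty_coe_sort] at h
  rw [h, Subgroup.closure_empty] at hS
  have h1 : ray 0 1 ∈ (⊥ : Subgroup GG) := by rw [hS]; trivial
  have h2 := chi_ray0 1
  rw [Subgroup.mem_bot.mp h1, chi_one] at h2
  simp at h2

theorem bilip (hf : S.Finite) : ∃ L : ℝ, 1 ≤ L ∧ ∀ g h : GG,
    (dd g h : ℝ) ≤ L * dist (vtx S hS g) (vtx S hS h) ∧
      dist (vtx S hS g) (vtx S hS h) ≤ L * dd g h := by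
  have := nonempty_S hS
  obtain ⟨A, hA⟩ := (hf.image fun s => (len s : ℝ)).bddAbove
  choose ω m hω _ using fun x => exists_geodesic hS (ltr x)
  obtain ⟨A', hA'⟩ := (Set.finite_range fun x => (m x : ℝ)).bddAbove
  set L := max 1 (max A A') with hL
  have h1 : 1 ≤ L := le_max_left _ _
  refine ⟨L, h1, fun g h => ⟨?_, ?_⟩⟩
  · have := lip hS (fun x => (dd g x : ℝ)) (lt_of_lt_of_le one_pos h1) (fun x s hs => by
      have a : (len s : ℝ) ≤ A := hA ⟨s, hs, rfl⟩
      have b : A ≤ L := (le_max_left _ _).trans (le_max_right _ _)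
      have c : (dd x (x * s) : ℝ) = len s := by rw [dd_mul_right]
      rw [abs_le]
      constructor <;> linarith [tri g x (x * s), tri g (x * s) x, cmm x (x * s)]) g h
    simpa [dd_self] using this
  · obtain ⟨W, -, hW⟩ := exists_word (g⁻¹ * h)
    have key : ∀ r : ℕ, dist (vtx S hS g) (vtx S hS (g * pre W r)) ≤ L * r := by
      intro r
      induction r with
      | zero => simp [pre_zero]
      | succ r ih =>
        push_cast
        rcases pre_step g W r with e | ⟨x, e⟩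
        · rw [e]; linarith
        · have a := dist_wd hS (g * pre W r) (ω x) (Nat.zero_le (m x))
          have b : (m x : ℝ) ≤ A' := hA' ⟨x, rfl⟩
          have c : A' ≤ L := (le_max_right _ _).trans (le_max_right _ _)
          rw [hω x, ← e] at a
          simp only [wd, mul_one, Nat.cast_zero, sub_zero] at a
          linarith [dist_triangle (vtx S hS g) (vtx S hS (g * pre W r))
            (vtx S hS (g * pre W (r + 1)))]
    have := key (len (g⁻¹ * h))
    rwa [hW _ le_rfl, mul_inv_cancel_left] at this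

/-- A geodesic ray of the Cayley graph for `S` at bounded distance from the `i`-th ray. -/
theorem exists_word_ray (hf : S.Finite) (i : Fin 3) : ∃ (ω : ℕ → S × Bool) (M : ℝ), 0 ≤ M ∧
    (∀ j k : ℕ, dist (vtx S hS (wd ω j)) (vtx S hS (wd ω k)) = |(j : ℝ) - k|) ∧
    (∀ j, ∃ u, (dd (wd ω j) (ray i u) : ℝ) ≤ M) ∧ (∀ u, ∃ j, (dd (wd ω j) (ray i u) : ℝ) ≤ M) := by
  have := nonempty_S hS
  have : Finite S := hf
  obtain ⟨L, hL, hb⟩ := bilip hS hf
  have hL0 : 0 < L := by linarith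
  choose w m hw hg using fun k => exists_geodesic hS (ray i k)
  obtain ⟨M, hM⟩ := ray_morse i L 0 hL le_rfl
  have near : ∀ k s, s ≤ m k → ∃ u, (dd (wd (w k) s) (ray i u) : ℝ) ≤ M := fun k =>
    hM 0 k (m k) (wd (w k)) (ray_zero i).symm (hw k) fun s t hs ht => by
      have := hb (wd (w k) s) (wd (w k) t)
      rw [hg k s t hs ht] at this
      exact ⟨by rw [sub_zero, div_le_iff₀' hL0]; exact this.2, by linarith [this.1]⟩
  have big : ∀ k : ℕ, (k : ℝ) ≤ L * m k := by
    intro k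
    have a := (hb (wd (w k) 0) (wd (w k) (m k))).1
    rw [hg k 0 (m k) (Nat.zero_le _) le_rfl, hw k, show wd (w k) 0 = ray i 0 from (ray_zero i).symm,
      ray_geo] at a
    simpa using a
  have lim : ∀ r, ∃ x, ∀ᶠ k in (hyperfilter ℕ : Filter ℕ), w k r = x := fun r =>
    Ultrafilter.eventually_exists_iff.mp (Eventually.of_forall fun k => ⟨_, rfl⟩)
  choose ω hω using lim
  have agree : ∀ R : ℕ, ∃ k, R ≤ m k ∧ ∀ j ≤ R, wd ω j = wd (w k) j := by
    intro R
    have e1 : ∀ᶠ k in (hyperfilter ℕ : Filter ℕ), ∀ r ∈ Finset.range R, w k r = ω r :=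
      (eventually_all_finset _).mpr fun r _ => hω r
    have e2 : ∀ᶠ k in (hyperfilter ℕ : Filter ℕ), ⌈L * R⌉₊ ≤ k :=
      (eventually_ge_atTop _).filter_mono Nat.hyperfilter_le_atTop
    obtain ⟨k, h1, h2⟩ := (e1.and e2).exists
    refine ⟨k, ?_, fun j hj => wd_congr fun r hr =>
      (h1 r (Finset.mem_range.mpr (by omega))).symm⟩
    have : L * R ≤ L * m k := (Nat.ceil_le.mp h2).trans (big k)
    exact_mod_cast le_of_mul_le_mul_left this hL0
  have geo : ∀ j k : ℕ, dist (vtx S hS (wd ω j)) (vtx S hS (wd ω k)) = |(j : ℝ) - k| := by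
    intro j k
    obtain ⟨n, h1, h2⟩ := agree (max j k)
    rw [h2 j (le_max_left _ _), h2 k (le_max_right _ _)]
    exact hg n j k ((le_max_left _ _).trans h1) ((le_max_right _ _).trans h1)
  have nr : ∀ j, ∃ u, (dd (wd ω j) (ray i u) : ℝ) ≤ M := by
    intro j
    obtain ⟨n, h1, h2⟩ := agree j
    rw [h2 j le_rfl]
    exact near n j h1
  choose u hu using nr
  have hM0 : 0 ≤ M := (Nat.cast_nonneg _).trans (hu 0)
  refine ⟨ω, 3 * M + L, by linarith, geo, fun j => ⟨u j, by linarith [hu j]⟩, fun v => ?_⟩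
  have z : ∀ v : ℕ, (dd (wd ω 0) (ray i v) : ℝ) = v := by
    intro v
    rw [show wd ω 0 = ray i 0 from (ray_zero i).symm, ray_geo]
    simp
  have ex : ∃ j, v ≤ u j := by
    obtain ⟨j, hj⟩ := exists_nat_ge (L * (v + M))
    refine ⟨j, ?_⟩
    have a := (hb (wd ω 0) (wd ω j)).2
    rw [geo] at a
    simp only [Nat.cast_zero, zero_sub, abs_neg, Nat.abs_cast] at a
    have b := le_of_mul_le_mul_left (hj.trans a) hL0
    have c : (v : ℝ) ≤ u j := by
      linarith [tri (wd ω 0) (ray i (u j)) (wd ω j), cmm (wd ω j) (ray i (u j)), hu j, z (u j)]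
    exact_mod_cast c
  classical
  have h1 := Nat.find_spec ex
  have h1' : (v : ℝ) ≤ u (Nat.find ex) := by exact_mod_cast h1
  rcases Nat.eq_zero_or_pos (Nat.find ex) with h0 | h0
  · rw [h0] at h1'
    exact ⟨0, by linarith [z v, z (u 0), hu 0]⟩
  · obtain ⟨j, hj⟩ : ∃ j, Nat.find ex = j + 1 := ⟨_, (Nat.succ_pred_eq_of_pos h0).symm⟩
    have h2 : (u j : ℝ) < v := by exact_mod_cast not_le.mp (Nat.find_min ex (by omega))
    rw [hj] at h1'
    have a := (hb (wd ω j) (wd ω (j + 1))).1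
    rw [geo] at a
    simp only [Nat.cast_add, Nat.cast_one, sub_add_cancel_left, abs_neg, abs_one, mul_one] at a
    have b := ray_geo i (u j) (u (j + 1))
    have c := ray_geo i (u j) v
    rw [abs_of_nonpos (by linarith)] at b c
    refine ⟨j, ?_⟩
    linarith [tri (wd ω j) (ray i (u j)) (ray i v), hu j, hu (j + 1),
      tri (ray i (u j)) (wd ω j) (ray i (u (j + 1))), cmm (wd ω j) (ray i (u j)),
      tri (wd ω j) (wd ω (j + 1)) (ray i (u (j + 1)))]

theorem exists_morse_ray (hf : S.Finite) (i : Fin 3) :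
    ∃ (γ : MorseRay (vtx S hS 1)) (M : ℝ),
      (∀ t, ∃ u, dist (γ.1 t) (vtx S hS (ray i u)) ≤ M) ∧
      (∀ u, ∃ t, dist (γ.1 t) (vtx S hS (ray i u)) ≤ M) := by
  obtain ⟨L, hL, hb⟩ := bilip hS hf
  have hL0 : 0 < L := by linarith
  obtain ⟨ω, M, hM0, geo, n1, n2⟩ := exists_word_ray hS hf i
  choose E h0 h1 hE using fun k => exists_edge hS (wd ω k) (ω k)
  obtain ⟨γ, hγ, hv, hn⟩ := exists_ray (fun k => vtx S hS (wd ω k)) geo E h0 h1 hE
  have a1 : ∀ t, ∃ u, dist (γ t) (vtx S hS (ray i u)) ≤ L * M + 1 := by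
    intro t
    obtain ⟨k, hk⟩ := hn t
    obtain ⟨u, hu⟩ := n1 k
    refine ⟨u, ?_⟩
    linarith [dist_triangle (γ t) (vtx S hS (wd ω k)) (vtx S hS (ray i u)),
      (hb (wd ω k) (ray i u)).2, mul_le_mul_of_nonneg_left hu hL0.le]
  have a2 : ∀ u, ∃ t, dist (γ t) (vtx S hS (ray i u)) ≤ L * M + 1 := by
    intro u
    obtain ⟨k, hk⟩ := n2 u
    refine ⟨k, ?_⟩
    rw [hv]
    linarith [(hb (wd ω k) (ray i u)).2, mul_le_mul_of_nonneg_left hk hL0.le]
  refine ⟨⟨γ, hγ, by simpa [wd] using hv 0, ?_⟩, L * M + 1, a1, a2⟩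
  choose π hπ using near_vtx hS
  have main : ∀ K C : ℝ, ∃ N : ℝ, 1 ≤ K → 0 ≤ C → ∀ (a b : ℝ) (q : ℝ → Cay S hS), a ≤ b →
      QuasiGeodesic K C a b q → q a ∈ Set.range γ → q b ∈ Set.range γ →
      ∀ s ∈ Set.Icc a b, Metric.infDist (q s) (Set.range γ) ≤ N := by
    intro K C
    by_cases hKC : 1 ≤ K ∧ 0 ≤ C
    swap
    · exact ⟨0, fun a b => absurd ⟨a, b⟩ hKC⟩
    obtain ⟨hK, hC⟩ := hKC
    have hK0 : 0 < K := by linarith
    obtain ⟨M', hM'⟩ := morse_near i (L * K) (L * (C + 3)) (L * (L * M + 2))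
      (one_le_mul_of_one_le_of_one_le hL hK) (by positivity) (by positivity)
    refine ⟨K + C + 1 + L * M' + (L * M + 1), fun _ _ a b q hab hq ha hb' s hs => ?_⟩
    set m := ⌈b - a⌉₊ with hm
    let T : ℕ → ℝ := fun k => min (a + k) b
    have hT : ∀ k, T k ∈ Set.Icc a b := fun k =>
      ⟨le_min (by linarith [Nat.cast_nonneg (α := ℝ) k]) hab, min_le_right _ _⟩
    have hT1 : ∀ k ≤ m, T k ≤ a + k ∧ a + k - 1 ≤ T k := by
      intro k hk
      have b1 : (k : ℝ) ≤ m := by exact_mod_cast hk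
      have b2 : (m : ℝ) < b - a + 1 := Nat.ceil_lt_add_one (by linarith)
      exact ⟨min_le_left _ _, le_min (by linarith) (by linarith)⟩
    have ends : ∀ y ∈ Set.range γ, ∃ u, (dd (π y) (ray i u) : ℝ) ≤ L * (L * M + 2) := by
      rintro _ ⟨t, rfl⟩
      obtain ⟨u, hu⟩ := a1 t
      refine ⟨u, (hb _ _).1.trans (mul_le_mul_of_nonneg_left ?_ hL0.le)⟩
      linarith [dist_triangle_left (vtx S hS (π (γ t))) (vtx S hS (ray i u)) (γ t), hπ (γ t)]
    obtain ⟨ua, hua⟩ := ends _ ha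
    obtain ⟨ub, hub⟩ := ends _ hb'
    have T0 : T 0 = a := by simp [T, hab]
    have Tm : T m = b := min_eq_right (by linarith [Nat.le_ceil (b - a)])
    have hk : ⌊s - a⌋₊ ≤ m := (Nat.floor_le_ceil _).trans (Nat.ceil_le_ceil (by linarith [hs.2]))
    obtain ⟨u, hu⟩ := hM' ua ub m (fun k => π (q (T k))) (by simpa [T0] using hua)
      (by simpa [Tm] using hub) (fun k l hk hl => by
        have c := hq _ (hT k) _ (hT l)
        have d := hb (π (q (T k))) (π (q (T l)))
        have e1 : |T k - T l| ≤ |(k : ℝ) - l| := by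
          have := abs_min_sub_min_le_max (a + k) b (a + l) b
          simpa [T] using this
        have e2 : |(k : ℝ) - l| ≤ |T k - T l| + 1 := by
          have := hT1 k hk
          have := hT1 l hl
          rw [abs_le]
          constructor <;> linarith [le_abs_self (T k - T l), neg_abs_le (T k - T l)]
        have t1 := dist_triangle4 (q (T k)) (vtx S hS (π (q (T k)))) (vtx S hS (π (q (T l))))
          (q (T l))
        have t2 := dist_triangle4 (vtx S hS (π (q (T k)))) (q (T k)) (q (T l))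
          (vtx S hS (π (q (T l))))
        have p1 := hπ (q (T k))
        have p2 := hπ (q (T l))
        rw [dist_comm (vtx S hS (π (q (T l))))] at t1
        rw [dist_comm (vtx S hS (π (q (T k)))) (q (T k))] at t2
        constructor
        · have f1 : |(k : ℝ) - l| / K ≤ |T k - T l| / K + 1 := by
            rw [div_add_one hK0.ne']
            exact div_le_div_of_nonneg_right (by linarith) hK0.le
          have f2 : |(k : ℝ) - l| / K ≤ L * (dd (π (q (T k))) (π (q (T l))) + (C + 3)) := by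
            nlinarith [c.1, d.2]
          have f3 : |(k : ℝ) - l| / (L * K) ≤ dd (π (q (T k))) (π (q (T l))) + (C + 3) := by
            rw [mul_comm L K, ← div_div, div_le_iff₀' hL0]
            exact f2
          nlinarith
        · have f1 : dist (vtx S hS (π (q (T k)))) (vtx S hS (π (q (T l)))) ≤
              K * |(k : ℝ) - l| + (C + 3) := by
            linarith [c.2, mul_le_mul_of_nonneg_left e1 hK0.le]
          nlinarith [d.1, mul_le_mul_of_nonneg_left f1 hL0.le]) _ hk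
    obtain ⟨t, ht⟩ := a2 u
    have f1 : (⌊s - a⌋₊ : ℝ) ≤ s - a := Nat.floor_le (by linarith [hs.1])
    have f2 := Nat.lt_floor_add_one (s - a)
    have Tk : T ⌊s - a⌋₊ = a + ⌊s - a⌋₊ := min_eq_left (by linarith [hs.2])
    have c := (hq s hs _ (hT ⌊s - a⌋₊)).2
    have e : |s - T ⌊s - a⌋₊| ≤ 1 := by rw [Tk, abs_le]; constructor <;> linarith
    refine (Metric.infDist_le_dist_of_mem (Set.mem_range_self t)).trans ?_
    linarith [dist_triangle4 (q s) (q (T ⌊s - a⌋₊)) (vtx S hS (π (q (T ⌊s - a⌋₊)))) (γ t),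
      dist_triangle_right (vtx S hS (π (q (T ⌊s - a⌋₊)))) (γ t) (vtx S hS (ray i u)),
      hπ (q (T ⌊s - a⌋₊)), (hb (π (q (T ⌊s - a⌋₊))) (ray i u)).2,
      mul_le_mul_of_nonneg_left hu hL0.le, mul_le_mul_of_nonneg_left e hK0.le]
  choose N hN using main
  exact ⟨N, hN⟩

theorem three_le (hf : S.Finite) : 3 ≤ ENat.card (MorseBoundary (vtx S hS 1)) := by
  obtain ⟨L, hL, hb⟩ := bilip hS hf
  have hL0 : 0 < L := by linarith
  choose γ M h1 h2 using exists_morse_ray hS hf
  have inj : Function.Injective fun i => (Quotient.mk (asymptotic _) (γ i) :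
      MorseBoundary (vtx S hS 1)) := by
    intro i j hij
    by_contra hne
    have hH : Metric.hausdorffEDist (Set.range (γ i).1) (Set.range (γ j).1) ≠ ⊤ :=
      Quotient.exact hij
    set D := Metric.hausdorffDist (Set.range (γ i).1) (Set.range (γ j).1) + 1 with hD
    obtain ⟨u, hu⟩ := ray_far i j hne (2 * (L * (M i + D + M j)))
    obtain ⟨t, ht⟩ := h2 i u
    obtain ⟨_, ⟨t', rfl⟩, ht'⟩ := Metric.exists_dist_lt_of_hausdorffDist_lt
      (Set.mem_range_self (f := (γ i).1) t) (lt_add_one _) hH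
    obtain ⟨v, hv⟩ := h1 j t'
    have a : (dd (ray i u) (ray j v) : ℝ) ≤ L * (M i + D + M j) := by
      refine (hb _ _).1.trans (mul_le_mul_of_nonneg_left ?_ hL0.le)
      linarith [dist_triangle4 (vtx S hS (ray i u)) ((γ i).1 t) ((γ j).1 t') (vtx S hS (ray j v)),
        dist_comm (vtx S hS (ray i u)) ((γ i).1 t)]
    have z : ∀ (i : Fin 3) (v : ℕ), (dd 1 (ray i v) : ℝ) = v := by
      intro i v
      rw [← ray_zero i, ray_geo]
      simp
    have b : (dd (ray j v) (ray j u) : ℝ) ≤ dd (ray i u) (ray j v) := by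
      rw [ray_geo, abs_le]
      constructor <;> linarith [tri 1 (ray i u) (ray j v), tri 1 (ray j v) (ray i u), z i u, z j v,
        cmm (ray i u) (ray j v)]
    linarith [tri (ray i u) (ray j v) (ray j u)]
  have := ENat.card_le_card_of_injective inj
  rw [ENat.card_eq_coe_fintype_card, Fintype.card_fin] at this
  exact this

end Pool.Agent.Lib.MP_fdd6ec_al.B
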