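import Mathlib

-- part Pool.Agent.Lib.MP_fdd6ec_al.Lamp
section

set_option autoImplicit false

namespace Pool.Agent.Lib.MP_fdd6ec_al

abbrev K := GaussianInt

noncomputable def nm (k : K) : ℝ := ‖(GaussianInt.toComplex k : ℂ)‖

def pp : K := ⟨2, 1⟩
def pb : K := ⟨2, -1⟩
def ii : K := ⟨0, 1⟩

theorem nm_nonneg (k : K) : 0 ≤ nm k := norm_nonneg _
@[simp] theorem nm_zero : nm 0 = 0 := by simp [nm]
theorem nm_add_le (k l : K) : nm (k + l) ≤ nm k + nm l := by
  simp only [nm, map_add]; exact norm_add_le _ _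
@[simp] theorem nm_neg (k : K) : nm (-k) = nm k := by simp [nm]
theorem nm_mul (k l : K) : nm (k * l) = nm k * nm l := by simp [nm]
theorem nm_sq (k : K) : nm k ^ 2 = (k.norm : ℝ) := by
  rw [GaussianInt.intCast_real_norm, nm, Complex.sq_norm]
theorem nm_pow (k : K) (n : ℕ) : nm (k ^ n) = nm k ^ n := by simp [nm]
theorem nm_pp_sq : nm pp ^ 2 = 5 := by rw [nm_sq]; norm_num [pp, Zsqrtd.norm]
theorem nm_pb_sq : nm pb ^ 2 = 5 := by rw [nm_sq]; norm_num [pb, Zsqrtd.norm]
theorem nm_pp_eq : nm pp = nm pb := by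
  have := nm_pp_sq; have := nm_pb_sq
  nlinarith [nm_nonneg pp, nm_nonneg pb]
theorem nm_pp_ge : 2 ≤ nm pp := by
  have := nm_pp_sq; nlinarith [nm_nonneg pp]
theorem nm_pp_le : nm pp ≤ 3 := by
  have := nm_pp_sq; nlinarith [nm_nonneg pp]
theorem abs_re_le (k : K) : |(k.re : ℝ)| ≤ nm k := by
  rw [GaussianInt.intCast_re]; exact Complex.abs_re_le_norm _
theorem abs_im_le (k : K) : |(k.im : ℝ)| ≤ nm k := by
  rw [GaussianInt.intCast_im]; exact Complex.abs_im_le_norm _
theorem one_le_nm {k : K} (h : k ≠ 0) : 1 ≤ nm k := by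
  have h1 : (1 : ℝ) ≤ (k.norm : ℝ) := by
    have := GaussianInt.norm_pos.mpr h
    exact_mod_cast this
  have := nm_sq k
  nlinarith [nm_nonneg k]
theorem nm_one : nm 1 = 1 := by simp [nm]
theorem nm_ii : nm ii = 1 := by
  have : nm ii ^ 2 = 1 := by rw [nm_sq]; simp [ii, Zsqrtd.norm]
  nlinarith [nm_nonneg ii]
theorem pp_ne : pp ≠ 0 := by decide
theorem pb_ne : pb ≠ 0 := by decide
theorem pp_mul_pb : pp * pb = 5 := by decide
theorem coprime_pb_pp : IsCoprime pb pp := ⟨⟨1, 1⟩, ⟨-1, 0⟩, by decide⟩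

/-- Shift of a finitely supported configuration. -/
noncomputable def sh (j : ℤ) (f : ℤ →₀ K) : ℤ →₀ K := Finsupp.equivMapDomain (Equiv.addRight j) f

@[simp] theorem sh_apply (j : ℤ) (f : ℤ →₀ K) (n : ℤ) : sh j f n = f (n - j) := by
  simp [sh, sub_eq_add_neg]

theorem sh_single (j n : ℤ) (k : K) : sh j (Finsupp.single n k) = Finsupp.single (n + j) k := by
  simp [sh, Finsupp.equivMapDomain_single]

theorem sh_add (j : ℤ) (f g : ℤ →₀ K) : sh j (f + g) = sh j f + sh j g := by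
  ext1 n; simp

@[simp] theorem sh_zero (j : ℤ) : sh j 0 = 0 := by ext1 n; simp
@[simp] theorem zero_sh (f : ℤ →₀ K) : sh 0 f = f := by ext1 n; simp

/-- The wreath product of the Gaussian integers with the integers. -/
@[ext] structure Wr where
  f : ℤ →₀ K
  j : ℤ

noncomputable instance : Mul Wr := ⟨fun a b => ⟨a.f + sh a.j b.f, a.j + b.j⟩⟩
noncomputable instance : One Wr := ⟨⟨0, 0⟩⟩
noncomputable instance : Inv Wr := ⟨fun a => ⟨- sh (-a.j) a.f, -a.j⟩⟩
@[simp] theorem Wr.mul_f (a b : Wr) : (a * b).f = a.f + sh a.j b.f := rfl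
@[simp] theorem Wr.mul_j (a b : Wr) : (a * b).j = a.j + b.j := rfl
@[simp] theorem Wr.one_f : (1 : Wr).f = 0 := rfl
@[simp] theorem Wr.one_j : (1 : Wr).j = 0 := rfl
@[simp] theorem Wr.inv_f (a : Wr) : (a⁻¹).f = - sh (-a.j) a.f := rfl
@[simp] theorem Wr.inv_j (a : Wr) : (a⁻¹).j = - a.j := rfl

noncomputable instance : Group Wr :=
  Group.ofLeftAxioms
    (fun a b c => by
      ext1
      · ext1 n; simp [add_assoc, sub_sub]
      · simp [add_assoc])
    (fun a => by ext1 <;> simp)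
    (fun a => by ext1 <;> simp)

theorem Wr.zpow_T (j : ℤ) : (⟨0, 1⟩ : Wr) ^ j = ⟨0, j⟩ := by
  induction j using Int.induction_on with
  | zero => rfl
  | succ n ih => rw [zpow_add_one, ih]; ext1 <;> simp
  | pred n ih => rw [zpow_sub_one, ih]; ext1 <;> simp [sub_eq_add_neg]

theorem Wr.gen (S : Subgroup Wr) (h1 : (⟨Finsupp.single 0 1, 0⟩ : Wr) ∈ S)
    (h2 : (⟨Finsupp.single 0 ii, 0⟩ : Wr) ∈ S) (h3 : (⟨0, 1⟩ : Wr) ∈ S) (w : Wr) : w ∈ S := by
  have hT : ∀ j : ℤ, (⟨0, j⟩ : Wr) ∈ S := fun j => by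
    rw [← Wr.zpow_T]; exact S.zpow_mem h3 j
  have hz : ∀ (k : K), (⟨Finsupp.single 0 k, 0⟩ : Wr) ∈ S → ∀ z : ℤ,
      (⟨Finsupp.single 0 (z * k), 0⟩ : Wr) ∈ S := by
    intro k hk z
    induction z using Int.induction_on with
    | zero =>
      convert S.one_mem using 1
      ext1 <;> simp
    | succ n ih =>
      convert S.mul_mem ih hk using 1
      ext1 <;> simp [add_mul]
    | pred n ih =>
      convert S.mul_mem ih (S.inv_mem hk) using 1
      ext1 <;> simp [sub_eq_add_neg, add_mul]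
  have h0 : ∀ k : K, (⟨Finsupp.single 0 k, 0⟩ : Wr) ∈ S := by
    intro k
    convert S.mul_mem (hz 1 h1 k.re) (hz ii h2 k.im) using 1
    ext1
    · simp only [Wr.mul_f, zero_sh, ← Finsupp.single_add]
      congr 1
      ext <;> simp [ii]
    · simp
  have hf : ∀ f : ℤ →₀ K, (⟨f, 0⟩ : Wr) ∈ S := by
    intro f
    induction f using Finsupp.induction_linear with
    | zero => exact S.one_mem
    | add f g hf hg =>
      convert S.mul_mem hf hg using 1
      ext1 <;> simp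
    | single n k =>
      convert S.mul_mem (S.mul_mem (hT n) (h0 k)) (hT (-n)) using 1
      ext1 <;> simp [sh_single]
  convert S.mul_mem (hf w.f) (hT w.j) using 1
  ext1 <;> simp

section gen

variable {Γ : Type} [Group Γ]

open scoped IsMulCommutative in
theorem exists_lamp (lam : ℤ → K → Γ) (hadd : ∀ n k l, lam n (k + l) = lam n k * lam n l)
    (hcomm : ∀ n m k l, lam n k * lam m l = lam m l * lam n k) :
    ∃ L : (ℤ →₀ K) → Γ, (∀ f g, L (f + g) = L f * L g) ∧
      ∀ n k, L (Finsupp.single n k) = lam n k := by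
  let s : Set Γ := {g | ∃ n k, g = lam n k}
  have hs : ∀ x ∈ s, ∀ y ∈ s, x * y = y * x := by
    rintro _ ⟨n, k, rfl⟩ _ ⟨m, l, rfl⟩
    exact hcomm _ _ _ _
  have := Subgroup.isMulCommutative_closure hs
  let h : ℤ → (K →+ Additive (Subgroup.closure s)) := fun n =>
    AddMonoidHom.mk' (fun k => Additive.ofMul ⟨lam n k, Subgroup.subset_closure ⟨n, k, rfl⟩⟩)
      (fun k l => by
        rw [← ofMul_mul]
        congr 1
        exact Subtype.ext (hadd n k l))
  let L0 : (ℤ →₀ K) →+ Additive (Subgroup.closure s) := Finsupp.liftAddHom h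
  refine ⟨fun f => ((Additive.toMul (L0 f) : Subgroup.closure s) : Γ), fun f g => ?_,
    fun n k => ?_⟩
  · simp only [map_add, toMul_add, Subgroup.coe_mul]
  · simp only [L0, Finsupp.liftAddHom_apply_single, h]
    rfl

theorem exists_iota (t : Γ) (lam : ℤ → K → Γ) (hadd : ∀ n k l, lam n (k + l) = lam n k * lam n l)
    (hcomm : ∀ n m k l, lam n k * lam m l = lam m l * lam n k)
    (hsh : ∀ j n k, t ^ j * lam n k = lam (n + j) k * t ^ j) :
    ∃ ι : Wr →* Γ, (∀ n k, ι ⟨Finsupp.single n k, 0⟩ = lam n k) ∧ ∀ j : ℤ, ι ⟨0, j⟩ = t ^ j := by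
  obtain ⟨L, hL, hL1⟩ := exists_lamp lam hadd hcomm
  have hL0 : L 0 = 1 := by
    have := hL 0 0
    rw [add_zero] at this
    exact left_eq_mul.mp this
  have hc : ∀ (j : ℤ) f, t ^ j * L f = L (sh j f) * t ^ j := by
    intro j f
    induction f using Finsupp.induction_linear with
    | zero => simp [hL0]
    | add f g hf hg => rw [hL, sh_add, hL, ← mul_assoc, hf, mul_assoc, hg, mul_assoc]
    | single n k => rw [sh_single, hL1, hL1, hsh]
  refine ⟨MonoidHom.mk' (fun w => L w.f * t ^ w.j) (fun a b => ?_), fun n k => ?_, fun j => ?_⟩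
  · simp only [Wr.mul_f, Wr.mul_j, hL, zpow_add]
    rw [mul_assoc (L a.f), mul_assoc (L a.f), ← mul_assoc (t ^ a.j), hc, mul_assoc]
  · simp [hL1]
  · simp [hL0]

end gen

/-- A size function on the wreath product. -/
noncomputable def sz (w : Wr) : ℝ :=
  (∑ n ∈ w.f.support, nm (w.f n)) + |(w.j : ℝ)| + ((w.f.support.sup Int.natAbs : ℕ) : ℝ)

theorem sz_one : sz 1 = 0 := by simp [sz]

theorem sz_nonneg (w : Wr) : 0 ≤ sz w := by
  unfold sz
  have := Finset.sum_nonneg (s := w.f.support) (fun n _ => nm_nonneg (w.f n))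
  positivity

theorem sum_le_supp (f : ℤ →₀ K) (s : Finset ℤ) :
    ∑ n ∈ s, nm (f n) ≤ ∑ n ∈ f.support, nm (f n) := by
  classical
  rw [← Finset.sum_filter_add_sum_filter_not s (fun n => n ∈ f.support)]
  have h1 : ∑ n ∈ s.filter (fun n => ¬ n ∈ f.support), nm (f n) = 0 := by
    apply Finset.sum_eq_zero
    intro n hn
    rw [Finset.mem_filter, Finsupp.notMem_support_iff] at hn
    rw [hn.2, nm_zero]
  rw [h1, add_zero]
  apply Finset.sum_le_sum_of_subset_of_nonneg
  · intro n hn; exact (Finset.mem_filter.mp hn).2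
  · intro n _ _; exact nm_nonneg _

theorem nm_le_sz (w : Wr) (n : ℤ) : nm (w.f n) ≤ sz w := by
  have := sum_le_supp w.f {n}
  rw [Finset.sum_singleton] at this
  unfold sz
  have h1 : (0 : ℝ) ≤ ((w.f.support.sup Int.natAbs : ℕ) : ℝ) := by positivity
  linarith [abs_nonneg (w.j : ℝ)]

theorem sz_le {w : Wr} {r1 r2 r3 : ℝ} (h1 : ∑ n ∈ w.f.support, nm (w.f n) ≤ r1)
    (h2 : |(w.j : ℝ)| ≤ r2) (h3 : 0 ≤ r3) (h4 : ∀ n, w.f n ≠ 0 → |(n : ℝ)| ≤ r3) :
    sz w ≤ r1 + r2 + r3 := by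
  have : ((w.f.support.sup Int.natAbs : ℕ) : ℝ) ≤ r3 := by
    have h5 : w.f.support.sup Int.natAbs ≤ ⌊r3⌋₊ := by
      apply Finset.sup_le
      intro n hn
      apply Nat.le_floor
      have := h4 n (Finsupp.mem_support_iff.mp hn)
      rw [Nat.cast_natAbs, Int.cast_abs]
      exact this
    exact le_trans (by exact_mod_cast h5) (Nat.floor_le h3)
  unfold sz
  linarith

theorem len_iota {Γ : Type} [Group Γ] (len : Γ → ℝ) (hmul : ∀ g h, len (g * h) ≤ len g + len h)
    (h1 : len 1 = 0) (ι : Wr →* Γ) (ht : len (ι ⟨0, 1⟩) ≤ 1) (ht' : len (ι ⟨0, 1⟩)⁻¹ ≤ 1)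
    {c : ℝ} (hc : 4 ≤ c) (hl : ∀ k, len (ι ⟨Finsupp.single 0 k, 0⟩) ≤ c * nm k) (w : Wr) :
    len (ι w) ≤ c * sz w + 2 := by
  have hT : ∀ j : ℤ, len (ι ⟨0, j⟩) ≤ |(j : ℝ)| := by
    intro j
    induction j using Int.induction_on with
    | zero => simp only [Int.cast_zero, abs_zero]; rw [← h1, ← map_one ι]; rfl
    | succ n ih =>
      rw [← Wr.zpow_T, zpow_add_one, Wr.zpow_T, map_mul]
      have := hmul (ι ⟨0, n⟩) (ι ⟨0, 1⟩)
      push_cast at ih ⊢
      rw [abs_of_nonneg (by positivity)] at ih ⊢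
      linarith
    | pred n ih =>
      rw [← Wr.zpow_T, zpow_sub_one, Wr.zpow_T, map_mul, map_inv]
      have := hmul (ι ⟨0, -n⟩) (ι ⟨0, 1⟩)⁻¹
      have h0 : (0 : ℝ) ≤ n := by positivity
      push_cast at ih ⊢
      rw [abs_of_nonpos (by linarith)] at ih ⊢
      linarith
  have key : ∀ (lo : ℤ) (N : ℕ), len (ι ⟨∑ i ∈ Finset.range N,
      Finsupp.single (i : ℤ) (w.f (lo + i)), N⟩) ≤
        N + c * ∑ i ∈ Finset.range N, nm (w.f (lo + i)) := by
    intro lo N
    induction N with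
    | zero => simp only [Finset.range_zero, Finset.sum_empty]; simpa using hT 0
    | succ N ih =>
      have e : (⟨∑ i ∈ Finset.range (N + 1), Finsupp.single (i : ℤ) (w.f (lo + i)), (N + 1 : ℕ)⟩ : Wr)
          = (⟨∑ i ∈ Finset.range N, Finsupp.single (i : ℤ) (w.f (lo + i)), N⟩ : Wr) *
            ⟨Finsupp.single 0 (w.f (lo + N)), 0⟩ * ⟨0, 1⟩ := by
        ext1
        · simp [Finset.sum_range_succ, sh_single]
        · simp
      rw [e, map_mul, map_mul, Finset.sum_range_succ]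
      have a1 := hmul (ι ⟨∑ i ∈ Finset.range N, Finsupp.single (i : ℤ) (w.f (lo + i)), N⟩ *
        ι ⟨Finsupp.single 0 (w.f (lo + N)), 0⟩) (ι ⟨0, 1⟩)
      have a2 := hmul (ι ⟨∑ i ∈ Finset.range N, Finsupp.single (i : ℤ) (w.f (lo + i)), N⟩)
        (ι ⟨Finsupp.single 0 (w.f (lo + N)), 0⟩)
      have a3 := hl (w.f (lo + N))
      push_cast
      linarith
  set R : ℕ := w.f.support.sup Int.natAbs with hR
  have hsupp : ∀ n, w.f n ≠ 0 → n.natAbs ≤ R := fun n hn =>
    Finset.le_sup (f := Int.natAbs) (Finsupp.mem_support_iff.mpr hn)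
  have e : w = (⟨0, -(R : ℤ)⟩ : Wr) * ⟨∑ i ∈ Finset.range (2 * R + 1),
      Finsupp.single (i : ℤ) (w.f (-(R : ℤ) + i)), (2 * R + 1 : ℕ)⟩ * ⟨0, w.j - R - 1⟩ := by
    ext1
    · ext1 n
      simp only [Wr.mul_f, sh_zero, add_zero, zero_add, sh_apply, Finsupp.finsetSum_apply,
        Finsupp.single_apply]
      by_cases hn : w.f n = 0
      · rw [hn]; symm
        apply Finset.sum_eq_zero
        intro i _
        split_ifs with h
        · rw [h, ← hn]; congr 1; ring
        · rfl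
      · have := hsupp n hn
        rw [Finset.sum_eq_single (n + R).toNat]
        · rw [if_pos (by omega)]; congr 1; omega
        · intro i _ hi; rw [if_neg (by omega)]
        · intro h; exfalso; apply h; rw [Finset.mem_range]; omega
    · simp; ring
  have k1 := key (-(R : ℤ)) (2 * R + 1)
  have k2 : ∑ i ∈ Finset.range (2 * R + 1), nm (w.f (-(R : ℤ) + i)) ≤
      ∑ n ∈ w.f.support, nm (w.f n) := by
    have := sum_le_supp w.f ((Finset.range (2 * R + 1)).image (fun i : ℕ => -(R : ℤ) + i))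
    rw [Finset.sum_image (fun a _ b _ h => by simpa using h)] at this
    exact this
  have k3 := hT (-(R : ℤ))
  have k4 := hT (w.j - R - 1)
  have k5 : |((w.j - R - 1 : ℤ) : ℝ)| ≤ |(w.j : ℝ)| + R + 1 := by
    push_cast
    have h0 : (0 : ℝ) ≤ R := by positivity
    rw [abs_le]; constructor <;> linarith [le_abs_self (w.j : ℝ), neg_abs_le (w.j : ℝ)]
  have k6 : |((-(R : ℤ) : ℤ) : ℝ)| = R := by simp
  have k7 := congrArg (fun z => len (ι z)) e
  simp only [map_mul] at k7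
  have a1 := hmul (ι ⟨0, -(R : ℤ)⟩ * ι ⟨∑ i ∈ Finset.range (2 * R + 1),
      Finsupp.single (i : ℤ) (w.f (-(R : ℤ) + i)), (2 * R + 1 : ℕ)⟩) (ι ⟨0, w.j - R - 1⟩)
  have a2 := hmul (ι ⟨0, -(R : ℤ)⟩) (ι ⟨∑ i ∈ Finset.range (2 * R + 1),
      Finsupp.single (i : ℤ) (w.f (-(R : ℤ) + i)), (2 * R + 1 : ℕ)⟩)
  have h0 : (0 : ℝ) ≤ R := by positivity
  have b1 := mul_le_mul_of_nonneg_left k2 (by linarith : (0 : ℝ) ≤ c)
  have b2 : 4 * (R : ℝ) ≤ c * R := mul_le_mul_of_nonneg_right hc h0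
  have b3 : |(w.j : ℝ)| ≤ c * |(w.j : ℝ)| := by nlinarith [abs_nonneg (w.j : ℝ)]
  unfold sz
  rw [← hR]
  push_cast at k1 k7 a1 a2 k3 k4 k5 k6 b1 ⊢
  nlinarith

end Pool.Agent.Lib.MP_fdd6ec_al
end

-- part Pool.Agent.Lib.MP_fdd6ec_al.Model
section

set_option autoImplicit false

namespace Pool.Agent.Lib.MP_fdd6ec_al

abbrev Om := ℤ × Bool

def s1 : Equiv.Perm Om where
  toFun w := if w.2 = true then w else (w.1 + 1, false)
  invFun w := if w.2 = true then w else (w.1 - 1, false)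
  left_inv := by rintro ⟨n, _ | _⟩ <;> simp
  right_inv := by rintro ⟨n, _ | _⟩ <;> simp

def s2 : Equiv.Perm Om where
  toFun w := if w.2 = true then (if w.1 < -1 then (w.1 + 1, true) else if w.1 = -1 then (0, false)
    else w) else (if 0 ≤ w.1 then (w.1 + 1, false) else w)
  invFun w := if w.2 = true then (if w.1 < 0 then (w.1 - 1, true) else w)
    else (if 1 ≤ w.1 then (w.1 - 1, false) else if w.1 = 0 then (-1, true) else w)
  left_inv := by
    rintro ⟨n, _ | _⟩ <;> simp only [] <;> split_ifs <;> simp_all <;> omega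
  right_inv := by
    rintro ⟨n, _ | _⟩ <;> simp only [] <;> split_ifs <;> simp_all <;> omega

theorem s1_apply (w : Om) : s1 w = if w.2 = true then w else (w.1 + 1, false) := rfl
theorem s1_inv_apply (w : Om) : s1⁻¹ w = if w.2 = true then w else (w.1 - 1, false) := rfl
theorem s2_apply (w : Om) : s2 w = if w.2 = true then (if w.1 < -1 then (w.1 + 1, true)
    else if w.1 = -1 then (0, false) else w) else (if 0 ≤ w.1 then (w.1 + 1, false) else w) := rfl
theorem s2_inv_apply (w : Om) : s2⁻¹ w = if w.2 = true then (if w.1 < 0 then (w.1 - 1, true) else w)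
    else (if 1 ≤ w.1 then (w.1 - 1, false) else if w.1 = 0 then (-1, true) else w) := rfl

def pos1 (n : ℤ) : Om := (n, false)
def pos2 (n : ℤ) : Om := (n, decide (n < 0))

noncomputable def dst (w : Om) : ℝ := |(w.1 : ℝ)|

/-- Lamp configurations, permutation part and two characters. -/
@[ext] structure Md where
  m : Om → K
  σ : Equiv.Perm Om
  c1 : ℤ
  c2 : ℤ

instance : Mul Md := ⟨fun a b => ⟨fun w => a.m w + b.m (a.σ⁻¹ w), a.σ * b.σ, a.c1 + b.c1,
  a.c2 + b.c2⟩⟩
instance : One Md := ⟨⟨fun _ => 0, 1, 0, 0⟩⟩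
instance : Inv Md := ⟨fun a => ⟨fun w => - a.m (a.σ w), a.σ⁻¹, -a.c1, -a.c2⟩⟩
@[simp] theorem Md.mul_m (a b : Md) (w : Om) : (a * b).m w = a.m w + b.m (a.σ⁻¹ w) := rfl
@[simp] theorem Md.mul_σ (a b : Md) : (a * b).σ = a.σ * b.σ := rfl
@[simp] theorem Md.mul_c1 (a b : Md) : (a * b).c1 = a.c1 + b.c1 := rfl
@[simp] theorem Md.mul_c2 (a b : Md) : (a * b).c2 = a.c2 + b.c2 := rfl
@[simp] theorem Md.one_m (w : Om) : (1 : Md).m w = 0 := rfl
@[simp] theorem Md.one_σ : (1 : Md).σ = 1 := rfl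
@[simp] theorem Md.one_c1 : (1 : Md).c1 = 0 := rfl
@[simp] theorem Md.one_c2 : (1 : Md).c2 = 0 := rfl
@[simp] theorem Md.inv_m (a : Md) (w : Om) : (a⁻¹).m w = - a.m (a.σ w) := rfl
@[simp] theorem Md.inv_σ (a : Md) : (a⁻¹).σ = a.σ⁻¹ := rfl
@[simp] theorem Md.inv_c1 (a : Md) : (a⁻¹).c1 = -a.c1 := rfl
@[simp] theorem Md.inv_c2 (a : Md) : (a⁻¹).c2 = -a.c2 := rfl

instance : Group Md :=
  Group.ofLeftAxioms
    (fun a b c => by
      ext1
      · funext w; simp [add_assoc]
      · simp [mul_assoc]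
      · simp [add_assoc]
      · simp [add_assoc])
    (fun a => by
      ext1
      · funext w; simp
      all_goals simp)
    (fun a => by
      ext1
      · funext w; simp
      all_goals simp)

def lampM (w : Om) (k : K) : Md := ⟨fun v => if v = w then k else 0, 1, 0, 0⟩

theorem lampM_add (w : Om) (k l : K) : lampM w (k + l) = lampM w k * lampM w l := by
  ext1
  · funext v; simp only [lampM, Md.mul_m, inv_one, Equiv.Perm.coe_one, id]; split_ifs <;> simp
  all_goals simp [lampM]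

theorem lampM_comm (w v : Om) (k l : K) : Commute (lampM w k) (lampM v l) := by
  unfold Commute SemiconjBy
  ext1
  · funext u; simp [lampM, add_comm]
  all_goals simp [lampM]

theorem conj_lampM (x : Md) (w : Om) (k : K) : x * lampM w k * x⁻¹ = lampM (x.σ w) k := by
  ext1
  · funext u
    have : (x.σ⁻¹ u = w) ↔ (u = x.σ w) := Equiv.Perm.inv_eq_iff_eq
    simp only [lampM, Md.mul_m, Md.mul_σ, mul_one, Md.inv_m, this]
    simp
  all_goals simp [lampM]

theorem comm_lampM (x : Md) (w : Om) (k : K) (h : x.σ w = w) : Commute x (lampM w k) := by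
  have := conj_lampM x w k
  rw [h, mul_inv_eq_iff_eq_mul] at this
  exact this

theorem lampM_zpow (w : Om) (k : K) (z : ℤ) : lampM w k ^ z = lampM w (z * k) := by
  have h0 : lampM w 0 = 1 := by
    ext1
    · funext u; simp [lampM]
    all_goals rfl
  induction z using Int.induction_on with
  | zero => simp [h0]
  | succ n ih => rw [zpow_add_one, ih, ← lampM_add]; congr 1; push_cast; ring
  | pred n ih =>
    rw [zpow_sub_one, ih, mul_inv_eq_iff_eq_mul, ← lampM_add]; congr 1; push_cast; ring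

/-- The basic Lipschitz bounds. -/
def Bd (x : Md) (r : ℝ) : Prop :=
  (∀ s : Finset Om, ∑ w ∈ s, nm (x.m w) ≤ r) ∧ |(x.c1 : ℝ)| + |(x.c2 : ℝ)| ≤ r ∧
    (∀ w, dst (x.σ w) ≤ dst w + r) ∧ ∀ w, x.m w ≠ 0 → dst w ≤ r

theorem Bd.nonneg {x : Md} {r : ℝ} (h : Bd x r) : 0 ≤ r := by simpa using h.1 ∅

theorem Bd.mono {x : Md} {r r' : ℝ} (h : Bd x r) (hr : r ≤ r') : Bd x r' :=
  ⟨fun s => (h.1 s).trans hr, h.2.1.trans hr, fun w => by linarith [h.2.2.1 w],
    fun w hw => (h.2.2.2 w hw).trans hr⟩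

theorem Bd.one : Bd 1 0 := ⟨by simp, by simp, by simp, by simp⟩

theorem Bd.mul {x y : Md} {r r' : ℝ} (h : Bd x r) (h' : Bd y r') : Bd (x * y) (r + r') := by
  classical
  refine ⟨fun s => ?_, ?_, fun w => ?_, fun w hw => ?_⟩
  · have a1 := h.1 s
    have a2 := h'.1 (s.image (fun w => x.σ⁻¹ w))
    rw [Finset.sum_image (fun a _ b _ hab => (x.σ⁻¹).injective hab)] at a2
    have a3 : ∑ w ∈ s, nm ((x * y).m w) ≤ ∑ w ∈ s, (nm (x.m w) + nm (y.m (x.σ⁻¹ w))) :=
      Finset.sum_le_sum (fun w _ => nm_add_le _ _)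
    rw [Finset.sum_add_distrib] at a3
    linarith
  · simp only [Md.mul_c1, Md.mul_c2]
    push_cast
    linarith [abs_add_le (x.c1 : ℝ) y.c1, abs_add_le (x.c2 : ℝ) y.c2, h.2.1, h'.2.1]
  · simp only [Md.mul_σ, Equiv.Perm.mul_apply]
    linarith [h.2.2.1 (y.σ w), h'.2.2.1 w]
  · by_cases h1 : x.m w = 0
    · have h2 : y.m (x.σ⁻¹ w) ≠ 0 := by
        intro h2; apply hw; rw [Md.mul_m, h1, h2, add_zero]
      have a1 := h'.2.2.2 _ h2
      have a2 := h.2.2.1 (x.σ⁻¹ w)
      rw [show x.σ (x.σ⁻¹ w) = w from x.σ.apply_symm_apply w] at a2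
      linarith
    · linarith [h.2.2.2 w h1, h'.nonneg]

theorem Bd.lamp (k : K) (hk : nm k ≤ 1) : Bd (lampM (0, false) k) 1 := by
  refine ⟨fun s => ?_, by simp [lampM], fun w => by simp [lampM], fun w hw => ?_⟩
  · have : ∀ w ∈ s, nm ((lampM (0, false) k).m w) = if w = (0, false) then nm k else 0 := by
      intro w _; simp only [lampM]; split_ifs <;> simp
    rw [Finset.sum_congr rfl this, Finset.sum_ite_eq']
    split_ifs <;> linarith
  · have : w = (0, false) := by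
      by_contra h; apply hw; simp [lampM, h]
    simp [this, dst]

theorem dst_le_of {w v : Om} (h : v.1.natAbs ≤ w.1.natAbs + 1) : dst v ≤ dst w + 1 := by
  unfold dst
  rw [← Int.cast_abs, ← Int.cast_abs, ← Nat.cast_natAbs, ← Nat.cast_natAbs]
  exact_mod_cast h

/-- A line in the tripod together with the translation along it. -/
structure Line (pos : ℤ → Om) (σ : Equiv.Perm Om) : Prop where
  fst : ∀ n, (pos n).1 = n
  on : ∀ n, σ (pos n) = pos (n + 1)
  off : ∀ w, w ≠ pos w.1 → σ w = w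

theorem line1 : Line pos1 s1 where
  fst _ := rfl
  on n := by simp [pos1, s1_apply]
  off := by rintro ⟨n, _ | _⟩ <;> simp [pos1, s1_apply]

theorem line2 : Line pos2 s2 where
  fst _ := rfl
  on n := by
    simp only [pos2, s2_apply]
    split_ifs <;> simp_all <;> omega
  off := by
    rintro ⟨n, _ | _⟩ <;> simp only [pos2, s2_apply] <;> split_ifs <;> simp_all <;> omega

namespace Line

variable {pos : ℤ → Om} {σ : Equiv.Perm Om} (h : Line pos σ)
include h

theorem zpow_on (j n : ℤ) : (σ ^ j) (pos n) = pos (n + j) := by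
  induction j using Int.induction_on generalizing n with
  | zero => simp
  | succ i ih => rw [zpow_add_one, Equiv.Perm.mul_apply, h.on, ih]; congr 1; ring
  | pred i ih =>
    have : σ⁻¹ (pos n) = pos (n - 1) := by
      rw [Equiv.Perm.inv_eq_iff_eq, h.on]; congr 1; ring
    rw [zpow_sub_one, Equiv.Perm.mul_apply, this, ih]; congr 1; ring

theorem zpow_off (j : ℤ) {w : Om} (hw : w ≠ pos w.1) : (σ ^ j) w = w :=
  Equiv.Perm.zpow_apply_eq_self_of_apply_eq_self (h.off w hw) j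

theorem dst_zpow (j : ℤ) (w : Om) : dst ((σ ^ j) w) ≤ dst w + |(j : ℝ)| := by
  by_cases hw : w = pos w.1
  · rw [hw, h.zpow_on]
    simp only [dst, h.fst]
    push_cast
    exact abs_add_le _ _
  · rw [h.zpow_off j hw]; linarith [abs_nonneg (j : ℝ)]

open Classical in
/-- The model image of the wreath product placed along a line. -/
noncomputable def mu (c : K) (e u v : ℤ) : Wr →* Md :=
  MonoidHom.mk' (fun w => ⟨fun p => if p = pos p.1 then c * w.f (p.1 + e) else 0, σ ^ w.j,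
    u * w.j, v * w.j⟩) (fun a b => by
      ext1
      · funext p
        simp only [Wr.mul_f, Finsupp.add_apply, sh_apply, Md.mul_m, ← zpow_neg]
        by_cases hp : p = pos p.1
        · have e1 : (σ ^ (-a.j)) p = pos (p.1 + -a.j) := by rw [hp, h.zpow_on, h.fst]
          rw [if_pos hp, if_pos hp, e1, h.fst, if_pos rfl, mul_add]
          congr 3; ring
        · rw [if_neg hp, if_neg hp, h.zpow_off _ hp, if_neg hp, add_zero]
      · simp [zpow_add]
      · simp [mul_add]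
      · simp [mul_add])

theorem mu_on (c : K) (e u v : ℤ) (w : Wr) (n : ℤ) :
    (h.mu c e u v w).m (pos n) = c * w.f (n + e) := by
  simp [mu, h.fst]

theorem mu_off (c : K) (e u v : ℤ) (w : Wr) {p : Om} (hp : p ≠ pos p.1) :
    (h.mu c e u v w).m p = 0 := by
  simp [mu, hp]

theorem mu_σ (c : K) (e u v : ℤ) (w : Wr) : (h.mu c e u v w).σ = σ ^ w.j := rfl
theorem mu_c1 (c : K) (e u v : ℤ) (w : Wr) : (h.mu c e u v w).c1 = u * w.j := rfl
theorem mu_c2 (c : K) (e u v : ℤ) (w : Wr) : (h.mu c e u v w).c2 = v * w.j := rfl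

theorem mu_single (c : K) (e u v : ℤ) (n : ℤ) (k : K) :
    h.mu c e u v ⟨Finsupp.single n k, 0⟩ = lampM (pos (n - e)) (c * k) := by
  ext1
  · funext p
    by_cases hp : p = pos p.1
    · rw [hp, mu_on]
      simp only [lampM, Finsupp.single_apply]
      by_cases h1 : n = p.1 + e
      · rw [if_pos h1, if_pos (by rw [h1]; congr 1; ring)]
      · rw [if_neg h1, if_neg, mul_zero]
        intro h2
        have := congrArg Prod.fst h2
        rw [h.fst, h.fst] at this
        omega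
    · rw [h.mu_off _ _ _ _ _ hp]
      simp only [lampM]
      rw [if_neg]
      intro h2; apply hp; rw [h2, h.fst]
  · simp [mu_σ, lampM]
  · simp [mu_c1, lampM]
  · simp [mu_c2, lampM]

theorem mu_T (c : K) (e u v : ℤ) : h.mu c e u v ⟨0, 1⟩ = ⟨fun _ => 0, σ, u, v⟩ := by
  ext1
  · funext p; simp [mu]
  · simp [mu_σ]
  · simp [mu_c1]
  · simp [mu_c2]

theorem mu_inj {c : K} (hc : c ≠ 0) (e u v : ℤ) (huv : u + v = 1) :
    Function.Injective (h.mu c e u v) := by
  rw [injective_iff_map_eq_one]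
  intro w hw
  have h1 := congrArg Md.c1 hw
  have h2 := congrArg Md.c2 hw
  rw [mu_c1] at h1
  rw [mu_c2] at h2
  simp only [Md.one_c1, Md.one_c2] at h1 h2
  ext1
  · ext1 n
    have h3 := congrArg (fun x => Md.m x (pos (n - e))) hw
    simp only [mu_on, Md.one_m, sub_add_cancel] at h3
    simpa [hc] using h3
  · have : (u + v) * w.j = 0 := by rw [add_mul, h1, h2, add_zero]
    rw [huv, one_mul] at this
    simpa using this

theorem bd_mu_iff {c : K} (hc : c ≠ 0) (e u v : ℤ) (huv : (u = 1 ∧ v = 0) ∨ (u = 0 ∧ v = 1))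
    (w : Wr) (r : ℝ) : Bd (h.mu c e u v w) r ↔
      (∀ s : Finset ℤ, ∑ n ∈ s, nm c * nm (w.f n) ≤ r) ∧ |(w.j : ℝ)| ≤ r ∧
        ∀ n, w.f n ≠ 0 → |((n - e : ℤ) : ℝ)| ≤ r := by
  classical
  have hj : |((u * w.j : ℤ) : ℝ)| + |((v * w.j : ℤ) : ℝ)| = |(w.j : ℝ)| := by
    rcases huv with ⟨rfl, rfl⟩ | ⟨rfl, rfl⟩ <;> simp
  constructor
  · intro hb
    refine ⟨fun s => ?_, ?_, fun n hn => ?_⟩
    · have := hb.1 (s.image (fun n => pos (n - e)))
      rw [Finset.sum_image] at this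
      · simpa only [mu_on, sub_add_cancel, nm_mul] using this
      · intro a _ b _ hab
        have := congrArg Prod.fst hab
        simp only [h.fst] at this
        omega
    · have := hb.2.1
      rwa [mu_c1, mu_c2, hj] at this
    · have := hb.2.2.2 (pos (n - e)) (by rw [mu_on, sub_add_cancel]; exact mul_ne_zero hc hn)
      rwa [dst, h.fst] at this
  · rintro ⟨h1, h2, h3⟩
    refine ⟨fun s => ?_, ?_, fun p => ?_, fun p hp => ?_⟩
    · rw [← Finset.sum_filter_add_sum_filter_not s (fun p => p = pos p.1)]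
      have a1 : ∑ p ∈ s.filter (fun p => ¬ p = pos p.1), nm ((h.mu c e u v w).m p) = 0 := by
        apply Finset.sum_eq_zero
        intro p hp
        rw [h.mu_off _ _ _ _ _ (Finset.mem_filter.mp hp).2, nm_zero]
      rw [a1, add_zero]
      have := h1 ((s.filter (fun p => p = pos p.1)).image (fun p => p.1 + e))
      rw [Finset.sum_image] at this
      · refine le_trans (le_of_eq (Finset.sum_congr rfl fun p hp => ?_)) this
        rw [(Finset.mem_filter.mp hp).2, mu_on, nm_mul, h.fst]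
      · intro a ha b hb hab
        rw [Finset.mem_coe, Finset.mem_filter] at ha hb
        rw [ha.2, hb.2]
        congr 1
        simpa using hab
    · rw [mu_c1, mu_c2, hj]; exact h2
    · rw [mu_σ]; linarith [h.dst_zpow w.j p]
    · by_cases hp' : p = pos p.1
      · rw [hp', mu_on] at hp
        have := h3 _ (right_ne_zero_of_mul hp)
        rw [add_sub_cancel_right] at this
        exact this
      · exact absurd (h.mu_off _ _ _ _ _ hp') hp

end Line

noncomputable def mu1 : Wr →* Md := line1.mu pp 0 1 0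
noncomputable def mu2 : Wr →* Md := line2.mu pb 1 0 1

theorem bd_mu12 {w : Wr} {r : ℝ} (h : Bd (mu1 w) r) : Bd (mu2 w) (r + 2) := by
  rw [mu1, line1.bd_mu_iff pp_ne 0 1 0 (Or.inl ⟨rfl, rfl⟩)] at h
  rw [mu2, line2.bd_mu_iff pb_ne 1 0 1 (Or.inr ⟨rfl, rfl⟩), ← nm_pp_eq]
  refine ⟨fun s => by linarith [h.1 s], by linarith [h.2.1], fun n hn => ?_⟩
  have := h.2.2 n hn
  push_cast at this ⊢
  rw [abs_le] at this ⊢
  constructor <;> linarith [this.1, this.2]

theorem bd_mu21 {w : Wr} {r : ℝ} (h : Bd (mu2 w) r) : Bd (mu1 w) (r + 2) := by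
  rw [mu2, line2.bd_mu_iff pb_ne 1 0 1 (Or.inr ⟨rfl, rfl⟩), ← nm_pp_eq] at h
  rw [mu1, line1.bd_mu_iff pp_ne 0 1 0 (Or.inl ⟨rfl, rfl⟩)]
  refine ⟨fun s => by linarith [h.1 s], by linarith [h.2.1], fun n hn => ?_⟩
  have := h.2.2 n hn
  push_cast at this ⊢
  rw [abs_le] at this ⊢
  constructor <;> linarith [this.1, this.2]

/-- The change of the lamp at position n on the first line between two consecutive crossings. -/
def dl (v w : Wr) (n : ℤ) : K := (if 0 ≤ n then pb * w.f (n + 1) else 0) - pp * v.f n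

/-- What one step costs. -/
def Stp (v w : Wr) (c : ℝ) : Prop :=
  |(v.j : ℝ)| ≤ c ∧ (∀ s : Finset ℤ, ∑ n ∈ s, nm (dl v w n) ≤ c) ∧
    ∀ n, dl v w n ≠ 0 → |(n : ℝ)| ≤ 2 * c

theorem stp_of_bd {v w : Wr} {c : ℝ} (h : Bd ((mu1 v)⁻¹ * mu2 w) c) : Stp v w c := by
  classical
  have hm : ∀ n, ((mu1 v)⁻¹ * mu2 w).m (pos1 (n - v.j)) = dl v w n := by
    intro n
    simp only [Md.mul_m, Md.inv_m, Md.inv_σ, inv_inv]
    have : (mu1 v).σ (pos1 (n - v.j)) = pos1 n := by
      rw [mu1, line1.mu_σ, line1.zpow_on, sub_add_cancel]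
    rw [this, mu1, line1.mu_on, add_zero, dl]
    split_ifs with hn
    · have : pos1 n = pos2 n := by simp [pos1, pos2, hn]
      rw [this, mu2, line2.mu_on]; ring
    · rw [mu2, line2.mu_off]
      · ring
      · have : n < 0 := by omega
        simp [pos1, pos2, this]
  have hj : |(v.j : ℝ)| ≤ c := by
    have := h.2.1
    simp only [Md.mul_c1, Md.inv_c1, mu1, mu2, Line.mu_c1] at this
    simp only [one_mul, zero_mul, add_zero, Int.cast_neg, abs_neg] at this
    linarith [abs_nonneg (((line1.mu pp 0 1 0 v)⁻¹ * line2.mu pb 1 0 1 w).c2 : ℝ)]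
  refine ⟨hj, fun s => ?_, fun n hn => ?_⟩
  · have := h.1 (s.image (fun n => pos1 (n - v.j)))
    rw [Finset.sum_image] at this
    · simpa only [hm] using this
    · intro a _ b _ hab
      simpa [pos1] using hab
  · have := h.2.2.2 _ (by rw [hm]; exact hn)
    simp only [dst, pos1] at this
    push_cast at this
    rw [abs_le] at this hj ⊢
    constructor <;> linarith [this.1, this.2, hj.1, hj.2]

theorem stp_one : Stp 1 1 0 := by
  refine ⟨by simp, fun s => by simp [dl], fun n hn => absurd (by simp [dl]) hn⟩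

end Pool.Agent.Lib.MP_fdd6ec_al
end

-- part Pool.Agent.Lib.MP_fdd6ec_al.G0
section

set_option autoImplicit false

namespace Pool.Agent.Lib.MP_fdd6ec_al

section rel

variable {Γ : Type} [Group Γ]

def cm (x y : Γ) : Γ := x * y * x⁻¹ * y⁻¹
def bet (s t : Γ) : Γ := s⁻¹ * s⁻¹ * (t * s * t⁻¹ * s⁻¹) * s * s
def kz (a b : Γ) (z : K) : Γ := a ^ z.re * b ^ z.im

def rel0 (a b s t : Γ) : List Γ :=
  [cm a b, cm (s⁻¹ * t) a, cm (s⁻¹ * t) b, cm (bet s t) a, cm (bet s t) b, cm (bet s t) t,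
    cm t (s⁻¹ * a * s), cm t (s⁻¹ * b * s), cm (s⁻¹ * a * s) a, cm (s⁻¹ * a * s) b,
    cm (s⁻¹ * b * s) a, cm (s⁻¹ * b * s) b]

def rel1 (a b s t y : Γ) : List Γ :=
  rel0 a b s t ++ [y * s * y⁻¹ * t⁻¹, y * kz a b (pp * 1) * y⁻¹ * (t⁻¹ * kz a b (pb * 1) * t)⁻¹,
    y * kz a b (pp * ii) * y⁻¹ * (t⁻¹ * kz a b (pb * ii) * t)⁻¹]

theorem map_kz {Δ : Type} [Group Δ] (f : Γ →* Δ) (a b : Γ) (z : K) :
    f (kz a b z) = kz (f a) (f b) z := by simp [kz]

theorem map_rel0 {Δ : Type} [Group Δ] (f : Γ →* Δ) (a b s t : Γ) :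
    (rel0 a b s t).map f = rel0 (f a) (f b) (f s) (f t) := by
  simp [rel0, cm, bet]

theorem map_rel1 {Δ : Type} [Group Δ] (f : Γ →* Δ) (a b s t y : Γ) :
    (rel1 a b s t y).map f = rel1 (f a) (f b) (f s) (f t) (f y) := by
  simp [rel1, map_rel0, map_kz]

theorem cm_eq_one {x y : Γ} : cm x y = 1 ↔ Commute x y := by
  rw [cm, mul_inv_eq_one, mul_inv_eq_iff_eq_mul]; rfl

structure R0 (a b s t : Γ) : Prop where
  ab : Commute a b
  sa : Commute (s⁻¹ * t) a
  sb : Commute (s⁻¹ * t) b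
  ba : Commute (bet s t) a
  bb : Commute (bet s t) b
  bt : Commute (bet s t) t
  ta : Commute t (s⁻¹ * a * s)
  tb : Commute t (s⁻¹ * b * s)
  aa : Commute (s⁻¹ * a * s) a
  ab' : Commute (s⁻¹ * a * s) b
  ba' : Commute (s⁻¹ * b * s) a
  bb' : Commute (s⁻¹ * b * s) b

theorem r0_iff {a b s t : Γ} : (∀ r ∈ rel0 a b s t, r = 1) ↔ R0 a b s t := by
  simp only [rel0, List.mem_cons, List.not_mem_nil, or_false, forall_eq_or_imp, forall_eq,
    cm_eq_one]
  constructor
  · rintro ⟨h1, h2, h3, h4, h5, h6, h7, h8, h9, h10, h11, h12⟩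
    exact ⟨h1, h2, h3, h4, h5, h6, h7, h8, h9, h10, h11, h12⟩
  · rintro ⟨h1, h2, h3, h4, h5, h6, h7, h8, h9, h10, h11, h12⟩
    exact ⟨h1, h2, h3, h4, h5, h6, h7, h8, h9, h10, h11, h12⟩

theorem comm_kz {x a b : Γ} (ha : Commute x a) (hb : Commute x b) (z : K) :
    Commute x (kz a b z) := (ha.zpow_right _).mul_right (hb.zpow_right _)

theorem conj_kz (g a b : Γ) (z : K) : g * kz a b z * g⁻¹ = kz (g * a * g⁻¹) (g * b * g⁻¹) z :=
  map_kz (MulAut.conj g).toMonoidHom a b z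

theorem comm_conj (g : Γ) {x y : Γ} (h : Commute x y) : Commute (g * x * g⁻¹) (g * y * g⁻¹) :=
  h.map (MulAut.conj g).toMonoidHom

theorem comm_of_conj (g : Γ) {x y : Γ} (h : Commute (g * x * g⁻¹) (g * y * g⁻¹)) :
    Commute x y := by
  have := comm_conj g⁻¹ h
  simpa [mul_assoc] using this

/-- The lamp at position n along the axis of s. -/
def kap (a b s : Γ) (n : ℤ) (z : K) : Γ := s ^ n * kz a b z * (s ^ n)⁻¹

theorem kap_shift (a b s : Γ) (j n : ℤ) (z : K) :
    s ^ j * kap a b s n z * (s ^ j)⁻¹ = kap a b s (n + j) z := by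
  simp only [kap]; group

namespace R0

variable {a b s t : Γ} (h : R0 a b s t)
include h

theorem kz_add (z z' : K) : kz a b (z + z') = kz a b z * kz a b z' := by
  simp only [kz, Zsqrtd.re_add, Zsqrtd.im_add, zpow_add]
  have := (h.ab.zpow_zpow z'.re z.im).eq
  rw [mul_assoc, mul_assoc, ← mul_assoc (a ^ z'.re), this, mul_assoc]

theorem kap_add (g : Γ) (n : ℤ) (z z' : K) :
    kap a b g n (z + z') = kap a b g n z * kap a b g n z' := by
  simp only [kap, h.kz_add]; group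

theorem kz_comm (z z' : K) : Commute (kz a b z) (kz a b z') := by
  unfold Commute SemiconjBy
  rw [← h.kz_add, ← h.kz_add, add_comm]

theorem kap_eq_aux (j : ℕ) : (∀ z, kap a b t j z = kap a b s j z) ∧
    ∀ z, kap a b t (j + 1) z = kap a b s (j + 1) z := by
  induction j with
  | zero =>
    refine ⟨fun z => by simp [kap], fun z => ?_⟩
    have := (comm_kz h.sa h.sb z).eq
    simp only [kap, Nat.cast_zero, zero_add, zpow_one]
    calc t * kz a b z * t⁻¹ = s * (s⁻¹ * t * kz a b z) * t⁻¹ := by group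
      _ = s * kz a b z * s⁻¹ := by rw [this]; group
  | succ j ih =>
    refine ⟨fun z => by push_cast; exact ih.2 z, fun z => ?_⟩
    have h1 : Commute (bet s t) (kap a b s j z) := by
      rw [← ih.1 z]
      exact ((h.bt.zpow_right _).mul_right (comm_kz h.ba h.bb z)).mul_right
        (h.bt.zpow_right _).inv_right
    have h2 := (comm_conj (s ^ (2 : ℤ)) h1).eq
    rw [kap_shift] at h2
    have e1 : s ^ (2 : ℤ) * bet s t * (s ^ (2 : ℤ))⁻¹ = t * s * t⁻¹ * s⁻¹ := by
      simp only [bet]; group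
    rw [e1] at h2
    have e2 := kap_shift a b t 1 j z
    have e3 := kap_shift a b t 1 (j + 1) z
    have e4 := kap_shift a b s 1 j z
    have e5 := kap_shift a b s 1 (j + 1) z
    rw [zpow_one] at e2 e3 e4 e5
    push_cast
    rw [← e3, ih.2 z, ← e4]
    rw [ih.1 z, ih.2 z] at e2
    calc t * (s * kap a b s j z * s⁻¹) * t⁻¹
        = (t * s * t⁻¹ * s⁻¹) * (s * (t * kap a b s j z * t⁻¹) * s⁻¹) * (t * s * t⁻¹ * s⁻¹)⁻¹ := by
          group
      _ = kap a b s (j + 1 + 1) z := by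
          rw [e2, e5, show (j : ℤ) + 1 + 1 = j + 2 by ring, h2]; group

theorem kap_eq {n : ℤ} (hn : 0 ≤ n) (z : K) : kap a b t n z = kap a b s n z := by
  obtain ⟨j, rfl⟩ := Int.eq_ofNat_of_zero_le hn
  exact (h.kap_eq_aux j).1 z

theorem kap_comm_lt {n m : ℤ} (hnm : n < m) (z z' : K) :
    Commute (kap a b s n z) (kap a b s m z') := by
  apply comm_of_conj (s ^ (-n - 1))
  rw [kap_shift, kap_shift, show n + (-n - 1) = -1 by ring,
    ← h.kap_eq (n := m + (-n - 1)) (by omega)]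
  have e : kap a b s (-1) z = kz (s⁻¹ * a * s) (s⁻¹ * b * s) z := by
    have := conj_kz s⁻¹ a b z
    simpa [kap] using this
  rw [e]
  have h1 : Commute (kz (s⁻¹ * a * s) (s⁻¹ * b * s) z) t := (comm_kz h.ta h.tb z).symm
  have h2 : Commute (kz (s⁻¹ * a * s) (s⁻¹ * b * s) z) (kz a b z') :=
    comm_kz (comm_kz h.aa.symm h.ba'.symm z).symm (comm_kz h.ab'.symm h.bb'.symm z).symm z'
  exact ((h1.zpow_right _).mul_right h2).mul_right (h1.zpow_right _).inv_right

theorem kap_comm (n m : ℤ) (z z' : K) : Commute (kap a b s n z) (kap a b s m z') := by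
  rcases lt_trichotomy n m with h1 | rfl | h1
  · exact h.kap_comm_lt h1 z z'
  · exact comm_conj _ (h.kz_comm z z')
  · exact (h.kap_comm_lt h1 z' z).symm

theorem kap_comm' (n m : ℤ) (z z' : K) : Commute (kap a b t n z) (kap a b t m z') := by
  apply comm_of_conj (t ^ (|n| + |m|))
  rw [kap_shift, kap_shift, h.kap_eq (by linarith [neg_abs_le n, abs_nonneg m]),
    h.kap_eq (by linarith [neg_abs_le m, abs_nonneg n])]
  exact h.kap_comm _ _ _ _

theorem exists_io (g : Γ) (hg : ∀ n m z z', Commute (kap a b g n z) (kap a b g m z'))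
    (c : K) (e : ℤ) : ∃ ι : Wr →* Γ, (∀ n k, ι ⟨Finsupp.single n k, 0⟩ = kap a b g (n - e) (c * k))
      ∧ ∀ j : ℤ, ι ⟨0, j⟩ = g ^ j := by
  apply exists_iota
  · intro n k l; rw [mul_add, h.kap_add]
  · intro n m k l; exact (hg _ _ _ _).eq
  · intro j n k
    rw [show n + j - e = n - e + j by ring, ← kap_shift a b g j, inv_mul_cancel_right]

end R0

end rel

/-! The vertex group -/

def rels0 : Set (FreeGroup (Fin 4)) :=
  {r | r ∈ rel0 (FreeGroup.of 0) (FreeGroup.of 1) (FreeGroup.of 2) (FreeGroup.of 3)}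

def G0 : Type := PresentedGroup rels0

noncomputable instance : Group G0 := inferInstanceAs (Group (PresentedGroup rels0))

def ga : G0 := PresentedGroup.of (rels := rels0) 0
def gb : G0 := PresentedGroup.of (rels := rels0) 1
def gs : G0 := PresentedGroup.of (rels := rels0) 2
def gt : G0 := PresentedGroup.of (rels := rels0) 3

theorem r0_G0 : R0 ga gb gs gt := by
  rw [← r0_iff]
  intro r hr
  have e := map_rel0 (PresentedGroup.mk rels0) (FreeGroup.of 0) (FreeGroup.of 1) (FreeGroup.of 2)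
    (FreeGroup.of 3)
  have hr' : r ∈ (rel0 (FreeGroup.of (0 : Fin 4)) (FreeGroup.of 1) (FreeGroup.of 2)
    (FreeGroup.of 3)).map (PresentedGroup.mk rels0) := by rw [e]; exact hr
  obtain ⟨x, hx, rfl⟩ := List.mem_map.mp hr'
  exact PresentedGroup.one_of_mem hx

theorem exists_lift0 {Γ : Type} [Group Γ] {a b s t : Γ} (h : R0 a b s t) :
    ∃ F : G0 →* Γ, F ga = a ∧ F gb = b ∧ F gs = s ∧ F gt = t := by
  have hr : ∀ r ∈ rels0, FreeGroup.lift ![a, b, s, t] r = 1 := by
    intro r hr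
    apply r0_iff.mpr h
    have e := map_rel0 (FreeGroup.lift ![a, b, s, t]) (FreeGroup.of 0) (FreeGroup.of 1)
      (FreeGroup.of 2) (FreeGroup.of 3)
    simp only [FreeGroup.lift_apply_of] at e
    have : FreeGroup.lift ![a, b, s, t] r ∈ (rel0 (FreeGroup.of (0 : Fin 4)) (FreeGroup.of 1)
      (FreeGroup.of 2) (FreeGroup.of 3)).map (FreeGroup.lift ![a, b, s, t]) :=
      List.mem_map.mpr ⟨r, hr, rfl⟩
    rw [e] at this
    exact this
  exact ⟨PresentedGroup.toGroup hr, PresentedGroup.toGroup.of hr, PresentedGroup.toGroup.of hr,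
    PresentedGroup.toGroup.of hr, PresentedGroup.toGroup.of hr⟩

theorem G0_gen (S : Subgroup G0) (h0 : ga ∈ S) (h1 : gb ∈ S) (h2 : gs ∈ S) (h3 : gt ∈ S)
    (x : G0) : x ∈ S := by
  apply PresentedGroup.generated_by rels0 S _ x
  intro j
  fin_cases j
  exacts [h0, h1, h2, h3]

def mS : Md := ⟨fun _ => 0, s1, 1, 0⟩
def mT : Md := ⟨fun _ => 0, s2, 0, 1⟩

theorem s2_s1 : s2 * s1 = Equiv.swap (0, false) (1, false) * s1 * s2 := by
  apply Equiv.ext
  rintro ⟨n, _ | _⟩
  · rcases lt_trichotomy n (-1) with h | rfl | h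
    · have h1 : ¬ (0 ≤ n) := by omega
      have h2 : ¬ (0 ≤ n + 1) := by omega
      simp only [Equiv.Perm.mul_apply, s1_apply, s2_apply, h1, h2, Bool.false_eq_true, if_false]
      rw [Equiv.swap_apply_of_ne_of_ne] <;> simp <;> omega
    · decide
    · have h1 : 0 ≤ n := by omega
      have h2 : 0 ≤ n + 1 := by omega
      simp only [Equiv.Perm.mul_apply, s1_apply, s2_apply, h1, h2, Bool.false_eq_true, if_false,
        if_true]
      rw [Equiv.swap_apply_of_ne_of_ne] <;> simp <;> omega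
  · rcases lt_trichotomy n (-1) with h | rfl | h
    · simp only [Equiv.Perm.mul_apply, s1_apply, s2_apply, h, if_true]
      rw [Equiv.swap_apply_of_ne_of_ne] <;> simp
    · decide
    · have h1 : ¬ (n < -1) := by omega
      have h2 : ¬ (n = -1) := by omega
      simp only [Equiv.Perm.mul_apply, s1_apply, s2_apply, h1, h2, if_false, if_true]
      rw [Equiv.swap_apply_of_ne_of_ne] <;> simp

theorem bet_σ : (bet mS mT).σ = Equiv.swap (-2, false) (-1, false) := by
  have e : (bet mS mT).σ = s1⁻¹ * s1⁻¹ * (s2 * s1 * s2⁻¹ * s1⁻¹) * s1 * s1 := rfl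
  have e2 : s2 * s1 * s2⁻¹ * s1⁻¹ = Equiv.swap (0, false) (1, false) := by rw [s2_s1]; group
  rw [e, e2, Equiv.mul_swap_eq_swap_mul]
  have h1 : (s1⁻¹ * s1⁻¹) (0, false) = (-2, false) := by decide
  have h2 : (s1⁻¹ * s1⁻¹) (1, false) = (-1, false) := by decide
  rw [h1, h2]; group

theorem r0_Md : R0 (lampM (0, false) 1) (lampM (0, false) ii) mS mT := by
  have e : ∀ k, mS⁻¹ * lampM (0, false) k * mS = lampM (-1, false) k := by
    intro k
    have := conj_lampM mS⁻¹ (0, false) k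
    rw [inv_inv] at this
    rw [this]; rfl
  have h1 : (mS⁻¹ * mT).σ (0, false) = (0, false) := by decide
  have h2 : (bet mS mT).σ (0, false) = (0, false) := by decide
  have h3 : mT.σ (-1, false) = (-1, false) := by decide
  refine ⟨lampM_comm _ _ _ _, comm_lampM _ _ _ h1, comm_lampM _ _ _ h1, comm_lampM _ _ _ h2,
    comm_lampM _ _ _ h2, ?_, ?_, ?_, ?_, ?_, ?_, ?_⟩
  · unfold Commute SemiconjBy
    ext1
    · funext p; simp [bet, mS, mT]
    · rw [Md.mul_σ, Md.mul_σ, bet_σ, Equiv.mul_swap_eq_swap_mul, h3]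
      rfl
    · simp [bet, mS, mT]
    · simp [bet, mS, mT]
  · rw [e]; exact comm_lampM _ _ _ h3
  · rw [e]; exact comm_lampM _ _ _ h3
  all_goals rw [e]; exact lampM_comm _ _ _ _

noncomputable def pi0 : G0 →* Md := (exists_lift0 r0_Md).choose
theorem pi0_a : pi0 ga = lampM (0, false) 1 := (exists_lift0 r0_Md).choose_spec.1
theorem pi0_b : pi0 gb = lampM (0, false) ii := (exists_lift0 r0_Md).choose_spec.2.1
theorem pi0_s : pi0 gs = mS := (exists_lift0 r0_Md).choose_spec.2.2.1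
theorem pi0_t : pi0 gt = mT := (exists_lift0 r0_Md).choose_spec.2.2.2

theorem pi0_kz (z : K) : pi0 (kz ga gb z) = lampM (0, false) z := by
  rw [map_kz, pi0_a, pi0_b, kz, lampM_zpow, lampM_zpow, ← lampM_add]
  congr 1
  ext <;> simp [ii]

noncomputable def io1 : Wr →* G0 := (r0_G0.exists_io gs r0_G0.kap_comm pp 0).choose
noncomputable def io2 : Wr →* G0 := (r0_G0.exists_io gt r0_G0.kap_comm' pb 1).choose

theorem io1_single (n : ℤ) (k : K) : io1 ⟨Finsupp.single n k, 0⟩ = kap ga gb gs n (pp * k) := by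
  rw [io1, (r0_G0.exists_io gs r0_G0.kap_comm pp 0).choose_spec.1, sub_zero]
theorem io1_T (j : ℤ) : io1 ⟨0, j⟩ = gs ^ j :=
  (r0_G0.exists_io gs r0_G0.kap_comm pp 0).choose_spec.2 j
theorem io2_single (n : ℤ) (k : K) :
    io2 ⟨Finsupp.single n k, 0⟩ = kap ga gb gt (n - 1) (pb * k) :=
  (r0_G0.exists_io gt r0_G0.kap_comm' pb 1).choose_spec.1 n k
theorem io2_T (j : ℤ) : io2 ⟨0, j⟩ = gt ^ j :=
  (r0_G0.exists_io gt r0_G0.kap_comm' pb 1).choose_spec.2 j

theorem Wr.hom_ext {Γ : Type} [Group Γ] {f g : Wr →* Γ}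
    (h1 : f ⟨Finsupp.single 0 1, 0⟩ = g ⟨Finsupp.single 0 1, 0⟩)
    (h2 : f ⟨Finsupp.single 0 ii, 0⟩ = g ⟨Finsupp.single 0 ii, 0⟩)
    (h3 : f ⟨0, 1⟩ = g ⟨0, 1⟩) (w : Wr) : f w = g w :=
  Wr.gen (f.eqLocus g) h1 h2 h3 w

theorem pi0_io1 (w : Wr) : pi0 (io1 w) = mu1 w := by
  have h : ∀ k, pi0 (io1 ⟨Finsupp.single 0 k, 0⟩) = mu1 ⟨Finsupp.single 0 k, 0⟩ := by
    intro k
    rw [io1_single, mu1, Line.mu_single]
    simp [kap, pi0_kz, pos1]
  refine Wr.hom_ext (f := pi0.comp io1) (h 1) (h ii) ?_ w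
  rw [MonoidHom.comp_apply, io1_T, zpow_one, pi0_s, mu1, Line.mu_T]; rfl

theorem pi0_io2 (w : Wr) : pi0 (io2 w) = mu2 w := by
  have h : ∀ k, pi0 (io2 ⟨Finsupp.single 0 k, 0⟩) = mu2 ⟨Finsupp.single 0 k, 0⟩ := by
    intro k
    rw [io2_single, mu2, Line.mu_single, kap, map_mul, map_mul, map_inv, pi0_kz, conj_lampM]
    simp only [zero_sub, zpow_neg, zpow_one, map_inv, pi0_t]
    rfl
  refine Wr.hom_ext (f := pi0.comp io2) (h 1) (h ii) ?_ w
  rw [MonoidHom.comp_apply, io2_T, zpow_one, pi0_t, mu2, Line.mu_T]; rfl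

theorem io1_inj : Function.Injective io1 := by
  intro v w h
  apply line1.mu_inj pp_ne 0 1 0 rfl
  have := congrArg pi0 h
  rwa [pi0_io1, pi0_io1] at this

theorem io2_inj : Function.Injective io2 := by
  intro v w h
  apply line2.mu_inj pb_ne 1 0 1 rfl
  have := congrArg pi0 h
  rwa [pi0_io2, pi0_io2] at this

theorem bd_prm {σ : Equiv.Perm Om} {u v : ℤ} (h : ∀ w : Om, (σ w).1.natAbs ≤ w.1.natAbs + 1)
    (huv : |(u : ℝ)| + |(v : ℝ)| ≤ 1) : Bd ⟨fun _ => 0, σ, u, v⟩ 1 :=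
  ⟨fun s => by simp, huv, fun w => dst_le_of (h w), fun w hw => absurd rfl hw⟩

theorem bd_gen (x : G0) (hx : x = ga ∨ x = gb ∨ x = gs ∨ x = gt) :
    Bd (pi0 x) 1 ∧ Bd (pi0 x⁻¹) 1 := by
  have e : ∀ k, (lampM (0, false) k)⁻¹ = lampM (0, false) (-k) := by
    intro k
    have := lampM_zpow (0, false) k (-1)
    simpa using this
  rw [map_inv]
  rcases hx with rfl | rfl | rfl | rfl
  · rw [pi0_a, e]; exact ⟨Bd.lamp _ nm_one.le, Bd.lamp _ (by rw [nm_neg, nm_one])⟩
  · rw [pi0_b, e]; exact ⟨Bd.lamp _ nm_ii.le, Bd.lamp _ (by rw [nm_neg, nm_ii])⟩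
  · rw [pi0_s]
    refine ⟨bd_prm (fun w => ?_) (by simp), ?_⟩
    · rw [s1_apply]; split_ifs <;> simp <;> omega
    · have : mS⁻¹ = ⟨fun _ => 0, s1⁻¹, -1, 0⟩ := by ext1 <;> rfl
      rw [this]
      refine bd_prm (fun w => ?_) (by simp)
      rw [s1_inv_apply]; split_ifs <;> simp <;> omega
  · rw [pi0_t]
    refine ⟨bd_prm (fun w => ?_) (by simp), ?_⟩
    · rw [s2_apply]; split_ifs <;> simp <;> omega
    · have : mT⁻¹ = ⟨fun _ => 0, s2⁻¹, 0, -1⟩ := by ext1 <;> rfl
      rw [this]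
      refine bd_prm (fun w => ?_) (by simp)
      rw [s2_inv_apply]; split_ifs <;> simp <;> omega

theorem gs_not_mem (w : Wr) : io2 w ≠ gs := by
  intro h
  have := congrArg (fun x => (pi0 x).c1) h
  simp only [pi0_io2, pi0_s, mu2, Line.mu_c1, mS] at this
  omega

end Pool.Agent.Lib.MP_fdd6ec_al
end

-- part Pool.Agent.Lib.MP_fdd6ec_al.Window
section

set_option autoImplicit false

namespace Pool.Agent.Lib.MP_fdd6ec_al

theorem sum_range_mul' (g : ℕ → ℝ) (a Q : ℕ) :
    ∑ s ∈ Finset.range (a * Q), g s = ∑ m ∈ Finset.range a, ∑ s ∈ Finset.range Q, g (m * Q + s) := by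
  induction a with
  | zero => simp
  | succ a ih => rw [Nat.succ_mul, Finset.sum_range_add, ih, Finset.sum_range_succ]

theorem pow6_lt {Q : ℕ} (h : 9 ≤ Q) : Q ^ 6 < 5 ^ Q := by
  induction Q, h using Nat.le_induction with
  | base => norm_num
  | succ n hn ih =>
    have h1 : 9 * (n + 1) ≤ 10 * n := by omega
    have h2 : (9 * (n + 1)) ^ 6 ≤ (10 * n) ^ 6 := Nat.pow_le_pow_left h1 6
    rw [mul_pow, mul_pow] at h2
    rw [pow_succ 5 n]
    norm_num at h2
    omega

section win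

variable {w : ℤ → Wr} {c : ℤ → ℝ} {Q : ℕ}

theorem touch (hQ : 9 ≤ Q) (hsz : ∀ i, sz (w i) ≤ (Q : ℝ) ^ 3) (i n : ℤ) (hn : 0 ≤ n)
    (h : (w i).f n ≠ 0) : ∃ s : ℕ, s < Q ∧ dl (w (i + s)) (w (i + s + 1)) (n + s) ≠ 0 := by
  by_contra hc
  push Not at hc
  have key : ∀ s : ℕ, s ≤ Q → pb ^ s * (w (i + s)).f (n + s) = pp ^ s * (w i).f n := by
    intro s hs
    induction s with
    | zero => simp
    | succ s ih =>
      have h1 := hc s (by omega)
      rw [dl, if_pos (by positivity), sub_eq_zero] at h1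
      push_cast
      rw [pow_succ, mul_assoc, ← add_assoc, ← add_assoc, h1, mul_left_comm, ih (by omega)]
      ring
  have h1 : pb ^ Q ∣ pp ^ Q * (w i).f n := ⟨_, (key Q le_rfl).symm⟩
  obtain ⟨u, hu⟩ := (coprime_pb_pp.pow (m := Q) (n := Q)).dvd_of_dvd_mul_left h1
  have hu0 : u ≠ 0 := by rintro rfl; exact h (by simpa using hu)
  have h2 : nm pb ^ Q ≤ (Q : ℝ) ^ 3 := by
    have := (nm_le_sz (w i) n).trans (hsz i)
    rw [hu, nm_mul, nm_pow] at this
    have h3 := one_le_nm hu0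
    have h4 : 0 ≤ nm pb ^ Q := pow_nonneg (nm_nonneg _) _
    nlinarith
  have h3 : (nm pb ^ Q) ^ 2 ≤ ((Q : ℝ) ^ 3) ^ 2 :=
    pow_le_pow_left₀ (pow_nonneg (nm_nonneg _) _) h2 2
  rw [← pow_mul, mul_comm, pow_mul, nm_pb_sq, ← pow_mul] at h3
  have h4 : ((Q ^ 6 : ℕ) : ℝ) < ((5 ^ Q : ℕ) : ℝ) := by exact_mod_cast pow6_lt hQ
  push_cast at h4
  exact absurd (lt_of_lt_of_le h4 h3) (lt_irrefl _)

theorem window (hQ : 9 ≤ Q) (hsz : ∀ i, sz (w i) ≤ (Q : ℝ) ^ 3)
    (hst : ∀ i, Stp (w i) (w (i + 1)) (c i)) (i : ℤ) :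
    sz (w i) ≤ 4 * ∑ s ∈ Finset.range (2 * Q * Q), c (i + s) := by
  classical
  have hc0 : ∀ i, 0 ≤ c i := fun i => (abs_nonneg _).trans (hst i).1
  set C := ∑ s ∈ Finset.range (2 * Q * Q), c (i + s) with hC
  have hQQ : Q ≤ 2 * Q * Q := by nlinarith
  have hle : ∀ s : ℕ, s < 2 * Q * Q → c (i + s) ≤ C := fun s hs =>
    Finset.single_le_sum (f := fun s : ℕ => c (i + s)) (fun s _ => hc0 _) (Finset.mem_range.mpr hs)
  have hC0 : c i ≤ C := by simpa using hle 0 (by omega)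
  by_cases hdie : ∀ n : ℤ, 0 ≤ n → ∃ s : ℕ, s ≤ 2 * Q * Q ∧ (w (i + s)).f (n + s) = 0
  · have h1 : ∑ n ∈ (w i).f.support, nm ((w i).f n) ≤ C := by
      have a1 : ∀ n : ℤ, nm ((w i).f n) ≤
          ∑ s ∈ Finset.range (2 * Q * Q), nm (dl (w (i + s)) (w (i + s + 1)) (n + s)) := by
        intro n
        have b0 : nm ((w i).f n) ≤ nm (pp * (w i).f n) := by
          rw [nm_mul]; nlinarith [nm_pp_ge, nm_nonneg ((w i).f n)]
        refine b0.trans ?_
        by_cases hn : 0 ≤ n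
        · have b1 : ∀ s : ℕ, nm (pp * (w i).f n) ≤ nm (pp * (w (i + s)).f (n + s)) +
              ∑ r ∈ Finset.range s, nm (dl (w (i + r)) (w (i + r + 1)) (n + r)) := by
            intro s
            induction s with
            | zero => simp
            | succ s ih =>
              rw [Finset.sum_range_succ]
              have e : pp * (w (i + s)).f (n + s) = pb * (w (i + s + 1)).f (n + s + 1) +
                  - dl (w (i + s)) (w (i + s + 1)) (n + s) := by
                rw [dl, if_pos (by positivity)]; ring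
              have b2 := nm_add_le (pb * (w (i + s + 1)).f (n + s + 1))
                (- dl (w (i + s)) (w (i + s + 1)) (n + s))
              rw [← e, nm_neg, nm_mul pb, ← nm_pp_eq, ← nm_mul] at b2
              push_cast
              rw [← add_assoc i, ← add_assoc n]
              linarith
          obtain ⟨s, hs, h0⟩ := hdie n hn
          have b2 := b1 s
          rw [h0, mul_zero, nm_zero, zero_add] at b2
          refine b2.trans (Finset.sum_le_sum_of_subset_of_nonneg ?_ (fun _ _ _ => nm_nonneg _))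
          exact Finset.range_subset_range.mpr hs
        · have b1 := Finset.single_le_sum (f := fun s : ℕ =>
            nm (dl (w (i + s)) (w (i + s + 1)) (n + s))) (fun s _ => nm_nonneg _)
            (Finset.mem_range.mpr (by omega : 0 < 2 * Q * Q))
          simp only [Nat.cast_zero, add_zero] at b1
          rw [dl, if_neg hn, zero_sub, nm_neg] at b1
          exact b1
      refine (Finset.sum_le_sum (fun n _ => a1 n)).trans ?_
      rw [Finset.sum_comm]
      apply Finset.sum_le_sum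
      intro s _
      have := (hst (i + s)).2.1 ((w i).f.support.image (fun n => n + s))
      rw [Finset.sum_image (fun a _ b _ hab => by simpa using hab)] at this
      exact this
    have h3 : ∀ n, (w i).f n ≠ 0 → |(n : ℝ)| ≤ 2 * C := by
      intro n hn
      by_cases h0 : 0 ≤ n
      · obtain ⟨s, hs, h2⟩ := touch hQ hsz i n h0 hn
        have b1 := (hst (i + s)).2.2 _ h2
        have b2 := hle s (by omega)
        have b3 : (0 : ℝ) ≤ n := by exact_mod_cast h0
        have b4 : (0 : ℝ) ≤ s := by positivity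
        push_cast at b1
        rw [abs_of_nonneg (by linarith)] at b1
        rw [abs_of_nonneg b3]
        linarith
      · have := (hst i).2.2 n (by
          rw [dl, if_neg h0, zero_sub, neg_ne_zero]; exact mul_ne_zero pp_ne hn)
        linarith
    have := sz_le h1 ((hst i).1.trans hC0) (by linarith [hc0 i]) h3
    linarith
  · push Not at hdie
    obtain ⟨n, hn, hs⟩ := hdie
    have a1 : ∀ m ∈ Finset.range Q, (Q : ℝ) * Q / 2 ≤
        ∑ s ∈ Finset.range Q, c (i + ((Q + m) * Q + s : ℕ)) := by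
      intro m hm
      rw [Finset.mem_range] at hm
      obtain ⟨s, hs1, hs2⟩ := touch hQ hsz (i + ((Q + m) * Q : ℕ)) (n + ((Q + m) * Q : ℕ))
        (by positivity) (hs _ (by nlinarith))
      have b1 := (hst _).2.2 _ hs2
      have b2 := Finset.single_le_sum (f := fun s : ℕ => c (i + ((Q + m) * Q + s : ℕ)))
        (fun s _ => hc0 _) (Finset.mem_range.mpr hs1)
      have b3 : (0 : ℝ) ≤ n := by exact_mod_cast hn
      have b4 : (0 : ℝ) ≤ s := by positivity
      have b5 : (0 : ℝ) ≤ (m : ℝ) * Q := by positivity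
      have b6 : (0 : ℝ) ≤ (Q : ℝ) * Q := by positivity
      push_cast at b1 b2 ⊢
      rw [abs_of_nonneg (by nlinarith)] at b1
      rw [← add_assoc] at b2
      nlinarith
    have a2 := Finset.card_nsmul_le_sum _ _ _ a1
    rw [Finset.card_range, nsmul_eq_mul] at a2
    have a3 : C = ∑ m ∈ Finset.range (Q + Q), ∑ s ∈ Finset.range Q, c (i + (m * Q + s : ℕ)) := by
      rw [hC, two_mul, sum_range_mul' (fun s : ℕ => c (i + s))]
    rw [Finset.sum_range_add] at a3
    have a4 : 0 ≤ ∑ m ∈ Finset.range Q, ∑ s ∈ Finset.range Q, c (i + (m * Q + s : ℕ)) :=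
      Finset.sum_nonneg (fun _ _ => Finset.sum_nonneg (fun _ _ => hc0 _))
    have a5 := hsz i
    have a6 : (0 : ℝ) ≤ (Q : ℝ) ^ 3 := by positivity
    nlinarith

end win

/-- The crossing points of a quasi-geodesic have bounded size. -/
theorem bounded_sizes (A : ℝ) (hA : 1 ≤ A) : ∃ M : ℝ, 0 ≤ M ∧ ∀ (w : ℤ → Wr) (c : ℤ → ℝ),
    (∀ i, Stp (w i) (w (i + 1)) (c i)) → (∃ i0, ∀ i, sz (w i) ≤ sz (w i0)) →
    (∀ (i : ℤ) (T : ℕ), ∑ s ∈ Finset.range T, c (i + s) ≤ A * (sz (w i) + sz (w (i + T)) + T + 1)) →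
    ∀ i, sz (w i) ≤ M := by
  classical
  obtain ⟨T, hT⟩ := exists_nat_ge (64 * A * (2 * A + 1))
  obtain ⟨Q1, hQ1⟩ := exists_nat_ge (320 * A * T)
  refine ⟨((Q1 + 9 : ℕ) : ℝ) ^ 3, by positivity, fun w c hst ⟨i0, hi0⟩ hq i => ?_⟩
  refine (hi0 i).trans ?_
  by_contra hcon
  push Not at hcon
  set ρ := sz (w i0) with hρ
  have hc0 : ∀ i, 0 ≤ c i := fun i => (abs_nonneg _).trans (hst i).1
  have hex : ∃ Q : ℕ, ρ ≤ (Q : ℝ) ^ 3 := by
    obtain ⟨Q, hQ⟩ := exists_nat_ge (max ρ 1)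
    have h1 : ρ ≤ Q := (le_max_left _ _).trans hQ
    have h2 : (1 : ℝ) ≤ Q := (le_max_right _ _).trans hQ
    exact ⟨Q, h1.trans (le_self_pow₀ h2 (by norm_num))⟩
  set Q := Nat.find hex with hQdef
  have hQ : ρ ≤ (Q : ℝ) ^ 3 := Nat.find_spec hex
  have hQbig : Q1 + 9 < Q := by
    by_contra h
    push Not at h
    have : (Q : ℝ) ^ 3 ≤ ((Q1 + 9 : ℕ) : ℝ) ^ 3 :=
      pow_le_pow_left₀ (by positivity) (by exact_mod_cast h) 3
    linarith
  have hQ' : ((Q - 1 : ℕ) : ℝ) ^ 3 < ρ := by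
    have := Nat.find_min hex (m := Q - 1) (by omega)
    push Not at this
    exact this
  have hQr : (Q1 : ℝ) + 9 < Q := by exact_mod_cast hQbig
  have hQ1' : (0 : ℝ) ≤ Q1 := by positivity
  have hT1 : (1 : ℝ) ≤ T := by nlinarith
  set S := 2 * Q * Q with hS
  have hbig : 8 * A * (2 * T * S + 1) < ρ := by
    rw [Nat.cast_sub (by omega)] at hQ'
    have h1 : ((Q : ℝ) / 2) ^ 3 ≤ ((Q : ℝ) - (1 : ℕ)) ^ 3 :=
      pow_le_pow_left₀ (by positivity) (by push_cast; linarith) 3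
    have h2 : (1 : ℝ) ≤ T * (Q * Q) := by nlinarith
    have h3 : 8 * A * (2 * T * S + 1) ≤ 8 * A * (5 * T * (Q * Q)) := by
      apply mul_le_mul_of_nonneg_left _ (by linarith)
      rw [hS]; push_cast; nlinarith
    have h4 : 8 * A * (5 * T * (Q * Q)) ≤ ((Q : ℝ) / 2) ^ 3 := by
      have : 320 * A * T * (Q * Q) ≤ (Q : ℝ) * (Q * Q) :=
        mul_le_mul_of_nonneg_right (by linarith) (by positivity)
      nlinarith
    exact lt_of_le_of_lt (h3.trans (h4.trans h1)) hQ'
  have hρ0 : 0 < ρ := lt_of_le_of_lt (by positivity) hbig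
  have hwin : ∀ i, sz (w i) ≤ 4 * ∑ s ∈ Finset.range S, c (i + s) :=
    window (by omega) (fun i => (hi0 i).trans hQ) hst
  have hS0 : (0 : ℝ) ≤ S := by positivity
  have good : ∀ i : ℤ, ∃ m : ℕ, m < T ∧ 16 * A * sz (w (i + (m * S : ℕ))) ≤ ρ := by
    intro i
    by_contra h
    push Not at h
    have a1 := hq i (T * S)
    rw [sum_range_mul' (fun s : ℕ => c (i + s))] at a1
    have a2 : ∀ m ∈ Finset.range T, ρ / (64 * A) ≤
        ∑ s ∈ Finset.range S, c (i + (m * S + s : ℕ)) := by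
      intro m hm
      have b1 := h m (Finset.mem_range.mp hm)
      have b2 := hwin (i + (m * S : ℕ))
      have e : ∀ s : ℕ, i + (m * S : ℕ) + s = i + (m * S + s : ℕ) := by
        intro s; push_cast; ring
      simp only [e] at b2
      rw [div_le_iff₀ (by linarith)]
      nlinarith
    have a3 := Finset.card_nsmul_le_sum _ _ _ a2
    rw [Finset.card_range, nsmul_eq_mul] at a3
    have a4 : (2 * A + 1) * ρ ≤ T * (ρ / (64 * A)) := by
      rw [← mul_div_assoc, le_div_iff₀ (by linarith)]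
      nlinarith
    have a5 := hi0 i
    have a6 := hi0 (i + (T * S : ℕ))
    have a7 : A * (sz (w i) + sz (w (i + (T * S : ℕ))) + (T * S : ℕ) + 1) ≤
        A * (ρ + ρ + T * S + 1) := by
      apply mul_le_mul_of_nonneg_left _ (by linarith)
      push_cast at a6 ⊢
      linarith
    have a8 : (0 : ℝ) ≤ A * (T * S) := by positivity
    nlinarith
  obtain ⟨m1, hm1, g1⟩ := good (i0 - (T * S : ℕ))
  obtain ⟨m2, hm2, g2⟩ := good (i0 + S)
  have a1 := hq (i0 - (T * S : ℕ) + (m1 * S : ℕ)) ((T - m1) * S + S + m2 * S)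
  have e1 : i0 - (T * S : ℕ) + (m1 * S : ℕ) + ((T - m1) * S + S + m2 * S : ℕ) =
      i0 + S + (m2 * S : ℕ) := by
    push_cast [Nat.cast_sub hm1.le]; ring
  rw [e1, Finset.sum_range_add, Finset.sum_range_add] at a1
  have e2 : ∀ s : ℕ, i0 - (T * S : ℕ) + (m1 * S : ℕ) + ((T - m1) * S + s : ℕ) = i0 + s := by
    intro s; push_cast [Nat.cast_sub hm1.le]; ring
  simp only [e2] at a1
  have a2 := hwin i0
  have a3 : 0 ≤ ∑ s ∈ Finset.range ((T - m1) * S), c (i0 - (T * S : ℕ) + (m1 * S : ℕ) + s) :=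
    Finset.sum_nonneg (fun _ _ => hc0 _)
  have a4 : 0 ≤ ∑ s ∈ Finset.range (m2 * S), c (i0 - (T * S : ℕ) + (m1 * S : ℕ) +
      ((T - m1) * S + S + s : ℕ)) := Finset.sum_nonneg (fun _ _ => hc0 _)
  have a5 : (((T - m1) * S + S + m2 * S : ℕ) : ℝ) ≤ 2 * T * S := by
    have : (T - m1) * S + S + m2 * S ≤ 2 * T * S := by
      have : (T - m1) + 1 + m2 ≤ 2 * T := by omega
      calc (T - m1) * S + S + m2 * S = ((T - m1) + 1 + m2) * S := by ring
        _ ≤ 2 * T * S := Nat.mul_le_mul_right _ this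
    exact_mod_cast this
  have a6 : A * (((T - m1) * S + S + m2 * S : ℕ) : ℝ) ≤ A * (2 * T * S) :=
    mul_le_mul_of_nonneg_left a5 (by linarith)
  nlinarith

end Pool.Agent.Lib.MP_fdd6ec_al
end
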